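import Pool.Agent.W167.Stretch.Radius

/-!
Transfer to the standard cubes.
-/

set_option autoImplicit false

namespace Pool.Agent.W167.Stretch

open Finset

variable {N L L' n : ℕ}

/-- identification of the target -/
def eT {m : ℕ} (τ : Fin N ⊕ Fin L ≃ Fin m) : ZZ N L ≃ (Fin m → Bool) :=
  (Equiv.sumArrowEquivProdArrow (Fin N) (Fin L) Bool).symm.trans
    (Equiv.arrowCongr τ (Equiv.refl Bool))

theorem eT_apply {m : ℕ} (τ : Fin N ⊕ Fin L ≃ Fin m) (z : ZZ N L) (t : Fin N ⊕ Fin L) :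
    eT τ z (τ t) = Sum.elim z.1 z.2 t := by
  unfold eT
  simp only [Equiv.trans_apply, Equiv.arrowCongr_apply, Equiv.coe_refl, Function.comp_apply,
    Equiv.symm_apply_apply, id_eq]
  cases t <;> rfl

theorem card_filter_sum {m : ℕ} (τ : Fin N ⊕ Fin L ≃ Fin m) (p : Fin m → Prop) [DecidablePred p] :
    (univ.filter p).card = (univ.filter (fun i : Fin N => p (τ (Sum.inl i)))).card +
      (univ.filter (fun i : Fin L => p (τ (Sum.inr i)))).card := by
  rw [card_filter, card_filter, card_filter, ← Equiv.sum_comp τ, Fintype.sum_sum_type]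

theorem hd_eT {m : ℕ} (τ : Fin N ⊕ Fin L ≃ Fin m) (z w : ZZ N L) :
    (hammingDist (eT τ z) (eT τ w) : ℝ) = dZ z w := by
  unfold dZ hammingDist
  rw [card_filter_sum τ]
  simp_rw [eT_apply]
  push_cast
  rfl

theorem wt_eT {m : ℕ} (τ : Fin N ⊕ Fin L ≃ Fin m) (z : ZZ N L) :
    (((univ.filter (fun i => eT τ z i = true)).card : ℕ) : ℤ) = lev z := by
  rw [card_filter_sum τ]
  simp_rw [eT_apply]
  unfold lev
  rw [wz_eq_card, wz_eq_card]
  push_cast
  rfl

/-- identification of the source -/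
def eS (σ : Fin N ⊕ (Fin L' ⊕ Unit) ≃ Fin n) :
    (Fin n → Bool) ≃ (Fin N → Bool) × ((Fin L' → Bool) × (Unit → Bool)) :=
  ((Equiv.arrowCongr σ (Equiv.refl Bool)).symm.trans
    (Equiv.sumArrowEquivProdArrow (Fin N) (Fin L' ⊕ Unit) Bool)).trans
    (Equiv.prodCongr (Equiv.refl _) (Equiv.sumArrowEquivProdArrow (Fin L') Unit Bool))

theorem eS_fst (σ : Fin N ⊕ (Fin L' ⊕ Unit) ≃ Fin n) (x : Fin n → Bool) (i : Fin N) :
    (eS σ x).1 i = x (σ (Sum.inl i)) := rfl

theorem eS_snd (σ : Fin N ⊕ (Fin L' ⊕ Unit) ≃ Fin n) (x : Fin n → Bool) (i : Fin L') :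
    (eS σ x).2.1 i = x (σ (Sum.inr (Sum.inl i))) := rfl

theorem eS_thd (σ : Fin N ⊕ (Fin L' ⊕ Unit) ≃ Fin n) (x : Fin n → Bool) (i : Unit) :
    (eS σ x).2.2 i = x (σ (Sum.inr (Sum.inr i))) := rfl

theorem eS_fl1 (σ : Fin N ⊕ (Fin L' ⊕ Unit) ≃ Fin n) (x : Fin n → Bool) (i : Fin N) :
    eS σ (fl x (σ (Sum.inl i))) = (fl (eS σ x).1 i, (eS σ x).2) := by
  refine Prod.ext ?_ (Prod.ext ?_ ?_)
  · funext j
    rw [eS_fst]
    simp only [fl, Function.update_apply, eS_fst, EmbeddingLike.apply_eq_iff_eq, Sum.inl.injEq]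
  · funext j
    rw [eS_snd]
    simp only [fl, Function.update_apply, eS_snd, EmbeddingLike.apply_eq_iff_eq, reduceCtorEq,
      if_false]
  · funext j
    rw [eS_thd]
    simp only [fl, Function.update_apply, eS_thd, EmbeddingLike.apply_eq_iff_eq, reduceCtorEq,
      if_false]

theorem eS_fl2 (σ : Fin N ⊕ (Fin L' ⊕ Unit) ≃ Fin n) (x : Fin n → Bool) (i : Fin L') :
    eS σ (fl x (σ (Sum.inr (Sum.inl i)))) = ((eS σ x).1, (fl (eS σ x).2.1 i, (eS σ x).2.2)) := by
  refine Prod.ext ?_ (Prod.ext ?_ ?_)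
  · funext j
    rw [eS_fst]
    simp only [fl, Function.update_apply, eS_fst, EmbeddingLike.apply_eq_iff_eq, reduceCtorEq,
      if_false]
  · funext j
    rw [eS_snd]
    simp only [fl, Function.update_apply, eS_snd, EmbeddingLike.apply_eq_iff_eq, Sum.inr.injEq,
      Sum.inl.injEq]
  · funext j
    rw [eS_thd]
    simp only [fl, Function.update_apply, eS_thd, EmbeddingLike.apply_eq_iff_eq, Sum.inr.injEq,
      reduceCtorEq, if_false]

theorem eS_fl3 (σ : Fin N ⊕ (Fin L' ⊕ Unit) ≃ Fin n) (x : Fin n → Bool) (i : Unit) :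
    eS σ (fl x (σ (Sum.inr (Sum.inr i)))) = ((eS σ x).1, ((eS σ x).2.1, fun _ => !((eS σ x).2.2 i))) := by
  refine Prod.ext ?_ (Prod.ext ?_ ?_)
  · funext j
    rw [eS_fst]
    simp only [fl, Function.update_apply, eS_fst, EmbeddingLike.apply_eq_iff_eq, reduceCtorEq,
      if_false]
  · funext j
    rw [eS_snd]
    simp only [fl, Function.update_apply, eS_snd, EmbeddingLike.apply_eq_iff_eq, Sum.inr.injEq,
      reduceCtorEq, if_false]
  · funext j
    rw [eS_thd]
    simp only [fl, Function.update_apply, eS_thd, if_true]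

/-- one of the two antipodal copies -/
def sgn (b : Bool) (z : ZZ N L) : ZZ N L := if b then compZ z else z

theorem dZ_sgn (b : Bool) (z w : ZZ N L) : dZ (sgn b z) (sgn b w) = dZ z w := by
  unfold sgn
  cases b
  · simp
  · simp [dZ_compZ]

/-- the two antipodal balls -/
theorem main_aux {k : ℕ} (hn : n = N + L' + 1)
    (hk : 2 * (k + 1) < N + (L' + 2))
    (ψ : (Fin N → Bool) × (Fin L' → Bool) → ZZ N (L' + 2)) (hψ : Function.Injective ψ)
    (h1 : ∀ p, ψ p ∈ Ball N (L' + 2) k ∨ ψ p ∈ Lev N (L' + 2) k)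
    (h2 : ∀ z ∈ Ball N (L' + 2) k, ∃ p, ψ p = z)
    (h3 : ∑ p : (Fin N → Bool) × (Fin L' → Bool),
        (∑ i : Fin N, dZ (ψ p) (ψ (fl p.1 i, p.2)) + ∑ j : Fin L', dZ (ψ p) (ψ (p.1, fl p.2 j))) ≤
        5000 * (2 ^ L' * 2 ^ N) * (N + (L' + 2) : ℕ)) :
    ∃ φ : (Fin n → Bool) → (Fin (n + 1) → Bool), Function.Injective φ ∧
      (∀ x : Fin (n + 1) → Bool, ((univ.filter (fun i => x i = true)).card ≤ k ∨
               n + 1 - k ≤ (univ.filter (fun i => x i = true)).card) → ∃ p, φ p = x) ∧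
      ∑ x : Fin n → Bool, ∑ i : Fin n, (hammingDist (φ x) (φ (Function.update x i (!x i))) : ℝ) ≤
        10002 * ((n : ℝ) * 2 ^ n) := by
  classical
  obtain ⟨σ⟩ : Nonempty (Fin N ⊕ (Fin L' ⊕ Unit) ≃ Fin n) := by
    refine ⟨Fintype.equivOfCardEq ?_⟩
    simp [hn, add_assoc]
  obtain ⟨τ⟩ : Nonempty (Fin N ⊕ Fin (L' + 2) ≃ Fin (n + 1)) := by
    refine ⟨Fintype.equivOfCardEq ?_⟩
    simp [hn, add_assoc]
  have hlev : ∀ p, lev (ψ p) ≤ (k + 1 : ℕ) := by
    intro p
    rcases h1 p with h | h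
    · rw [mem_Ball] at h; push_cast; linarith
    · rw [mem_Lev] at h; exact h.le
  set g : (Fin N → Bool) × ((Fin L' → Bool) × (Unit → Bool)) → ZZ N (L' + 2) :=
    fun q => sgn (q.2.2 ()) (ψ (q.1, q.2.1)) with hg
  have ginj : Function.Injective g := by
    rintro ⟨a, b, c⟩ ⟨a', b', c'⟩ h
    simp only [hg, sgn] at h
    have hc : c = fun _ => c () := rfl
    have hc' : c' = fun _ => c' () := rfl
    have l1 := hlev (a, b)
    have l2 := hlev (a', b')
    push_cast at l1 l2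
    rcases hb : c () with _ | _ <;> rcases hb' : c' () with _ | _ <;> rw [hb, hb'] at h <;>
      simp only [if_true, if_false, Bool.false_eq_true] at h
    · have := hψ h
      simp only [Prod.mk.injEq] at this
      rw [hc, hc', hb, hb', this.1, this.2]
    · exfalso
      have h5 : lev (ψ (a, b)) = lev (compZ (ψ (a', b'))) := by rw [h]
      rw [lev_compZ] at h5
      push_cast at h5
      omega
    · exfalso
      have h5 : lev (compZ (ψ (a, b))) = lev (ψ (a', b')) := by rw [h]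
      rw [lev_compZ] at h5
      push_cast at h5
      omega
    · have := hψ (compZ_inj h)
      simp only [Prod.mk.injEq] at this
      rw [hc, hc', hb, hb', this.1, this.2]
  refine ⟨fun x => eT τ (g (eS σ x)), ?_, ?_, ?_⟩
  · exact (eT τ).injective.comp (ginj.comp (eS σ).injective)
  · intro x hx
    have hw := wt_eT τ ((eT τ).symm x)
    rw [Equiv.apply_symm_apply] at hw
    set w := (univ.filter (fun i => x i = true)).card with hwd
    set z := (eT τ).symm x with hz
    have hzx : eT τ z = x := Equiv.apply_symm_apply _ _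
    by_cases hk1 : w ≤ k
    · obtain ⟨p, hp⟩ := h2 z (mem_Ball.2 (by rw [← hw]; exact_mod_cast hk1))
      refine ⟨(eS σ).symm (p.1, (p.2, fun _ => false)), ?_⟩
      simp only [Equiv.apply_symm_apply, hg, sgn]
      simp only [Bool.false_eq_true, if_false]
      rw [Prod.mk.eta, hp, hzx]
    · have hk2 : n + 1 - k ≤ w := by tauto
      have hl : lev (compZ z) ≤ (k : ℤ) := by
        rw [lev_compZ, ← hw]
        push_cast
        omega
      obtain ⟨p, hp⟩ := h2 (compZ z) (mem_Ball.2 hl)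
      refine ⟨(eS σ).symm (p.1, (p.2, fun _ => true)), ?_⟩
      simp only [Equiv.apply_symm_apply, hg, sgn]
      simp only [if_true]
      rw [Prod.mk.eta, hp, compZ_compZ, hzx]
  · -- the sum
    set P : ℝ := 2 ^ L' * 2 ^ N with hP
    have e1 : ∀ x : Fin n → Bool, ∑ i : Fin n,
        (hammingDist (eT τ (g (eS σ x))) (eT τ (g (eS σ (Function.update x i (!x i))))) : ℝ) =
        (fun q : (Fin N → Bool) × ((Fin L' → Bool) × (Unit → Bool)) =>
          ∑ i : Fin N, dZ (g q) (g (fl q.1 i, q.2)) +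
          (∑ j : Fin L', dZ (g q) (g (q.1, (fl q.2.1 j, q.2.2))) +
            ∑ u : Unit, dZ (g q) (g (q.1, (q.2.1, fun _ => !(q.2.2 u)))))) (eS σ x) := by
      intro x
      simp_rw [hd_eT]
      rw [← Equiv.sum_comp σ, Fintype.sum_sum_type, Fintype.sum_sum_type]
      congr 1
      · refine sum_congr rfl fun i _ => ?_
        have := eS_fl1 σ x i
        unfold fl at this
        rw [this]
        rfl
      · congr 1
        · refine sum_congr rfl fun i _ => ?_
          have := eS_fl2 σ x i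
          unfold fl at this
          rw [this]
          rfl
        · refine sum_congr rfl fun i _ => ?_
          have := eS_fl3 σ x i
          unfold fl at this
          rw [this]
    simp_rw [e1]
    rw [Equiv.sum_comp (eS σ) (fun q : (Fin N → Bool) × ((Fin L' → Bool) × (Unit → Bool)) =>
          ∑ i : Fin N, dZ (g q) (g (fl q.1 i, q.2)) +
          (∑ j : Fin L', dZ (g q) (g (q.1, (fl q.2.1 j, q.2.2))) +
            ∑ u : Unit, dZ (g q) (g (q.1, (q.2.1, fun _ => !(q.2.2 u))))))]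
    have e2 : ∀ q : (Fin N → Bool) × ((Fin L' → Bool) × (Unit → Bool)),
        ∑ i : Fin N, dZ (g q) (g (fl q.1 i, q.2)) +
          (∑ j : Fin L', dZ (g q) (g (q.1, (fl q.2.1 j, q.2.2))) +
            ∑ u : Unit, dZ (g q) (g (q.1, (q.2.1, fun _ => !(q.2.2 u))))) ≤
        (∑ i : Fin N, dZ (ψ (q.1, q.2.1)) (ψ (fl q.1 i, q.2.1)) +
          ∑ j : Fin L', dZ (ψ (q.1, q.2.1)) (ψ (q.1, fl q.2.1 j))) + (N + (L' + 2) : ℕ) := by
      intro q
      have f1 : ∀ i : Fin N, dZ (g q) (g (fl q.1 i, q.2)) = dZ (ψ (q.1, q.2.1)) (ψ (fl q.1 i, q.2.1)) := by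
        intro i; simp only [hg]; rw [dZ_sgn]
      have f2 : ∀ j : Fin L', dZ (g q) (g (q.1, (fl q.2.1 j, q.2.2))) =
          dZ (ψ (q.1, q.2.1)) (ψ (q.1, fl q.2.1 j)) := by
        intro i; simp only [hg]; rw [dZ_sgn]
      simp_rw [f1, f2]
      have f3 : ∑ u : Unit, dZ (g q) (g (q.1, (q.2.1, fun _ => !(q.2.2 u)))) ≤
          ((N + (L' + 2) : ℕ) : ℝ) := by
        rw [Fintype.sum_unique]
        have := dZ_le (g q) (g (q.1, (q.2.1, fun _ => !(q.2.2 (default : Unit)))))
        push_cast at this ⊢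
        linarith
      linarith
    refine (sum_le_sum fun q _ => e2 q).trans ?_
    rw [sum_add_distrib, sum_const, card_univ, nsmul_eq_mul]
    have e3 : ∑ q : (Fin N → Bool) × ((Fin L' → Bool) × (Unit → Bool)),
        (∑ i : Fin N, dZ (ψ (q.1, q.2.1)) (ψ (fl q.1 i, q.2.1)) +
          ∑ j : Fin L', dZ (ψ (q.1, q.2.1)) (ψ (q.1, fl q.2.1 j))) =
        2 * ∑ p : (Fin N → Bool) × (Fin L' → Bool),
        (∑ i : Fin N, dZ (ψ p) (ψ (fl p.1 i, p.2)) + ∑ j : Fin L', dZ (ψ p) (ψ (p.1, fl p.2 j))) := by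
      rw [Fintype.sum_prod_type, Fintype.sum_prod_type, mul_sum]
      refine sum_congr rfl fun a _ => ?_
      rw [Fintype.sum_prod_type, mul_sum]
      refine sum_congr rfl fun b _ => ?_
      simp only
      rw [sum_const, card_univ, nsmul_eq_mul]
      simp
    have e4 : (Fintype.card ((Fin N → Bool) × ((Fin L' → Bool) × (Unit → Bool))) : ℝ) = 2 * P := by
      rw [Fintype.card_prod, Fintype.card_prod, Fintype.card_fun, Fintype.card_fun,
        Fintype.card_fun, Fintype.card_bool, Fintype.card_fin, Fintype.card_fin, Fintype.card_unit]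
      push_cast
      rw [hP]; ring
    have e5 : (2 : ℝ) ^ n = 2 * P := by
      rw [hn, pow_add, pow_add, hP]; ring
    rw [e3, e4, e5]
    have e6 : ((N + (L' + 2) : ℕ) : ℝ) = n + 1 := by
      rw [hn]; push_cast; ring
    rw [e6] at h3 ⊢
    have e7 : (1 : ℝ) ≤ n := by
      rw [hn]; push_cast
      have : (0 : ℝ) ≤ N := Nat.cast_nonneg _
      have : (0 : ℝ) ≤ L' := Nat.cast_nonneg _
      linarith
    have e8 : 0 < P := by positivity
    have e9 : P * (n + 1) ≤ P * (2 * n) := mul_le_mul_of_nonneg_left (by linarith) e8.le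
    nlinarith

end Pool.Agent.W167.Stretch
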