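import Pool.Agent.W167.Stretch.Kernel

/-!
Averages over the blocks of a partition, and transport between successive averages.
-/

set_option autoImplicit false
set_option linter.unusedSectionVars false

namespace Pool.Agent.W167.Stretch

open Finset

variable {Z : Type*} [Fintype Z] [DecidableEq Z] {I : Type*} [DecidableEq I]

/-- the block of `z` -/
def blk (b : Z → I) (z : Z) : Finset Z := univ.filter (fun w => b w = b z)

/-- average over blocks -/
noncomputable def avgB (b : Z → I) (μ : Z → ℝ) (z : Z) : ℝ := (∑ w ∈ blk b z, μ w) / (blk b z).card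

theorem mem_blk {b : Z → I} {z w : Z} : w ∈ blk b z ↔ b w = b z := by simp [blk]

theorem self_mem_blk (b : Z → I) (z : Z) : z ∈ blk b z := by simp [blk]

theorem blk_card_pos (b : Z → I) (z : Z) : 0 < (blk b z).card := card_pos.2 ⟨z, self_mem_blk b z⟩

theorem blk_congr {b : Z → I} {z w : Z} (h : b w = b z) : blk b w = blk b z := by
  unfold blk; rw [h]

theorem avgB_nonneg {b : Z → I} {μ : Z → ℝ} (h : ∀ z, 0 ≤ μ z) (z : Z) : 0 ≤ avgB b μ z :=
  div_nonneg (sum_nonneg fun w _ => h w) (Nat.cast_nonneg _)

theorem avgB_add (b : Z → I) (μ ν : Z → ℝ) (z : Z) :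
    avgB b (fun w => μ w + ν w) z = avgB b μ z + avgB b ν z := by
  unfold avgB; rw [sum_add_distrib, add_div]

theorem avgB_of_inj {b : Z → I} (hb : ∀ z w, b z = b w → z = w) (μ : Z → ℝ) (z : Z) :
    avgB b μ z = μ z := by
  have : blk b z = {z} := by
    ext w
    rw [mem_blk, mem_singleton]
    exact ⟨fun h => hb _ _ h, fun h => by rw [h]⟩
  unfold avgB
  rw [this]; simp

/-- averages preserve the mass of coarser blocks -/
theorem sum_avgB {J : Type*} [DecidableEq J] {b : Z → I} {b' : Z → J}
    (h : ∀ z w, b z = b w → b' z = b' w) (μ : Z → ℝ) (z : Z) :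
    ∑ w ∈ blk b' z, avgB b μ w = ∑ w ∈ blk b' z, μ w := by
  have h1 : ∀ w, avgB b μ w = ∑ v, if b v = b w then μ v / (blk b v).card else 0 := by
    intro w
    unfold avgB
    rw [sum_div, ← sum_filter]
    refine sum_congr rfl fun v hv => ?_
    rw [mem_filter] at hv
    rw [blk_congr hv.2]
  simp_rw [h1]
  rw [sum_comm]
  have h2 : ∀ v, ∑ w ∈ blk b' z, (if b v = b w then μ v / ((blk b v).card : ℝ) else 0) =
      if b' v = b' z then μ v else 0 := by
    intro v
    rw [← sum_filter, sum_const, nsmul_eq_mul]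
    by_cases hv : b' v = b' z
    · rw [if_pos hv]
      have h3 : (blk b' z).filter (fun w => b v = b w) = blk b v := by
        ext w
        rw [mem_filter, mem_blk, mem_blk]
        constructor
        · rintro ⟨-, h4⟩; exact h4.symm
        · intro h4; exact ⟨(h _ _ h4).trans hv, h4.symm⟩
      rw [h3, ← mul_div_assoc, mul_comm, mul_div_assoc, div_self, mul_one]
      exact_mod_cast (blk_card_pos b v).ne'
    · rw [if_neg hv]
      have h3 : (blk b' z).filter (fun w => b v = b w) = ∅ := by
        apply filter_eq_empty_iff.2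
        intro w hw h4
        rw [mem_blk] at hw
        exact hv ((h _ _ h4).trans hw)
      rw [h3]; simp
  simp_rw [h2]
  rw [← sum_filter]
  rfl

/-- the total mass is preserved -/
theorem sum_univ_avgB (b : Z → I) (μ : Z → ℝ) : ∑ w, avgB b μ w = ∑ w, μ w := by
  rcases isEmpty_or_nonempty Z with hZ | ⟨⟨z⟩⟩
  · simp
  · have h := sum_avgB (b := b) (b' := fun _ : Z => ()) (fun _ _ _ => rfl) μ z
    have h2 : blk (fun _ : Z => ()) z = univ := by ext w; simp [blk]
    rwa [h2] at h

/-- transport through a sequence of coarser and coarser averages -/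
theorem Tr_chain {d : Z → Z → ℝ} (hd0 : ∀ z, d z z = 0)
    (hdt : ∀ x y z, d x z ≤ d x y + d y z) (b : ℕ → Z → I)
    (hb : ∀ t z w, b t z = b t w → b (t + 1) z = b (t + 1) w)
    (hδ : ∀ t z w, b t z = b t w → d z w ≤ t) {μ : Z → ℝ} (hμ : ∀ z, 0 ≤ μ z) (T : ℕ) :
    Tr d (avgB (b 0) μ) (avgB (b T) μ)
      (∑ t ∈ range T, ((t : ℝ) + 1) * ∑ z, |avgB (b t) μ z - avgB (b (t + 1)) μ z|) := by
  induction T with
  | zero =>
    refine ⟨fun z w => if z = w then 1 else 0, fun z w => by dsimp only; split_ifs <;> norm_num,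
      fun z => by simp, fun w => by simp, ?_⟩
    simp [hd0]
  | succ T ih =>
    rw [sum_range_succ]
    refine Tr.trans hdt (avgB_nonneg hμ) ih ?_
    have := Tr.block (d := d) (b (T + 1)) (μ := avgB (b T) μ) (ν := avgB (b (T + 1)) μ)
      (avgB_nonneg hμ) (avgB_nonneg hμ) (δ := (T : ℝ) + 1) (by positivity) (fun z => by
        have h1 := sum_avgB (b := b T) (b' := b (T + 1)) (hb T) μ z
        have h2 := sum_avgB (b := b (T + 1)) (b' := b (T + 1)) (fun _ _ h => h) μ z
        unfold blk at h1 h2
        rw [h1, h2]) (fun z w h => by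
        have := hδ (T + 1) z w h
        push_cast at this
        exact this) hd0
    exact this

end Pool.Agent.W167.Stretch
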