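import Pool.Agent.W167.Stretch.Expect

/-!
Acceptance-rejection with shared seeds.
-/

set_option autoImplicit false

namespace Pool.Agent.W167.Stretch

open Finset

variable {X Q Z : Type*}

section Defs

variable (Φ : X → Q → Z) (acc : Z → Prop) [DecidablePred acc] (base : X → Z)
  (V : Z → Prop) [DecidablePred V]

/-- the position of a particle after `I` rounds -/
def pos : (I : ℕ) → (Fin I → Q) → X → Z
  | 0, _, x => base x
  | I + 1, s, x => if acc (Φ x (s 0)) then Φ x (s 0) else pos I (fun i => s i.succ) x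

/-- indicator: the particle was accepted at a place of `V` -/
def hit : (I : ℕ) → (Fin I → Q) → X → ℝ
  | 0, _, _ => 0
  | I + 1, s, x => if acc (Φ x (s 0)) then (if V (Φ x (s 0)) then 1 else 0)
      else hit I (fun i => s i.succ) x

/-- indicator: the particle was never accepted -/
def lost : (I : ℕ) → (Fin I → Q) → X → ℝ
  | 0, _, _ => 1
  | I + 1, s, x => if acc (Φ x (s 0)) then 0 else lost I (fun i => s i.succ) x

end Defs

section Thms

variable {Φ : X → Q → Z} {acc : Z → Prop} [DecidablePred acc] {base : X → Z}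
  {V : Z → Prop} [DecidablePred V]

theorem hit_nonneg : ∀ (I : ℕ) (s : Fin I → Q) (x : X), 0 ≤ hit Φ acc V I s x := by
  intro I
  induction I with
  | zero => intro s x; exact le_rfl
  | succ I ih =>
    intro s x
    rw [hit]
    split_ifs
    · norm_num
    · norm_num
    · exact ih _ _

theorem lost_nonneg : ∀ (I : ℕ) (s : Fin I → Q) (x : X), 0 ≤ lost Φ acc I s x := by
  intro I
  induction I with
  | zero => intro s x; exact zero_le_one
  | succ I ih =>
    intro s x
    rw [lost]
    split_ifs
    · exact le_rfl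
    · exact ih _ _

theorem ind_pos : ∀ (I : ℕ) (s : Fin I → Q) (x : X),
    (if V (pos Φ acc base I s x) then (1 : ℝ) else 0) =
      hit Φ acc V I s x + lost Φ acc I s x * (if V (base x) then 1 else 0) := by
  intro I
  induction I with
  | zero => intro s x; rw [pos, hit, lost]; ring
  | succ I ih =>
    intro s x
    rw [pos, hit, lost]
    by_cases h : acc (Φ x (s 0))
    · rw [if_pos h, if_pos h, if_pos h]; ring
    · rw [if_neg h, if_neg h, if_neg h]; exact ih _ _

variable [Fintype Q] [Nonempty Q] {q : ℝ}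

theorem E_lost (hq : ∀ x, E (fun a => if acc (Φ x a) then (1 : ℝ) else 0) = q) (I : ℕ) (x : X) :
    E (fun s : Fin I → Q => lost Φ acc I s x) = (1 - q) ^ I := by
  induction I with
  | zero => simp only [lost, pow_zero]; exact E_const 1
  | succ I ih =>
    rw [E_cons]
    have h1 : ∀ a : Q, E (fun s : Fin I → Q => lost Φ acc (I + 1) (Fin.cons a s) x) =
        (1 - (if acc (Φ x a) then (1 : ℝ) else 0)) * (1 - q) ^ I := by
      intro a
      by_cases h : acc (Φ x a)
      · simp only [lost, Fin.cons_zero, if_pos h]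
        rw [E_const]; ring
      · simp only [lost, Fin.cons_zero, if_neg h, Fin.cons_succ]
        rw [ih]; ring
    simp_rw [h1]
    rw [E_mul_right, E_sub, E_const, hq]; ring

theorem E_hit (hq : ∀ x, E (fun a => if acc (Φ x a) then (1 : ℝ) else 0) = q)
    (hV : ∀ z, V z → acc z) (I : ℕ) (x : X) :
    q * E (fun s : Fin I → Q => hit Φ acc V I s x) =
      E (fun a => if V (Φ x a) then (1 : ℝ) else 0) * (1 - (1 - q) ^ I) := by
  induction I with
  | zero =>
    simp only [hit, pow_zero]
    rw [E_const]; ring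
  | succ I ih =>
    rw [E_cons]
    have h1 : ∀ a : Q, E (fun s : Fin I → Q => hit Φ acc V (I + 1) (Fin.cons a s) x) =
        (if V (Φ x a) then (1 : ℝ) else 0) + (1 - (if acc (Φ x a) then (1 : ℝ) else 0)) *
          E (fun s : Fin I → Q => hit Φ acc V I s x) := by
      intro a
      by_cases h : acc (Φ x a)
      · simp only [hit, Fin.cons_zero, if_pos h]
        rw [E_const]; ring
      · simp only [hit, Fin.cons_zero, if_neg h, Fin.cons_succ]
        rw [if_neg (fun h' => h (hV _ h'))]; ring
    simp_rw [h1]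
    rw [E_add, E_mul_right, E_sub, E_const, hq, mul_add]
    have : q * ((1 - q) * E (fun s : Fin I → Q => hit Φ acc V I s x)) =
        (1 - q) * (q * E (fun s : Fin I → Q => hit Φ acc V I s x)) := by ring
    rw [this, ih, pow_succ]; ring

/-- second moment of the number of particles accepted in `V` -/
theorem E_hit_sq [DecidableEq X] (hq0 : 0 < q) (hq1 : q ≤ 1)
    (hq : ∀ x, E (fun a => if acc (Φ x a) then (1 : ℝ) else 0) = q)
    (hV : ∀ z, V z → acc z) {ρ : ℝ} (hρ0 : 0 ≤ ρ)
    (hinj : ∀ (D : Finset X) (a : Q), ∑ x ∈ D, (if V (Φ x a) then (1 : ℝ) else 0) ≤ 1)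
    (hρ : ∀ D : Finset X, ∑ x ∈ D, E (fun a => if V (Φ x a) then (1 : ℝ) else 0) ≤ ρ)
    (I : ℕ) : ∀ D : Finset X, E (fun s : Fin I → Q => (∑ x ∈ D, hit Φ acc V I s x) ^ 2) ≤
      (1 + 2 * ρ / q) / q * ∑ x ∈ D, E (fun a => if V (Φ x a) then (1 : ℝ) else 0) := by
  induction I with
  | zero =>
    intro D
    simp only [hit, sum_const_zero]
    rw [show ((0 : ℝ) ^ 2) = 0 by norm_num, E_const]
    refine mul_nonneg (by positivity) (sum_nonneg fun x _ => E_nonneg fun a => ?_)
    split_ifs <;> norm_num
  | succ I ih =>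
    intro D
    set π : X → ℝ := fun x => E (fun a => if V (Φ x a) then (1 : ℝ) else 0) with hπ
    have hπ0 : ∀ x, 0 ≤ π x := fun x => E_nonneg fun a => by split_ifs <;> norm_num
    set c : ℝ := (1 + 2 * ρ / q) / q with hc
    have hc0 : 0 ≤ c := by positivity
    rw [E_cons]
    have hfirst : ∀ D' : Finset X, E (fun s : Fin I → Q => ∑ x ∈ D', hit Φ acc V I s x) ≤ ρ / q := by
      intro D'
      rw [E_sum, le_div_iff₀ hq0, mul_comm, mul_sum]
      refine le_trans (sum_le_sum fun x _ => ?_) (hρ D')
      rw [E_hit hq hV]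
      have : (0 : ℝ) ≤ (1 - q) ^ I := pow_nonneg (by linarith) _
      have := hπ0 x
      simp only [hπ] at this
      nlinarith
    have h1 : ∀ a : Q, E (fun s : Fin I → Q => (∑ x ∈ D, hit Φ acc V (I + 1) (Fin.cons a s) x) ^ 2) ≤
        (1 + 2 * ρ / q) * ∑ x ∈ D, (if V (Φ x a) then (1 : ℝ) else 0) +
          c * ∑ x ∈ D, (1 - (if acc (Φ x a) then (1 : ℝ) else 0)) * π x := by
      intro a
      set t : ℝ := ∑ x ∈ D, (if V (Φ x a) then (1 : ℝ) else 0) with ht
      have ht0 : 0 ≤ t := sum_nonneg fun x _ => by split_ifs <;> norm_num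
      have ht1 : t ≤ 1 := hinj D a
      set D' := D.filter (fun x => ¬ acc (Φ x a)) with hD'
      have h2 : ∀ s : Fin I → Q, ∑ x ∈ D, hit Φ acc V (I + 1) (Fin.cons a s) x =
          t + ∑ x ∈ D', hit Φ acc V I s x := by
        intro s
        rw [ht, hD', sum_filter, ← sum_add_distrib]
        refine sum_congr rfl fun x _ => ?_
        by_cases h : acc (Φ x a)
        · simp only [hit, Fin.cons_zero, if_pos h, if_neg (not_not.2 h)]; ring
        · simp only [hit, Fin.cons_zero, if_neg h, Fin.cons_succ, if_pos h]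
          rw [if_neg (fun h' => h (hV _ h'))]; simp
      simp_rw [h2]
      have h3 : ∀ s : Fin I → Q, (t + ∑ x ∈ D', hit Φ acc V I s x) ^ 2 ≤
          t + (2 * t) * (∑ x ∈ D', hit Φ acc V I s x) + (∑ x ∈ D', hit Φ acc V I s x) ^ 2 := by
        intro s
        nlinarith
      refine (E_mono h3).trans ?_
      rw [E_add, E_add, E_const, E_mul_left]
      have h4 := hfirst D'
      have h5 := ih D'
      have h6 : ∑ x ∈ D', π x = ∑ x ∈ D, (1 - (if acc (Φ x a) then (1 : ℝ) else 0)) * π x := by
        rw [hD', sum_filter]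
        refine sum_congr rfl fun x _ => ?_
        by_cases h : acc (Φ x a)
        · rw [if_neg (not_not.2 h), if_pos h]; ring
        · rw [if_pos h, if_neg h]; ring
      rw [h6] at h5
      have h7 : (2 * t) * E (fun s : Fin I → Q => ∑ x ∈ D', hit Φ acc V I s x) ≤ 2 * t * (ρ / q) :=
        mul_le_mul_of_nonneg_left h4 (by linarith)
      have h8 : (1 + 2 * ρ / q) * t = t + 2 * t * (ρ / q) := by ring
      rw [h8]
      linarith
    refine (E_mono h1).trans ?_
    rw [E_add, E_mul_left, E_mul_left, E_sum, E_sum]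
    have h2 : ∀ x ∈ D, E (fun a => (1 - (if acc (Φ x a) then (1 : ℝ) else 0)) * π x) =
        (1 - q) * π x := by
      intro x _
      rw [E_mul_right, E_sub, E_const, hq]
    rw [sum_congr rfl h2, ← mul_sum]
    have h3 : (1 + 2 * ρ / q) = c * q := by rw [hc]; field_simp
    rw [h3]
    have : c * q * ∑ x ∈ D, π x + c * ((1 - q) * ∑ x ∈ D, π x) = c * ∑ x ∈ D, π x := by ring
    exact this.le

/-- mean displacement -/
theorem E_disp {d : Z → Z → ℝ} (hdd : ∀ z, d z z = 0)
    (hq0 : 0 < q)
    (hq : ∀ x, E (fun a => if acc (Φ x a) then (1 : ℝ) else 0) = q) (x : X) {e : ℝ} (he0 : 0 ≤ e)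
    (hq1 : q ≤ 1)
    (he : E (fun a => (if acc (Φ x a) then (1 : ℝ) else 0) * d (base x) (Φ x a)) ≤ e) (I : ℕ) :
    E (fun s : Fin I → Q => d (base x) (pos Φ acc base I s x)) ≤ e / q := by
  induction I with
  | zero =>
    simp only [pos, hdd]
    rw [E_const]; positivity
  | succ I ih =>
    rw [E_cons]
    have h1 : ∀ a : Q, E (fun s : Fin I → Q => d (base x) (pos Φ acc base (I + 1) (Fin.cons a s) x)) ≤
        (if acc (Φ x a) then (1 : ℝ) else 0) * d (base x) (Φ x a) +
          (1 - (if acc (Φ x a) then (1 : ℝ) else 0)) * (e / q) := by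
      intro a
      by_cases h : acc (Φ x a)
      · simp only [pos, Fin.cons_zero, if_pos h]
        rw [E_const]; simp
      · simp only [pos, Fin.cons_zero, if_neg h, Fin.cons_succ]
        simp only [zero_mul, sub_zero, one_mul, zero_add]
        exact ih
    refine (E_mono h1).trans ?_
    rw [E_add, E_mul_right, E_sub, E_const, hq]
    have : e + (1 - q) * (e / q) = e / q := by field_simp; ring
    linarith

/-- mean stretch of an edge -/
theorem E_stretch {d : Z → Z → ℝ} (hd0 : ∀ z w, 0 ≤ d z w) (hdd : ∀ z, d z z = 0)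
    (hds : ∀ z w, d z w = d w z) (hdt : ∀ x y z, d x z ≤ d x y + d y z)
    (hq0 : 0 < q) (hq1 : q ≤ 1)
    (hq : ∀ x, E (fun a => if acc (Φ x a) then (1 : ℝ) else 0) = q) {x y : X}
    (hxy : d (base x) (base y) ≤ 1) (hlip : ∀ a, d (Φ x a) (Φ y a) ≤ 3)
    {e e' G κ : ℝ} (he0 : 0 ≤ e) (he0' : 0 ≤ e') (hG : 0 ≤ G)
    (he : E (fun a => (if acc (Φ x a) then (1 : ℝ) else 0) * d (base x) (Φ x a)) ≤ e)
    (he' : E (fun a => (if acc (Φ y a) then (1 : ℝ) else 0) * d (base y) (Φ y a)) ≤ e')
    (hGx : ∀ a, acc (Φ x a) → ¬ acc (Φ y a) → d (base x) (Φ x a) ≤ G)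
    (hGy : ∀ a, acc (Φ y a) → ¬ acc (Φ x a) → d (base y) (Φ y a) ≤ G)
    (hκ : E (fun a => if (acc (Φ x a) ↔ acc (Φ y a)) then (0 : ℝ) else 1) ≤ κ) (I : ℕ) :
    E (fun s : Fin I → Q => d (pos Φ acc base I s x) (pos Φ acc base I s y)) ≤
      3 + κ * (G + 1 + (e + e') / q) / q := by
  set W : ℝ := G + 1 + (e + e') / q with hW
  have hW0 : 0 ≤ W := by positivity
  have hκ0 : 0 ≤ κ := le_trans (E_nonneg fun a => by split_ifs <;> norm_num) hκ
  induction I with
  | zero =>
    simp only [pos]
    rw [E_const]
    have : 0 ≤ κ * W / q := by positivity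
    linarith
  | succ I ih =>
    rw [E_cons]
    set R : ℝ := 3 + κ * W / q with hR
    have hR0 : 0 ≤ R := by positivity
    have hdx := fun J => E_disp (base := base) hdd hq0 hq x he0 hq1 he J
    have hdy := fun J => E_disp (base := base) hdd hq0 hq y he0' hq1 he' J
    have h1 : ∀ a : Q, E (fun s : Fin I → Q => d (pos Φ acc base (I + 1) (Fin.cons a s) x)
        (pos Φ acc base (I + 1) (Fin.cons a s) y)) ≤
        3 * (if acc (Φ x a) then (1 : ℝ) else 0) + (1 - (if acc (Φ x a) then (1 : ℝ) else 0)) * R +
          W * (if (acc (Φ x a) ↔ acc (Φ y a)) then (0 : ℝ) else 1) := by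
      intro a
      by_cases hx : acc (Φ x a)
      · by_cases hy : acc (Φ y a)
        · simp only [pos, Fin.cons_zero, if_pos hx, if_pos hy]
          rw [E_const, if_pos (by tauto)]
          have := hlip a
          linarith
        · simp only [pos, Fin.cons_zero, if_pos hx, if_neg hy, Fin.cons_succ]
          rw [if_neg (by tauto)]
          have h2 : ∀ s : Fin I → Q, d (Φ x a) (pos Φ acc base I s y) ≤
              (G + 1) + d (base y) (pos Φ acc base I s y) := by
            intro s
            have t1 := hdt (Φ x a) (base x) (pos Φ acc base I s y)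
            have t2 := hdt (base x) (base y) (pos Φ acc base I s y)
            have t3 := hGx a hx hy
            rw [hds (base x)] at t3
            linarith
          refine (E_mono h2).trans ?_
          rw [E_add, E_const]
          have t4 := hdy I
          have t5 : (e + e') / q = e / q + e' / q := by ring
          have t6 : 0 ≤ e / q := by positivity
          rw [hW, t5]
          linarith
      · by_cases hy : acc (Φ y a)
        · simp only [pos, Fin.cons_zero, if_neg hx, if_pos hy, Fin.cons_succ]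
          rw [if_neg (by tauto)]
          have h2 : ∀ s : Fin I → Q, d (pos Φ acc base I s x) (Φ y a) ≤
              (G + 1) + d (base x) (pos Φ acc base I s x) := by
            intro s
            have t1 := hdt (pos Φ acc base I s x) (base x) (Φ y a)
            have t2 := hdt (base x) (base y) (Φ y a)
            have t3 := hGy a hy hx
            rw [hds (pos Φ acc base I s x) (base x)] at t1
            linarith
          refine (E_mono h2).trans ?_
          rw [E_add, E_const]
          have t4 := hdx I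
          have t5 : (e + e') / q = e / q + e' / q := by ring
          have t6 : 0 ≤ e' / q := by positivity
          rw [hW, t5]
          linarith
        · simp only [pos, Fin.cons_zero, if_neg hx, if_neg hy, Fin.cons_succ]
          rw [if_pos (by tauto)]
          linarith
    refine (E_mono h1).trans ?_
    rw [E_add, E_add, E_mul_left, E_mul_right, E_mul_left, E_sub, E_const, hq]
    have h2 : W * E (fun a => if (acc (Φ x a) ↔ acc (Φ y a)) then (0 : ℝ) else 1) ≤ W * κ :=
      mul_le_mul_of_nonneg_left hκ hW0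
    have h3 : 3 * q + (1 - q) * R + W * κ = R := by
      rw [hR]; field_simp; ring
    linarith

end Thms

end Pool.Agent.W167.Stretch
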