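import Pool.Agent.W167.Stretch.Cube
import Pool.Agent.W167.Stretch.Process

/-!
The concrete acceptance-rejection process on the cube.
-/

set_option autoImplicit false

namespace Pool.Agent.W167.Stretch

open Finset

variable {N L : ℕ}

/-- the move of a particle -/
def Phi (x : Fin N → Bool) (a : ZZ N L) : ZZ N L := (ff a.1 x, a.2)

/-- the accepting places: the ball of radius `k` -/
def acc (k : ℕ) (z : ZZ N L) : Prop := lev z ≤ (k : ℤ)

instance (k : ℕ) : DecidablePred (acc (N := N) (L := L) k) := fun z => by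
  unfold acc; infer_instance

/-- base point -/
def bas (x : Fin N → Bool) : ZZ N L := (x, fun _ => false)

/-- the distance -/
def dZ (z w : ZZ N L) : ℝ := (hammingDist z.1 w.1 : ℝ) + hammingDist z.2 w.2

/-- the ball -/
def Ball (N L k : ℕ) : Finset (ZZ N L) := univ.filter (fun z => acc k z)

noncomputable def qq (N L k : ℕ) : ℝ := (Ball N L k).card / (2 : ℝ) ^ (N + L)

theorem dZ_nonneg (z w : ZZ N L) : 0 ≤ dZ z w := by unfold dZ; positivity

theorem dZ_self (z : ZZ N L) : dZ z z = 0 := by unfold dZ; simp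

theorem dZ_comm (z w : ZZ N L) : dZ z w = dZ w z := by
  unfold dZ; rw [hammingDist_comm, hammingDist_comm z.2]

theorem dZ_triangle (x y z : ZZ N L) : dZ x z ≤ dZ x y + dZ y z := by
  unfold dZ
  have h1 := hammingDist_triangle x.1 y.1 z.1
  have h2 := hammingDist_triangle x.2 y.2 z.2
  have h1' : (hammingDist x.1 z.1 : ℝ) ≤ hammingDist x.1 y.1 + hammingDist y.1 z.1 := by
    exact_mod_cast h1
  have h2' : (hammingDist x.2 z.2 : ℝ) ≤ hammingDist x.2 y.2 + hammingDist y.2 z.2 := by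
    exact_mod_cast h2
  linarith

theorem dZ_le (z w : ZZ N L) : dZ z w ≤ N + L := by
  unfold dZ
  have h1 := hammingDist_le_card_fintype (x := z.1) (y := w.1)
  have h2 := hammingDist_le_card_fintype (x := z.2) (y := w.2)
  rw [Fintype.card_fin] at h1 h2
  have h1' : (hammingDist z.1 w.1 : ℝ) ≤ N := by exact_mod_cast h1
  have h2' : (hammingDist z.2 w.2 : ℝ) ≤ L := by exact_mod_cast h2
  linarith

theorem mem_Ball {k : ℕ} {z : ZZ N L} : z ∈ Ball N L k ↔ lev z ≤ (k : ℤ) := by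
  unfold Ball
  simp only [mem_filter, mem_univ, true_and]
  rfl

theorem card_Ball (N L k : ℕ) : (Ball N L k).card = ∑ j ∈ range (k + 1), (N + L).choose j :=
  card_ball N L k

theorem card_ZZ (N L : ℕ) : (Fintype.card (ZZ N L) : ℝ) = 2 ^ (N + L) := by
  rw [Fintype.card_prod, Fintype.card_fun, Fintype.card_fun, Fintype.card_bool, Fintype.card_fin,
    Fintype.card_fin]
  push_cast
  rw [pow_add]

theorem lev_Phi (x : Fin N → Bool) (a : ZZ N L) : lev (Phi x a) = wz (xr x a.1) + wz a.2 := by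
  unfold lev Phi; rw [wz_ff]

theorem xr_xr (x J : Fin N → Bool) : xr x (xr x J) = J := by
  funext i; unfold xr; cases x i <;> cases J i <;> rfl

/-- the shift as an equivalence -/
def shiftZ (x : Fin N → Bool) : ZZ N L ≃ ZZ N L where
  toFun a := (xr x a.1, a.2)
  invFun a := (xr x a.1, a.2)
  left_inv a := by simp [xr_xr]
  right_inv a := by simp [xr_xr]

theorem E_shift (x : Fin N → Bool) (g : ZZ N L → ℝ) : E (fun a : ZZ N L => g (xr x a.1, a.2)) = E g :=
  (E_equiv (shiftZ x) g).symm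

theorem E_acc (k : ℕ) (x : Fin N → Bool) :
    E (fun a : ZZ N L => if acc k (Phi x a) then (1 : ℝ) else 0) = qq N L k := by
  have h1 : ∀ a : ZZ N L, (if acc k (Phi x a) then (1 : ℝ) else 0) =
      (fun z : ZZ N L => if acc k z then (1 : ℝ) else 0) (xr x a.1, a.2) := by
    intro a
    have h2 : acc k (Phi x a) ↔ acc k (xr x a.1, a.2) := by
      unfold acc
      rw [lev_Phi]
      rfl
    simp only [h2]
  rw [E_congr h1, E_shift x (fun z : ZZ N L => if acc k z then (1 : ℝ) else 0)]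
  unfold E qq
  rw [card_ZZ, ← sum_filter, sum_const, nsmul_eq_mul, mul_one]
  rfl

theorem qq_le_one (N L k : ℕ) : qq N L k ≤ 1 := by
  unfold qq
  rw [div_le_one (by positivity), ← card_ZZ]
  exact_mod_cast Finset.card_le_univ _

theorem hammingDist_false (c : Fin L → Bool) : (hammingDist (fun _ => false) c : ℤ) = wz c := by
  rw [wz, hammingDist, Finset.card_filter]
  push_cast
  refine sum_congr rfl fun i _ => ?_
  cases c i <;> simp

theorem dZ_bas_Phi (x : Fin N → Bool) (a : ZZ N L) :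
    dZ (bas x) (Phi x a) = |(wz (xr x a.1) : ℝ) - wz x| + wz a.2 := by
  unfold dZ bas Phi
  have h1 := dist_ff a.1 x
  have h2 := hammingDist_false a.2
  have h1' : (hammingDist x (ff a.1 x) : ℝ) = |(wz (xr x a.1) : ℝ) - wz x| := by
    have : ((hammingDist x (ff a.1 x) : ℤ) : ℝ) = ((|wz (xr x a.1) - wz x| : ℤ) : ℝ) := by rw [h1]
    push_cast at this
    exact this
  have h2' : (hammingDist (fun _ => false) a.2 : ℝ) = wz a.2 := by
    have : ((hammingDist (fun _ => false) a.2 : ℤ) : ℝ) = ((wz a.2 : ℤ) : ℝ) := by rw [h2]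
    push_cast at this
    exact this
  rw [h1', h2']

theorem wzr_le (c : Fin L → Bool) : (wz c : ℝ) ≤ L := by exact_mod_cast wz_le c

theorem wzr_nonneg (c : Fin L → Bool) : (0 : ℝ) ≤ wz c := by exact_mod_cast wz_nonneg c

/-- deviation of the weight -/
noncomputable def dev (x : Fin N → Bool) : ℝ := |(wz x : ℝ) - N / 2|

theorem E_disp_bound (k : ℕ) (x : Fin N → Bool) :
    E (fun a : ZZ N L => (if acc k (Phi x a) then (1 : ℝ) else 0) * dZ (bas x) (Phi x a)) ≤
      Real.sqrt N + dev x + L := by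
  have h1 : ∀ a : ZZ N L, (if acc k (Phi x a) then (1 : ℝ) else 0) * dZ (bas x) (Phi x a) ≤
      (fun z : ZZ N L => |(wz z.1 : ℝ) - N / 2|) (xr x a.1, a.2) + (dev x + L) := by
    intro a
    have h2 : (if acc k (Phi x a) then (1 : ℝ) else 0) * dZ (bas x) (Phi x a) ≤
        dZ (bas x) (Phi x a) := by
      have := dZ_nonneg (bas x) (Phi x a)
      split_ifs <;> linarith
    refine h2.trans ?_
    rw [dZ_bas_Phi]
    have h3 := wzr_le a.2
    have h4 := abs_sub_le (wz (xr x a.1) : ℝ) (N / 2 : ℝ) (wz x : ℝ)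
    have h5 : |(N / 2 : ℝ) - wz x| = dev x := by unfold dev; rw [abs_sub_comm]
    simp only
    linarith
  refine (E_mono h1).trans ?_
  rw [E_add, E_shift x (fun z : ZZ N L => |(wz z.1 : ℝ) - N / 2|), E_const, E_prod]
  have h2 : E (fun y : Fin N → Bool => E (fun _c : Fin L → Bool => |(wz y : ℝ) - N / 2|)) ≤
      Real.sqrt N := by
    simp_rw [E_const]
    exact E_wz N
  linarith

theorem E_lev (h : N + L ≠ 0) (j : ℕ) : E (fun z : ZZ N L => if lev z = (j : ℤ) then (1 : ℝ) else 0) ≤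
    1 / Real.sqrt (N + L : ℕ) := by
  unfold E
  rw [← sum_filter, sum_const, nsmul_eq_mul, mul_one, card_lev, card_ZZ]
  have h1 : 0 < Real.sqrt (N + L : ℕ) := Real.sqrt_pos.2 (by exact_mod_cast Nat.pos_of_ne_zero h)
  rw [div_le_div_iff₀ (by positivity) h1, one_mul]
  exact choose_le (N + L) j

theorem wz_adj {x y : Fin N → Bool} {i : Fin N} (hxy : ∀ j, j ≠ i → x j = y j) :
    |wz x - wz y| ≤ 1 := by
  rw [wz, wz, ← sum_sub_distrib, sum_eq_single i]
  · cases x i <;> cases y i <;> simp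
  · intro j _ hj
    rw [hxy j hj, sub_self]
  · intro h; exact absurd (mem_univ _) h

theorem xr_adj {x y : Fin N → Bool} {i : Fin N} (hxy : ∀ j, j ≠ i → x j = y j) (J : Fin N → Bool) :
    ∀ j, j ≠ i → xr x J j = xr y J j := by
  intro j hj
  unfold xr
  rw [hxy j hj]

theorem dZ_bas_adj {x y : Fin N → Bool} {i : Fin N} (hxy : ∀ j, j ≠ i → x j = y j) :
    dZ (bas x : ZZ N L) (bas y) ≤ 1 := by
  unfold dZ bas
  rw [hammingDist_self]
  have h3 : hammingDist x y ≤ 1 := by
    rw [hammingDist, Finset.card_le_one]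
    intro a ha b hb
    simp only [Finset.mem_filter, Finset.mem_univ, true_and] at ha hb
    have ha' : a = i := by by_contra h; exact ha (hxy a h)
    have hb' : b = i := by by_contra h; exact hb (hxy b h)
    rw [ha', hb']
  have : (hammingDist x y : ℝ) ≤ 1 := by exact_mod_cast h3
  simpa using this

theorem lip_Phi {x y : Fin N → Bool} {i : Fin N} (hxy : ∀ j, j ≠ i → x j = y j) (a : ZZ N L) :
    dZ (Phi x a) (Phi y a) ≤ 3 := by
  unfold dZ Phi
  rw [hammingDist_self]
  have := lip_ff (J := a.1) hxy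
  have : (hammingDist (ff a.1 x) (ff a.1 y) : ℝ) ≤ 3 := by exact_mod_cast this
  simpa using this

theorem G_bound {k : ℕ} {x y : Fin N → Bool} {i : Fin N} (hxy : ∀ j, j ≠ i → x j = y j)
    (a : ZZ N L) (h1 : acc k (Phi x a)) (h2 : ¬ acc k (Phi y a)) :
    dZ (bas x) (Phi x a) ≤ |(k : ℝ) - N / 2| + dev x + 2 * L := by
  unfold acc at h1 h2
  rw [lev_Phi] at h1 h2
  have h3 := wz_adj (xr_adj hxy a.1)
  rw [abs_le] at h3
  have h4 : wz (xr x a.1) + wz a.2 = k := by omega
  have h5 : (wz (xr x a.1) : ℝ) = k - wz a.2 := by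
    have : ((wz (xr x a.1) + wz a.2 : ℤ) : ℝ) = ((k : ℤ) : ℝ) := by rw [h4]
    push_cast at this
    linarith
  rw [dZ_bas_Phi, h5]
  have h6 := wzr_le a.2
  have h7 := wzr_nonneg a.2
  have h8 : |(k : ℝ) - wz a.2 - wz x| ≤ |(k : ℝ) - N / 2| + |(N / 2 : ℝ) - wz x| + |(wz a.2 : ℝ)| := by
    have e : (k : ℝ) - wz a.2 - wz x = ((k : ℝ) - N / 2) + ((N / 2 : ℝ) - wz x) + (-(wz a.2 : ℝ)) := by
      ring
    rw [e, ← abs_neg (wz a.2 : ℝ)]
    exact (abs_add_le _ _).trans (add_le_add (abs_add_le _ _) le_rfl)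
  have h9 : |(N / 2 : ℝ) - wz x| = dev x := by unfold dev; rw [abs_sub_comm]
  rw [abs_of_nonneg h7] at h8
  linarith

theorem dev_adj {x y : Fin N → Bool} {i : Fin N} (hxy : ∀ j, j ≠ i → x j = y j) :
    dev y ≤ dev x + 1 := by
  have h1 := wz_adj hxy
  have h2 : |(wz x : ℝ) - wz y| ≤ 1 := by
    have : ((|wz x - wz y| : ℤ) : ℝ) ≤ ((1 : ℤ) : ℝ) := by exact_mod_cast h1
    push_cast at this
    exact this
  unfold dev
  have h3 := abs_sub_le (wz y : ℝ) (wz x : ℝ) (N / 2 : ℝ)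
  rw [abs_sub_comm (wz y : ℝ) (wz x : ℝ)] at h3
  linarith

theorem κ_bound {k : ℕ} {x y : Fin N → Bool} {i : Fin N} (hxy : ∀ j, j ≠ i → x j = y j) :
    E (fun a : ZZ N L => if (acc k (Phi x a) ↔ acc k (Phi y a)) then (0 : ℝ) else 1) ≤
      2 / Real.sqrt (N + L : ℕ) := by
  have h1 : ∀ a : ZZ N L, (if (acc k (Phi x a) ↔ acc k (Phi y a)) then (0 : ℝ) else 1) ≤
      (fun z : ZZ N L => (if lev z = (k : ℤ) then (1 : ℝ) else 0) +
        (if lev z = ((k + 1 : ℕ) : ℤ) then (1 : ℝ) else 0)) (xr x a.1, a.2) := by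
    intro a
    have h3 := wz_adj (xr_adj hxy a.1)
    rw [abs_le] at h3
    by_cases h : (acc k (Phi x a) ↔ acc k (Phi y a))
    · rw [if_pos h]
      simp only
      split_ifs <;> norm_num
    · rw [if_neg h]
      unfold acc at h
      rw [lev_Phi, lev_Phi] at h
      have h4 : lev ((xr x a.1, a.2) : ZZ N L) = (k : ℤ) ∨
          lev ((xr x a.1, a.2) : ZZ N L) = ((k + 1 : ℕ) : ℤ) := by
        unfold lev
        simp only
        push_cast
        omega
      simp only
      rcases h4 with h4 | h4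
      · rw [if_pos h4]; split_ifs <;> norm_num
      · rw [if_pos h4]; split_ifs <;> norm_num
  refine (E_mono h1).trans ?_
  rw [E_shift x (fun z : ZZ N L => (if lev z = (k : ℤ) then (1 : ℝ) else 0) +
        (if lev z = ((k + 1 : ℕ) : ℤ) then (1 : ℝ) else 0)), E_add]
  have hN : N + L ≠ 0 := by have := i.2; omega
  have h2 := E_lev hN k
  have h3 := E_lev hN (k + 1)
  have : 2 / Real.sqrt (N + L : ℕ) = 1 / Real.sqrt (N + L : ℕ) + 1 / Real.sqrt (N + L : ℕ) := by ring
  rw [this]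
  exact add_le_add h2 h3

instance : Nonempty (ZZ N L) := ⟨(fun _ => false, fun _ => false)⟩

/-- mean stretch along an edge in the first coordinates -/
theorem stretch_adj {k : ℕ} (hq0 : 0 < qq N L k) {x y : Fin N → Bool} {i : Fin N}
    (hxy : ∀ j, j ≠ i → x j = y j) (I : ℕ) :
    E (fun s : Fin I → ZZ N L => dZ (pos Phi (acc k) bas I s x) (pos Phi (acc k) bas I s y)) ≤
      3 + 2 / Real.sqrt (N + L : ℕ) *
        (|(k : ℝ) - N / 2| + 3 * dev x + 2 * Real.sqrt N + 4 * L + 3) / (qq N L k) ^ 2 := by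
  set q := qq N L k with hq
  have hq1 : q ≤ 1 := qq_le_one N L k
  have hd := dev_adj hxy
  have hdx : 0 ≤ dev x := abs_nonneg _
  have hdy : 0 ≤ dev y := abs_nonneg _
  have hN : 0 ≤ Real.sqrt N := Real.sqrt_nonneg _
  have hL : (0 : ℝ) ≤ L := Nat.cast_nonneg _
  have hyx : ∀ j, j ≠ i → y j = x j := fun j hj => (hxy j hj).symm
  have h1 := E_stretch (Φ := Phi) (acc := acc k) (base := bas) (d := dZ (N := N) (L := L))
    dZ_nonneg dZ_self dZ_comm dZ_triangle hq0 hq1 (E_acc k) (x := x) (y := y)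
    (dZ_bas_adj hxy) (lip_Phi hxy) (e := Real.sqrt N + dev x + L) (e' := Real.sqrt N + dev y + L)
    (G := |(k : ℝ) - N / 2| + dev x + 1 + 2 * L) (κ := 2 / Real.sqrt (N + L : ℕ))
    (by positivity) (by positivity) (by positivity) (E_disp_bound k x) (E_disp_bound k y)
    (fun a ha hb => (G_bound hxy a ha hb).trans (by linarith))
    (fun a ha hb => (G_bound hyx a ha hb).trans (by linarith)) (κ_bound hxy) I
  refine h1.trans ?_
  have h2 : |(k : ℝ) - N / 2| + dev x + 1 + 2 * L + 1 +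
      (Real.sqrt N + dev x + L + (Real.sqrt N + dev y + L)) / q ≤
      (|(k : ℝ) - N / 2| + 3 * dev x + 2 * Real.sqrt N + 4 * L + 3) / q := by
    rw [le_div_iff₀ hq0, add_mul, div_mul_cancel₀ _ hq0.ne']
    have h3 : (|(k : ℝ) - N / 2| + dev x + 1 + 2 * L + 1) * q ≤
        |(k : ℝ) - N / 2| + dev x + 1 + 2 * L + 1 :=
      mul_le_of_le_one_right (by positivity) hq1
    linarith
  have h3 : 2 / Real.sqrt (N + L : ℕ) * (|(k : ℝ) - N / 2| + dev x + 1 + 2 * L + 1 +
      (Real.sqrt N + dev x + L + (Real.sqrt N + dev y + L)) / q) / q ≤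
      2 / Real.sqrt (N + L : ℕ) * ((|(k : ℝ) - N / 2| + 3 * dev x + 2 * Real.sqrt N + 4 * L + 3) / q) / q :=
    div_le_div_of_nonneg_right (mul_le_mul_of_nonneg_left h2 (by positivity)) hq0.le
  have h4 : 2 / Real.sqrt (N + L : ℕ) * ((|(k : ℝ) - N / 2| + 3 * dev x + 2 * Real.sqrt N + 4 * L + 3) / q) / q
      = 2 / Real.sqrt (N + L : ℕ) * (|(k : ℝ) - N / 2| + 3 * dev x + 2 * Real.sqrt N + 4 * L + 3) / q ^ 2 := by
    field_simp
  linarith

/-- mean displacement -/
theorem disp_bound {k : ℕ} (hq0 : 0 < qq N L k) (x : Fin N → Bool) (I : ℕ) :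
    E (fun s : Fin I → ZZ N L => dZ (bas x) (pos Phi (acc k) bas I s x)) ≤
      (Real.sqrt N + dev x + L) / qq N L k :=
  E_disp dZ_self hq0 (E_acc k) x (by have : 0 ≤ dev x := abs_nonneg _; positivity)
    (qq_le_one N L k) (E_disp_bound k x) I

end Pool.Agent.W167.Stretch
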