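import Mathlib

/-!
Averages over finite types.
-/

set_option autoImplicit false

namespace Pool.Agent.W167.Stretch

open Finset

/-- the average of a real function on a finite type -/
noncomputable def E {S : Type*} [Fintype S] (f : S → ℝ) : ℝ := (∑ s, f s) / Fintype.card S

section

variable {S T : Type*} [Fintype S] [Fintype T]

theorem E_add (f g : S → ℝ) : E (fun s => f s + g s) = E f + E g := by
  unfold E; rw [sum_add_distrib, add_div]

theorem E_sub (f g : S → ℝ) : E (fun s => f s - g s) = E f - E g := by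
  unfold E; rw [sum_sub_distrib, sub_div]

theorem E_mul_left (c : ℝ) (f : S → ℝ) : E (fun s => c * f s) = c * E f := by
  unfold E; rw [← mul_sum, mul_div_assoc]

theorem E_mul_right (c : ℝ) (f : S → ℝ) : E (fun s => f s * c) = E f * c := by
  unfold E; rw [← sum_mul]; ring

theorem E_sum {ι : Type*} (t : Finset ι) (f : ι → S → ℝ) :
    E (fun s => ∑ i ∈ t, f i s) = ∑ i ∈ t, E (f i) := by
  unfold E; rw [sum_comm, sum_div]

theorem E_const [Nonempty S] (c : ℝ) : E (fun _ : S => c) = c := by
  unfold E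
  rw [sum_const, card_univ, nsmul_eq_mul, mul_comm, mul_div_assoc, div_self, mul_one]
  exact_mod_cast Fintype.card_ne_zero

theorem E_mono {f g : S → ℝ} (h : ∀ s, f s ≤ g s) : E f ≤ E g := by
  unfold E
  exact div_le_div_of_nonneg_right (sum_le_sum fun s _ => h s) (Nat.cast_nonneg _)

theorem E_nonneg {f : S → ℝ} (h : ∀ s, 0 ≤ f s) : 0 ≤ E f :=
  div_nonneg (sum_nonneg fun s _ => h s) (Nat.cast_nonneg _)

theorem E_congr {f g : S → ℝ} (h : ∀ s, f s = g s) : E f = E g := by
  rw [funext h]

theorem exists_le_E [Nonempty S] (f : S → ℝ) : ∃ s, f s ≤ E f := by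
  by_contra hcon
  push Not at hcon
  have h1 : ∑ s : S, E f < ∑ s, f s := sum_lt_sum_of_nonempty univ_nonempty fun s _ => hcon s
  rw [sum_const, card_univ, nsmul_eq_mul] at h1
  have h2 : (Fintype.card S : ℝ) * E f = ∑ s, f s := by
    unfold E
    rw [mul_comm, div_mul_cancel₀]
    exact_mod_cast Fintype.card_ne_zero
  linarith

theorem E_comm (f : S → T → ℝ) : E (fun s => E (fun t => f s t)) = E (fun t => E (fun s => f s t)) := by
  unfold E
  simp_rw [← sum_div]
  rw [sum_comm, div_div, div_div, mul_comm]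

theorem E_prod (f : S × T → ℝ) : E f = E (fun s => E (fun t => f (s, t))) := by
  unfold E
  simp_rw [← sum_div]
  rw [Fintype.sum_prod_type, div_div, Fintype.card_prod]
  push_cast
  rw [mul_comm]

theorem E_equiv (e : S ≃ T) (f : T → ℝ) : E f = E (fun s => f (e s)) := by
  unfold E
  rw [Equiv.sum_comp e f, Fintype.card_congr e]

theorem E_abs_le (f : S → ℝ) : E (fun s => |f s|) ≤ Real.sqrt (E (fun s => f s ^ 2)) := by
  apply Real.le_sqrt_of_sq_le
  unfold E
  have h1 := sq_sum_le_card_mul_sum_sq (s := (univ : Finset S)) (f := fun s => |f s|)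
  simp only [sq_abs, card_univ] at h1
  rw [div_pow]
  by_cases h : (Fintype.card S : ℝ) = 0
  · rw [h]; simp
  · have h0 : (0 : ℝ) < Fintype.card S := lt_of_le_of_ne (Nat.cast_nonneg _) (Ne.symm h)
    rw [div_le_div_iff₀ (by positivity) h0]
    nlinarith

theorem E_cons {Q : Type*} [Fintype Q] {I : ℕ} (F : (Fin (I + 1) → Q) → ℝ) :
    E F = E (fun a => E (fun s : Fin I → Q => F (Fin.cons a s))) := by
  rw [E_equiv (Fin.consEquiv (fun _ => Q)) F, E_prod]
  rfl

theorem E_eval {U : Type*} [Fintype U] [DecidableEq U] [Nonempty S] (u : U) (g : S → ℝ) :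
    E (fun s : U → S => g (s u)) = E g := by
  rw [E_equiv (Equiv.funSplitAt u S).symm, E_prod]
  have h1 : ∀ (a : S) (r : {j // j ≠ u} → S), (Equiv.funSplitAt u S).symm (a, r) u = a := by
    intro a r
    simp [Equiv.funSplitAt]
  simp_rw [h1]
  simp_rw [E_const]

theorem E_indep {U : Type*} [Fintype U] [DecidableEq U] [Nonempty S] {u v : U} (huv : v ≠ u)
    (g h : S → ℝ) : E (fun s : U → S => g (s u) * h (s v)) = E g * E h := by
  rw [E_equiv (Equiv.funSplitAt u S).symm, E_prod]
  have h1 : ∀ (a : S) (r : {j // j ≠ u} → S), (Equiv.funSplitAt u S).symm (a, r) u = a := by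
    intro a r
    simp [Equiv.funSplitAt]
  have h2 : ∀ (a : S) (r : {j // j ≠ u} → S),
      (Equiv.funSplitAt u S).symm (a, r) v = r ⟨v, huv⟩ := by
    intro a r
    simp [Equiv.funSplitAt, huv]
  simp_rw [h1, h2]
  simp_rw [E_mul_left]
  rw [E_mul_right]
  congr 1
  exact E_eval (U := {j // j ≠ u}) ⟨v, huv⟩ h

theorem E_sq_sum {U : Type*} [Fintype U] [DecidableEq U] [Nonempty S] (f : U → S → ℝ)
    (hf : ∀ u, E (f u) = 0) :
    E (fun s : U → S => (∑ u, f u (s u)) ^ 2) = ∑ u, E (fun a => f u a ^ 2) := by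
  have h1 : ∀ s : U → S, (∑ u, f u (s u)) ^ 2 = ∑ u, ∑ v, f u (s u) * f v (s v) := by
    intro s
    rw [sq, sum_mul_sum]
  simp_rw [h1]
  rw [E_sum]
  refine sum_congr rfl fun u _ => ?_
  rw [E_sum, sum_eq_single u]
  · have := E_eval (U := U) u (fun a => f u a ^ 2)
    simp_rw [← this, sq]
  · intro v _ hv
    rw [E_indep hv, hf, zero_mul]
  · intro h; exact absurd (mem_univ _) h

/-- mean absolute deviation of a sum of independent variables -/
theorem E_abs_sum_le {U : Type*} [Fintype U] [DecidableEq U] [Nonempty S] (f : U → S → ℝ)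
    {m v : ℝ} (hm : ∀ u, E (f u) = m) (hv : ∀ u, E (fun a => f u a ^ 2) ≤ v) :
    E (fun s : U → S => |∑ u, f u (s u) - Fintype.card U * m|) ≤
      Real.sqrt (Fintype.card U * v) := by
  have h1 : ∀ s : U → S, ∑ u, f u (s u) - Fintype.card U * m = ∑ u, (f u (s u) - m) := by
    intro s
    rw [sum_sub_distrib, sum_const, card_univ, nsmul_eq_mul]
  simp_rw [h1]
  refine (E_abs_le _).trans (Real.sqrt_le_sqrt ?_)
  rw [E_sq_sum (fun u a => f u a - m)]
  · calc ∑ u, E (fun a => (f u a - m) ^ 2) ≤ ∑ _u : U, v := by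
          refine sum_le_sum fun u _ => ?_
          have h2 : ∀ a, (f u a - m) ^ 2 = f u a ^ 2 - (2 * m) * f u a + m ^ 2 := fun a => by ring
          simp_rw [h2]
          rw [E_add, E_sub, E_mul_left, E_const, hm]
          have := hv u
          nlinarith [sq_nonneg m]
      _ = _ := by rw [sum_const, card_univ, nsmul_eq_mul]
  · intro u
    rw [E_sub, E_const, hm, sub_self]

end

end Pool.Agent.W167.Stretch
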