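import Pool.Agent.W167.Stretch.Lip
import Pool.Agent.W167.Stretch.Expect

/-!
Weights, levels and sizes of levels in a product of two cubes.
-/

set_option autoImplicit false

namespace Pool.Agent.W167.Stretch

open Finset

/-- Boolean functions and finite sets -/
def funFin (ι : Type*) [Fintype ι] [DecidableEq ι] : (ι → Bool) ≃ Finset ι where
  toFun f := univ.filter (fun i => f i = true)
  invFun s := fun i => decide (i ∈ s)
  left_inv f := by funext i; simp
  right_inv s := by ext i; simp

theorem wz_eq_card {N : ℕ} (x : Fin N → Bool) :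
    wz x = ((univ.filter (fun i => x i = true)).card : ℤ) := by
  rw [wz, Finset.card_filter]; push_cast; rfl

theorem wz_nonneg {N : ℕ} (x : Fin N → Bool) : 0 ≤ wz x := by
  rw [wz_eq_card]; exact Nat.cast_nonneg _

theorem wz_le {N : ℕ} (x : Fin N → Bool) : wz x ≤ N := by
  rw [wz_eq_card]
  have := Finset.card_le_univ (univ.filter (fun i => x i = true))
  rw [Fintype.card_fin] at this
  exact_mod_cast this

/-- the product of two cubes -/
abbrev ZZ (N L : ℕ) := (Fin N → Bool) × (Fin L → Bool)

/-- the level of a point of the product -/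
def lev {N L : ℕ} (z : ZZ N L) : ℤ := wz z.1 + wz z.2

/-- the finite set of a point -/
def sZ (N L : ℕ) : ZZ N L ≃ Finset (Fin N ⊕ Fin L) :=
  (Equiv.sumArrowEquivProdArrow (Fin N) (Fin L) Bool).symm.trans (funFin (Fin N ⊕ Fin L))

theorem mem_sZ_inl {N L : ℕ} (z : ZZ N L) (i : Fin N) : Sum.inl i ∈ sZ N L z ↔ z.1 i = true := by
  simp only [sZ, funFin, Equiv.trans_apply, Equiv.coe_fn_mk, mem_filter, mem_univ, true_and]
  rfl

theorem mem_sZ_inr {N L : ℕ} (z : ZZ N L) (i : Fin L) : Sum.inr i ∈ sZ N L z ↔ z.2 i = true := by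
  simp only [sZ, funFin, Equiv.trans_apply, Equiv.coe_fn_mk, mem_filter, mem_univ, true_and]
  rfl

theorem lev_eq {N L : ℕ} (z : ZZ N L) : lev z = ((sZ N L z).card : ℤ) := by
  have h1 : (sZ N L z).card = ∑ t : Fin N ⊕ Fin L, (if t ∈ sZ N L z then 1 else 0) := by
    rw [← Finset.card_filter]; congr 1; ext t; simp
  rw [h1, Fintype.sum_sum_type]
  simp_rw [mem_sZ_inl, mem_sZ_inr]
  push_cast
  rfl

theorem lev_nonneg {N L : ℕ} (z : ZZ N L) : 0 ≤ lev z := by
  rw [lev_eq]; exact Nat.cast_nonneg _

theorem lev_le {N L : ℕ} (z : ZZ N L) : lev z ≤ N + L := add_le_add (wz_le _) (wz_le _)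

/-- the size of a level -/
theorem card_lev (N L j : ℕ) :
    (univ.filter (fun z : ZZ N L => lev z = (j : ℤ))).card = (N + L).choose j := by
  have h1 : (univ.filter (fun z : ZZ N L => lev z = (j : ℤ))).card =
      ((univ : Finset (Fin N ⊕ Fin L)).powersetCard j).card := by
    refine Finset.card_bij (fun z _ => sZ N L z) ?_ ?_ ?_
    · intro z hz
      simp only [mem_filter, mem_univ, true_and] at hz
      rw [lev_eq] at hz
      rw [mem_powersetCard]
      exact ⟨subset_univ _, by exact_mod_cast hz⟩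
    · intro z _ w _ h
      exact (sZ N L).injective h
    · intro s hs
      rw [mem_powersetCard] at hs
      refine ⟨(sZ N L).symm s, ?_, by simp⟩
      simp only [mem_filter, mem_univ, true_and]
      rw [lev_eq, Equiv.apply_symm_apply, hs.2]
  rw [h1, card_powersetCard, card_univ, Fintype.card_sum, Fintype.card_fin, Fintype.card_fin]

/-- the size of a ball -/
theorem card_ball (N L k : ℕ) :
    (univ.filter (fun z : ZZ N L => lev z ≤ (k : ℤ))).card =
      ∑ j ∈ range (k + 1), (N + L).choose j := by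
  have h1 : univ.filter (fun z : ZZ N L => lev z ≤ (k : ℤ)) =
      (range (k + 1)).biUnion (fun j => univ.filter (fun z : ZZ N L => lev z = (j : ℤ))) := by
    ext z
    simp only [mem_filter, mem_univ, true_and, mem_biUnion, mem_range]
    constructor
    · intro h
      refine ⟨(lev z).toNat, ?_, ?_⟩
      · have := lev_nonneg z; omega
      · have := lev_nonneg z; omega
    · rintro ⟨j, hj, h⟩
      omega
  rw [h1, card_biUnion]
  · exact sum_congr rfl fun j _ => card_lev N L j
  · intro i _ j _ hij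
    rw [Function.onFun, disjoint_left]
    intro z hz hz'
    simp only [mem_filter, mem_univ, true_and] at hz hz'
    omega

theorem card_wz (N j : ℕ) : (univ.filter (fun x : Fin N → Bool => wz x = (j : ℤ))).card =
    N.choose j := by
  have h1 : (univ.filter (fun x : Fin N → Bool => wz x = (j : ℤ))).card =
      ((univ : Finset (Fin N)).powersetCard j).card := by
    refine Finset.card_bij (fun x _ => funFin (Fin N) x) ?_ ?_ ?_
    · intro x hx
      simp only [mem_filter, mem_univ, true_and] at hx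
      rw [wz_eq_card] at hx
      rw [mem_powersetCard]
      exact ⟨subset_univ _, by exact_mod_cast hx⟩
    · intro z _ w _ h
      exact (funFin (Fin N)).injective h
    · intro s hs
      rw [mem_powersetCard] at hs
      refine ⟨(funFin (Fin N)).symm s, ?_, by simp⟩
      simp only [mem_filter, mem_univ, true_and]
      have h2 : funFin (Fin N) ((funFin (Fin N)).symm s) = s := Equiv.apply_symm_apply _ _
      rw [wz_eq_card]
      have h3 : univ.filter (fun i => (funFin (Fin N)).symm s i = true) = s := h2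
      rw [h3, hs.2]
  rw [h1, card_powersetCard, card_univ, Fintype.card_fin]

/-! ### binomial coefficients -/

theorem central_sq (m : ℕ) : (2 * m + 1) * (Nat.centralBinom m) ^ 2 ≤ 16 ^ m := by
  induction m with
  | zero => simp
  | succ m ih =>
    have h1 := Nat.succ_mul_centralBinom_succ m
    have h2 : (m + 1) ^ 2 * ((2 * (m + 1) + 1) * (Nat.centralBinom (m + 1)) ^ 2) ≤
        (m + 1) ^ 2 * 16 ^ (m + 1) := by
      calc (m + 1) ^ 2 * ((2 * (m + 1) + 1) * (Nat.centralBinom (m + 1)) ^ 2)
          = (2 * m + 3) * ((m + 1) * Nat.centralBinom (m + 1)) ^ 2 := by ring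
        _ = (2 * m + 3) * (2 * (2 * m + 1) * Nat.centralBinom m) ^ 2 := by rw [h1]
        _ = 4 * ((2 * m + 3) * (2 * m + 1)) * ((2 * m + 1) * (Nat.centralBinom m) ^ 2) := by ring
        _ ≤ 4 * (4 * (m + 1) ^ 2) * 16 ^ m := by
            apply Nat.mul_le_mul _ ih
            apply Nat.mul_le_mul_left
            nlinarith
        _ = (m + 1) ^ 2 * 16 ^ (m + 1) := by ring
    exact Nat.le_of_mul_le_mul_left h2 (by positivity)

theorem middle_sq (n : ℕ) : n * (n.choose (n / 2)) ^ 2 ≤ 4 ^ n := by
  obtain ⟨m, rfl | rfl⟩ := n.even_or_odd'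
  · have h1 := central_sq m
    rw [Nat.mul_div_cancel_left m (by norm_num)]
    rw [Nat.centralBinom] at h1
    calc 2 * m * ((2 * m).choose m) ^ 2 ≤ (2 * m + 1) * ((2 * m).choose m) ^ 2 :=
          Nat.mul_le_mul_right _ (by omega)
      _ ≤ 16 ^ m := h1
      _ = 4 ^ (2 * m) := by rw [pow_mul]; norm_num
  · have h1 := central_sq (m + 1)
    have h2 : (2 * m + 1) / 2 = m := by omega
    rw [h2]
    have h3 : Nat.centralBinom (m + 1) = 2 * (2 * m + 1).choose m := by
      rw [Nat.centralBinom, show 2 * (m + 1) = (2 * m + 1) + 1 by ring, Nat.choose_succ_succ]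
      have : (2 * m + 1).choose (m + 1) = (2 * m + 1).choose m := by
        apply Nat.choose_symm_of_eq_add; ring
      rw [this]; ring
    rw [h3] at h1
    have h4 : 4 * ((2 * m + 1) * ((2 * m + 1).choose m) ^ 2) ≤ 4 * 4 ^ (2 * m + 1) := by
      calc 4 * ((2 * m + 1) * ((2 * m + 1).choose m) ^ 2)
          ≤ (2 * (m + 1) + 1) * (2 * (2 * m + 1).choose m) ^ 2 := by nlinarith [sq_nonneg ((2 * m + 1).choose m)]
        _ ≤ 16 ^ (m + 1) := h1
        _ = 4 * 4 ^ (2 * m + 1) := by
            rw [show (16 : ℕ) = 4 ^ 2 by norm_num, ← pow_mul]; ring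
    omega

/-- binomial coefficients are at most `2 ^ n / √n` -/
theorem choose_le (n j : ℕ) : (n.choose j : ℝ) * Real.sqrt n ≤ 2 ^ n := by
  have h1 := middle_sq n
  have h2 : n.choose j ≤ n.choose (n / 2) := Nat.choose_le_middle j n
  have h3 : ((n.choose j : ℝ) * Real.sqrt n) ^ 2 ≤ (2 ^ n) ^ 2 := by
    rw [mul_pow, Real.sq_sqrt (Nat.cast_nonneg _)]
    have h4 : (n * (n.choose j) ^ 2 : ℕ) ≤ 4 ^ n :=
      (Nat.mul_le_mul_left _ (Nat.pow_le_pow_left h2 2)).trans h1
    have h5 : (n : ℝ) * (n.choose j : ℝ) ^ 2 ≤ 4 ^ n := by exact_mod_cast h4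
    rw [← pow_mul, mul_comm n 2, pow_mul]
    norm_num
    linarith
  exact le_of_sq_le_sq h3 (by positivity)
where
  le_of_sq_le_sq {a b : ℝ} (h : a ^ 2 ≤ b ^ 2) (hb : 0 ≤ b) : a ≤ b := abs_le_of_sq_le_sq' h hb |>.2

/-- mean absolute deviation of the weight -/
theorem E_wz (N : ℕ) : E (fun x : Fin N → Bool => |(wz x : ℝ) - N / 2|) ≤ Real.sqrt N := by
  have h1 := E_abs_sum_le (U := Fin N) (S := Bool) (fun _ b => if b then (1 : ℝ) else 0)
    (m := 1 / 2) (v := 1) (by intro u; unfold E; simp) (by intro u; unfold E; simp; norm_num)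
  rw [Fintype.card_fin, mul_one] at h1
  refine le_trans (le_of_eq ?_) h1
  apply E_congr
  intro x
  congr 1
  rw [wz]
  push_cast
  ring

end Pool.Agent.W167.Stretch
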