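import Pool.Agent.W167.Stretch.Fluct

/-!
Mean deviation of the block averages of the particle counts.
-/

set_option autoImplicit false
set_option linter.unusedSectionVars false

namespace Pool.Agent.W167.Stretch

open Finset

variable {N L : ℕ}

/-- forget the first `t` coordinates -/
def mask (t : ℕ) (v : Fin L → Bool) : Fin L → Bool := fun j => if j.1 < t then false else v j

/-- the block label -/
def bt (k t : ℕ) (z : ZZ N L) : Bool × ZZ N L :=
  if acc k z then (true, (z.1, mask t z.2)) else (false, z)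

theorem bt_acc {k t : ℕ} {z : ZZ N L} (h : acc k z) : bt k t z = (true, (z.1, mask t z.2)) :=
  if_pos h

theorem bt_not {k t : ℕ} {z : ZZ N L} (h : ¬ acc k z) : bt k t z = (false, z) := if_neg h

theorem bt_eq {k t : ℕ} {z w : ZZ N L} (h : bt k t z = bt k t w) :
    z = w ∨ (acc k z ∧ acc k w ∧ z.1 = w.1 ∧ mask t z.2 = mask t w.2) := by
  by_cases hz : acc k z <;> by_cases hw : acc k w
  · rw [bt_acc hz, bt_acc hw] at h
    right
    simp only [Prod.mk.injEq, true_and] at h
    exact ⟨hz, hw, h.1, h.2⟩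
  · rw [bt_acc hz, bt_not hw] at h
    simp at h
  · rw [bt_not hz, bt_acc hw] at h
    simp at h
  · rw [bt_not hz, bt_not hw] at h
    left
    simp only [Prod.mk.injEq, true_and] at h
    exact h

theorem mask_zero (v : Fin L → Bool) : mask 0 v = v := by
  funext j; simp [mask]

theorem mask_succ {t : ℕ} {v w : Fin L → Bool} (h : mask t v = mask t w) :
    mask (t + 1) v = mask (t + 1) w := by
  funext j
  unfold mask
  by_cases hj : j.1 < t + 1
  · rw [if_pos hj, if_pos hj]
  · have h1 := congrFun h j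
    unfold mask at h1
    rw [if_neg (by omega), if_neg (by omega)] at h1
    rw [if_neg hj, if_neg hj, h1]

theorem bt_zero {k : ℕ} {z w : ZZ N L} (h : bt k 0 z = bt k 0 w) : z = w := by
  rcases bt_eq h with h | ⟨-, -, h1, h2⟩
  · exact h
  · rw [mask_zero, mask_zero] at h2
    exact Prod.ext h1 h2

theorem bt_succ {k t : ℕ} {z w : ZZ N L} (h : bt k t z = bt k t w) :
    bt k (t + 1) z = bt k (t + 1) w := by
  rcases bt_eq h with h | ⟨h1, h2, h3, h4⟩
  · rw [h]
  · rw [bt_acc h1, bt_acc h2, h3, mask_succ h4]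

theorem dist_mask {t : ℕ} {v w : Fin L → Bool} (h : mask t v = mask t w) :
    hammingDist v w ≤ t := by
  rw [hammingDist]
  calc (univ.filter (fun i => v i ≠ w i)).card
      ≤ ((univ : Finset (Fin L)).filter (fun i => i.1 < t)).card := by
        apply card_le_card
        intro i hi
        simp only [mem_filter, mem_univ, true_and] at hi ⊢
        by_contra hlt
        have h1 := congrFun h i
        unfold mask at h1
        rw [if_neg hlt, if_neg hlt] at h1
        exact hi h1
    _ ≤ (range t).card := by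
        apply card_le_card_of_injOn (fun i : Fin L => i.1)
        · intro i hi
          simp only [coe_filter, mem_univ, true_and, Set.mem_ofPred_eq] at hi
          simpa using hi
        · intro i _ j _ hij
          exact Fin.ext hij
    _ = t := card_range t

theorem bt_dist {k t : ℕ} {z w : ZZ N L} (h : bt k t z = bt k t w) : dZ z w ≤ t := by
  rcases bt_eq h with h | ⟨-, -, h3, h4⟩
  · rw [h, dZ_self]; positivity
  · unfold dZ
    rw [h3, hammingDist_self]
    have := dist_mask h4
    have : (hammingDist z.2 w.2 : ℝ) ≤ t := by exact_mod_cast this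
    simpa using this

theorem mem_blk_bt {k t : ℕ} {z w : ZZ N L} (hz : acc k z) :
    w ∈ blk (bt k t) z ↔ acc k w ∧ w.1 = z.1 ∧ mask t w.2 = mask t z.2 := by
  rw [mem_blk]
  constructor
  · intro h
    rcases bt_eq h with h | ⟨h1, h2, h3, h4⟩
    · rw [h]; exact ⟨hz, rfl, rfl⟩
    · exact ⟨h1, h3, h4⟩
  · rintro ⟨h1, h2, h3⟩
    rw [bt_acc h1, bt_acc hz, h2, h3]

theorem blk_bt_not {k t : ℕ} {z : ZZ N L} (hz : ¬ acc k z) : blk (bt k t) z = {z} := by
  ext w
  rw [mem_blk, mem_singleton]
  constructor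
  · intro h
    rcases bt_eq h with h | ⟨h1, h2, h3, h4⟩
    · exact h
    · exact absurd h2 hz
  · intro h; rw [h]

theorem hit_zero {X Q Z : Type*} (Φ : X → Q → Z) (ac : Z → Prop) [DecidablePred ac]
    (V : Z → Prop) [DecidablePred V] (hV : ∀ z, V z → ¬ ac z) : ∀ (I : ℕ) (s : Fin I → Q) (x : X),
      hit Φ ac V I s x = 0 := by
  intro I
  induction I with
  | zero => intro s x; rfl
  | succ I ih =>
    intro s x
    rw [hit]
    by_cases h : ac (Φ x (s 0))
    · rw [if_pos h, if_neg (fun h' => hV _ h' h)]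
    · rw [if_neg h]; exact ih _ _

section Counts

variable (U : Type*) [Fintype U] [DecidableEq U] (I k : ℕ)

/-- accepted particles -/
noncomputable def na (s : U → Fin I → ZZ N L) (w : ZZ N L) : ℝ :=
  ∑ u, ∑ x, hit Phi (acc k) (fun z => z = w) I (s u) x

/-- lost particles -/
noncomputable def nl (s : U → Fin I → ZZ N L) (w : ZZ N L) : ℝ :=
  ∑ u, ∑ x, lost Phi (acc k) I (s u) x * (if bas x = w then 1 else 0)

/-- all particles -/
noncomputable def nu (s : U → Fin I → ZZ N L) (w : ZZ N L) : ℝ :=
  ((univ.filter (fun p : (Fin N → Bool) × U => pos Phi (acc k) bas I (s p.2) p.1 = w)).card : ℝ)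

/-- the mean count -/
noncomputable def mb (N L k : ℕ) : ℝ := Fintype.card U * 2 ^ N / (Ball N L k).card

/-- the deviation -/
noncomputable def TT (t : ℕ) (s : U → Fin I → ZZ N L) : ℝ :=
  ∑ z, |avgB (bt k t) (nu U I k s) z - (if z ∈ Ball N L k then mb U N L k else 0)|

variable {U I k}

theorem nu_eq (s : U → Fin I → ZZ N L) (w : ZZ N L) : nu U I k s w = na U I k s w + nl U I k s w := by
  unfold nu na nl
  rw [Finset.card_filter]
  push_cast
  rw [Fintype.sum_prod_type, sum_comm, ← sum_add_distrib]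
  refine sum_congr rfl fun u _ => ?_
  rw [← sum_add_distrib]
  refine sum_congr rfl fun x _ => ?_
  exact ind_pos (V := fun z => z = w) I (s u) x

theorem na_nonneg (s : U → Fin I → ZZ N L) (w : ZZ N L) : 0 ≤ na U I k s w :=
  sum_nonneg fun _ _ => sum_nonneg fun _ _ => hit_nonneg _ _ _

theorem nl_nonneg (s : U → Fin I → ZZ N L) (w : ZZ N L) : 0 ≤ nl U I k s w :=
  sum_nonneg fun _ _ => sum_nonneg fun _ _ => mul_nonneg (lost_nonneg _ _ _)
    (by split_ifs <;> norm_num)

theorem nu_nonneg (s : U → Fin I → ZZ N L) (w : ZZ N L) : 0 ≤ nu U I k s w := Nat.cast_nonneg _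

theorem sum_nu (s : U → Fin I → ZZ N L) : ∑ w, nu U I k s w = Fintype.card U * 2 ^ N := by
  unfold nu
  rw [← Nat.cast_sum]
  have h1 : ∑ w : ZZ N L, (univ.filter (fun p : (Fin N → Bool) × U =>
      pos Phi (acc k) bas I (s p.2) p.1 = w)).card = Fintype.card ((Fin N → Bool) × U) := by
    rw [← card_univ]
    exact (card_eq_sum_card_fiberwise (fun p _ => mem_univ _)).symm
  rw [h1, Fintype.card_prod, Fintype.card_fun, Fintype.card_bool, Fintype.card_fin]
  push_cast
  ring

theorem sum_nl (s : U → Fin I → ZZ N L) :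
    ∑ w, nl U I k s w = ∑ u, ∑ x, lost Phi (acc k) I (s u) x := by
  unfold nl
  rw [sum_comm]
  refine sum_congr rfl fun u _ => ?_
  rw [sum_comm]
  refine sum_congr rfl fun x _ => ?_
  rw [← mul_sum]
  simp

theorem E_sum_nl :
    E (fun s : U → Fin I → ZZ N L => ∑ w, nl U I k s w) =
      Fintype.card U * 2 ^ N * (1 - qq N L k) ^ I := by
  simp_rw [sum_nl]
  rw [E_sum]
  have h1 : ∀ u ∈ (univ : Finset U), E (fun s : U → Fin I → ZZ N L =>
      ∑ x, lost Phi (acc k) I (s u) x) = 2 ^ N * (1 - qq N L k) ^ I := by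
    intro u _
    rw [E_eval u (fun a : Fin I → ZZ N L => ∑ x, lost Phi (acc k) I a x), E_sum]
    have h2 : ∀ x ∈ (univ : Finset (Fin N → Bool)),
        E (fun a : Fin I → ZZ N L => lost Phi (acc k) I a x) = (1 - qq N L k) ^ I :=
      fun x _ => E_lost (E_acc k) I x
    rw [sum_congr rfl h2, sum_const, card_univ, nsmul_eq_mul, Fintype.card_fun,
      Fintype.card_bool, Fintype.card_fin]
    push_cast
    ring
  rw [sum_congr rfl h1, sum_const, card_univ, nsmul_eq_mul]
  ring

theorem avg_na_ball {t : ℕ} {z : ZZ N L} (s : U → Fin I → ZZ N L) :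
    avgB (bt k t) (na U I k s) z =
      (∑ u, ∑ x, hit Phi (acc k) (fun w => w ∈ blk (bt k t) z) I (s u) x) /
        (blk (bt k t) z).card := by
  unfold avgB
  congr 1
  unfold na
  rw [sum_comm]
  refine sum_congr rfl fun u _ => ?_
  rw [sum_comm]
  refine sum_congr rfl fun x _ => ?_
  exact hit_sum _ _ _ _ _ _

theorem avg_na_not {t : ℕ} {z : ZZ N L} (hz : ¬ acc k z) (s : U → Fin I → ZZ N L) :
    avgB (bt k t) (na U I k s) z = 0 := by
  rw [avg_na_ball, blk_bt_not hz]
  have : ∀ u x, hit Phi (acc k) (fun w => w ∈ ({z} : Finset (ZZ N L))) I (s u) x = 0 := by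
    intro u x
    apply hit_zero
    intro w hw
    rw [mem_singleton] at hw
    rw [hw]; exact hz
  simp only [this, sum_const_zero, zero_div]

/-- the sum of the inverse square roots of the block sizes -/
noncomputable def SS (N L k t : ℕ) : ℝ :=
  ∑ z ∈ Ball N L k, 1 / Real.sqrt ((blk (bt k t) z).card : ℝ)

theorem E_TT (hq0 : 0 < qq N L k) (t : ℕ) :
    E (fun s : U → Fin I → ZZ N L => TT U I k t s) ≤
      Real.sqrt (Fintype.card U * ((1 + 2 / qq N L k) / qq N L k) / 2 ^ L) * SS N L k t +
        2 * (Fintype.card U * 2 ^ N * (1 - qq N L k) ^ I) := by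
  set q := qq N L k with hq
  have hq1 : q ≤ 1 := qq_le_one N L k
  have hB : 0 < ((Ball N L k).card : ℝ) := by
    have h2 : 0 < q * 2 ^ (N + L) := by positivity
    have h3 : q * 2 ^ (N + L) = (Ball N L k).card := by
      rw [hq, qq, div_mul_cancel₀]; positivity
    rwa [h3] at h2
  have h1 : ∀ s : U → Fin I → ZZ N L, TT U I k t s ≤
      ∑ z ∈ Ball N L k, |∑ u, ∑ x, hit Phi (acc k) (fun w => w ∈ blk (bt k t) z) I (s u) x -
        mb U N L k * (univ.filter (fun w => w ∈ blk (bt k t) z)).card| *
          (1 / ((blk (bt k t) z).card : ℝ)) + ∑ w, nl U I k s w := by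
    intro s
    unfold TT
    have h2 : ∀ z : ZZ N L, |avgB (bt k t) (nu U I k s) z - (if z ∈ Ball N L k then mb U N L k else 0)| ≤
        (if z ∈ Ball N L k then |∑ u, ∑ x, hit Phi (acc k) (fun w => w ∈ blk (bt k t) z) I (s u) x -
          mb U N L k * (univ.filter (fun w => w ∈ blk (bt k t) z)).card| *
          (1 / ((blk (bt k t) z).card : ℝ)) else 0) + avgB (bt k t) (nl U I k s) z := by
      intro z
      have e1 : avgB (bt k t) (nu U I k s) z =
          avgB (bt k t) (na U I k s) z + avgB (bt k t) (nl U I k s) z := by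
        rw [← avgB_add]
        congr 1
        funext w
        exact nu_eq s w
      have e2 : 0 ≤ avgB (bt k t) (nl U I k s) z := avgB_nonneg (nl_nonneg s) z
      rw [e1]
      by_cases hz : z ∈ Ball N L k
      · rw [if_pos hz, if_pos hz]
        have e3 : avgB (bt k t) (na U I k s) z + avgB (bt k t) (nl U I k s) z - mb U N L k =
            (avgB (bt k t) (na U I k s) z - mb U N L k) + avgB (bt k t) (nl U I k s) z := by ring
        rw [e3]
        refine (abs_add_le _ _).trans ?_
        rw [abs_of_nonneg e2]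
        refine add_le_add (le_of_eq ?_) le_rfl
        have e4 : (univ.filter (fun w => w ∈ blk (bt k t) z)) = blk (bt k t) z := by
          ext w; simp
        rw [e4, avg_na_ball]
        have hn : (0 : ℝ) < (blk (bt k t) z).card := by exact_mod_cast blk_card_pos _ z
        rw [show ∀ a b c : ℝ, 0 < c → a / c - b = (a - b * c) * (1 / c) from
          fun a b c hc => by field_simp]
        · rw [abs_mul, abs_of_pos (one_div_pos.2 hn)]
        · exact hn
      · rw [if_neg hz, if_neg hz]
        have hz' : ¬ acc k z := fun h => hz (mem_Ball.2 h)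
        rw [avg_na_not hz', zero_add, sub_zero, abs_of_nonneg e2]
    refine (sum_le_sum fun z _ => h2 z).trans ?_
    rw [sum_add_distrib, ← sum_filter]
    refine add_le_add (le_of_eq ?_) (sum_univ_avgB _ _).le
    refine sum_congr ?_ fun _ _ => rfl
    ext z; simp
  refine (E_mono h1).trans ?_
  rw [E_add, E_sum_nl, E_sum]
  have h3 : ∀ z ∈ Ball N L k, E (fun s : U → Fin I → ZZ N L =>
      |∑ u, ∑ x, hit Phi (acc k) (fun w => w ∈ blk (bt k t) z) I (s u) x -
        mb U N L k * (univ.filter (fun w => w ∈ blk (bt k t) z)).card| *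
          (1 / ((blk (bt k t) z).card : ℝ))) ≤
      Real.sqrt (Fintype.card U * ((1 + 2 / q) / q) / 2 ^ L) *
        (1 / Real.sqrt ((blk (bt k t) z).card : ℝ)) + mb U N L k * (1 - q) ^ I := by
    intro z hz
    have hz' : acc k z := mem_Ball.1 hz
    have hn : (0 : ℝ) < (blk (bt k t) z).card := by exact_mod_cast blk_card_pos _ z
    have h4 := fluct (U := U) hq0 (fun w => w ∈ blk (bt k t) z) z.1
      (fun w hw => ((mem_blk_bt hz').1 hw).2.1) (fun w hw => ((mem_blk_bt hz').1 hw).1) I
    rw [E_mul_right]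
    have e4 : (univ.filter (fun w => w ∈ blk (bt k t) z)) = blk (bt k t) z := by
      ext w; simp
    rw [e4] at h4 ⊢
    refine (mul_le_mul_of_nonneg_right h4 (one_div_nonneg.2 hn.le)).trans (le_of_eq ?_)
    rw [add_mul]
    congr 1
    · have e5 : (Fintype.card U : ℝ) * ((1 + 2 / qq N L k) / qq N L k * ((blk (bt k t) z).card / 2 ^ L)) =
          (Fintype.card U * ((1 + 2 / q) / q) / 2 ^ L) * (blk (bt k t) z).card := by ring
      rw [e5, Real.sqrt_mul' _ hn.le, mul_assoc]
      congr 1
      have h6 := Real.sqrt_pos.2 hn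
      have h7 := Real.mul_self_sqrt hn.le
      field_simp
      rw [sq, h7]
    · unfold mb
      field_simp
      rfl
  have h5 : ∑ z ∈ Ball N L k, (Real.sqrt (Fintype.card U * ((1 + 2 / q) / q) / 2 ^ L) *
        (1 / Real.sqrt ((blk (bt k t) z).card : ℝ)) + mb U N L k * (1 - q) ^ I) =
      Real.sqrt (Fintype.card U * ((1 + 2 / q) / q) / 2 ^ L) * SS N L k t +
        Fintype.card U * 2 ^ N * (1 - q) ^ I := by
    rw [sum_add_distrib, ← mul_sum, sum_const, nsmul_eq_mul]
    unfold SS mb
    congr 1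
    field_simp
  have h6 := sum_le_sum h3
  rw [h5] at h6
  linarith

end Counts

end Pool.Agent.W167.Stretch
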