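import Mathlib

/-!
Transport kernels on finite sets, and integral matchings from fractional transport (Birkhoff).
-/

set_option autoImplicit false

namespace Pool.Agent.W167.Stretch

open Finset

set_option linter.unusedSectionVars false

variable {Z : Type*} [Fintype Z] [DecidableEq Z]

/-- The measure `μ` can be transported to `ν` by a stochastic kernel at cost at most `c`. -/
def Tr (d : Z → Z → ℝ) (μ ν : Z → ℝ) (c : ℝ) : Prop :=
  ∃ K : Z → Z → ℝ, (∀ z w, 0 ≤ K z w) ∧ (∀ z, ∑ w, K z w = 1) ∧ (∀ w, ∑ z, μ z * K z w = ν w) ∧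
    ∑ z, ∑ w, μ z * K z w * d z w ≤ c

theorem Tr.mono {d : Z → Z → ℝ} {μ ν : Z → ℝ} {c c' : ℝ} (h : Tr d μ ν c) (hc : c ≤ c') :
    Tr d μ ν c' := by
  obtain ⟨K, h1, h2, h3, h4⟩ := h
  exact ⟨K, h1, h2, h3, h4.trans hc⟩

theorem Tr.trans {d : Z → Z → ℝ} (hd : ∀ x y z, d x z ≤ d x y + d y z) {μ ν ρ : Z → ℝ}
    (hμ : ∀ z, 0 ≤ μ z) {c c' : ℝ} (h : Tr d μ ν c) (h' : Tr d ν ρ c') : Tr d μ ρ (c + c') := by
  obtain ⟨K, k1, k2, k3, k4⟩ := h
  obtain ⟨L, l1, l2, l3, l4⟩ := h'
  refine ⟨fun z w => ∑ v, K z v * L v w, fun z w => sum_nonneg fun v _ => mul_nonneg (k1 _ _) (l1 _ _),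
    fun z => ?_, fun w => ?_, ?_⟩
  · rw [sum_comm]
    simp_rw [← mul_sum, l2, mul_one]
    exact k2 z
  · simp_rw [mul_sum]
    rw [sum_comm]
    simp_rw [← mul_assoc, ← sum_mul, k3]
    exact l3 w
  · have h1 : ∑ z, ∑ w, μ z * (∑ v, K z v * L v w) * d z w
        = ∑ z, ∑ w, ∑ v, μ z * K z v * L v w * d z w := by
      refine sum_congr rfl fun z _ => sum_congr rfl fun w _ => ?_
      rw [mul_sum, sum_mul]
      refine sum_congr rfl fun v _ => ?_
      ring
    rw [h1]
    have h2 : ∑ z, ∑ w, ∑ v, μ z * K z v * L v w * d z w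
        ≤ ∑ z, ∑ w, ∑ v, (μ z * K z v * L v w * d z v + μ z * K z v * L v w * d v w) := by
      refine sum_le_sum fun z _ => sum_le_sum fun w _ => sum_le_sum fun v _ => ?_
      rw [← mul_add]
      exact mul_le_mul_of_nonneg_left (hd z v w)
        (mul_nonneg (mul_nonneg (hμ z) (k1 _ _)) (l1 _ _))
    refine h2.trans ?_
    simp_rw [sum_add_distrib]
    refine add_le_add ?_ ?_
    · refine le_trans (le_of_eq ?_) k4
      refine sum_congr rfl fun z _ => ?_
      rw [sum_comm]
      refine sum_congr rfl fun v _ => ?_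
      have : ∑ w, μ z * K z v * L v w * d z v = μ z * K z v * d z v * ∑ w, L v w := by
        rw [mul_sum]; refine sum_congr rfl fun w _ => ?_; ring
      rw [this, l2, mul_one]
    · refine le_trans (le_of_eq ?_) l4
      have : ∀ z, ∑ w, ∑ v, μ z * K z v * L v w * d v w = ∑ v, ∑ w, μ z * K z v * L v w * d v w :=
        fun z => sum_comm
      simp_rw [this]
      rw [sum_comm]
      refine sum_congr rfl fun v _ => ?_
      rw [sum_comm]
      refine sum_congr rfl fun w _ => ?_
      have : ∑ z, μ z * K z v * L v w * d v w = (∑ z, μ z * K z v) * (L v w * d v w) := by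
        rw [sum_mul]; refine sum_congr rfl fun z _ => ?_; ring
      rw [this, k3]; ring

/-- A transport plan gives a kernel. -/
theorem Tr.of_plan {d : Z → Z → ℝ} {μ ν : Z → ℝ} {c : ℝ} (F : Z → Z → ℝ)
    (hF : ∀ z w, 0 ≤ F z w) (hrow : ∀ z, ∑ w, F z w = μ z) (hcol : ∀ w, ∑ z, F z w = ν w)
    (hc : ∑ z, ∑ w, F z w * d z w ≤ c) : Tr d μ ν c := by
  classical
  have hμ : ∀ z, 0 ≤ μ z := fun z => by rw [← hrow]; exact sum_nonneg fun w _ => hF z w
  have key : ∀ z w, μ z * (if μ z = 0 then (if z = w then 1 else 0) else F z w / μ z) = F z w := by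
    intro z w
    by_cases h : μ z = 0
    · rw [if_pos h, h, zero_mul]
      have h1 := hrow z
      rw [h] at h1
      exact ((sum_eq_zero_iff_of_nonneg fun w _ => hF z w).1 h1 w (mem_univ _)).symm
    · rw [if_neg h]
      field_simp
  refine ⟨fun z w => if μ z = 0 then (if z = w then 1 else 0) else F z w / μ z,
    fun z w => ?_, fun z => ?_, fun w => ?_, ?_⟩
  · dsimp only
    split_ifs
    · norm_num
    · norm_num
    · exact div_nonneg (hF z w) (hμ z)
  · dsimp only
    split_ifs with h
    · simp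
    · rw [← sum_div, hrow, div_self h]
  · simp_rw [key]
    exact hcol w
  · simp_rw [key]
    exact hc

/-- Equalising inside blocks. -/
theorem Tr.block {I : Type*} [DecidableEq I] {d : Z → Z → ℝ} (b : Z → I) {μ ν : Z → ℝ}
    (hμ : ∀ z, 0 ≤ μ z) (hν : ∀ z, 0 ≤ ν z) {δ : ℝ} (hδ0 : 0 ≤ δ)
    (hb : ∀ z, ∑ w ∈ univ.filter (fun w => b w = b z), μ w =
      ∑ w ∈ univ.filter (fun w => b w = b z), ν w)
    (hδ : ∀ z w, b z = b w → d z w ≤ δ) (hd0 : ∀ z, d z z = 0) :
    Tr d μ ν (δ * ∑ z, |μ z - ν z|) := by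
  classical
  set e : Z → ℝ := fun z => max (μ z - ν z) 0 with he
  set f : Z → ℝ := fun z => max (ν z - μ z) 0 with hf
  have he0 : ∀ z, 0 ≤ e z := fun z => le_max_right _ _
  have hf0 : ∀ z, 0 ≤ f z := fun z => le_max_right _ _
  have hef : ∀ z, e z - f z = μ z - ν z := by
    intro z
    simp only [he, hf]
    rcases le_total (μ z) (ν z) with h | h
    · rw [max_eq_right (by linarith), max_eq_left (by linarith)]; ring
    · rw [max_eq_left (by linarith), max_eq_right (by linarith)]; ring
  set T : Z → ℝ := fun z => ∑ w ∈ univ.filter (fun w => b w = b z), f w with hT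
  have hTe : ∀ z, ∑ w ∈ univ.filter (fun w => b w = b z), e w = T z := by
    intro z
    have h1 : ∑ w ∈ univ.filter (fun w => b w = b z), (e w - f w) = 0 := by
      simp_rw [hef]
      rw [sum_sub_distrib, hb z, sub_self]
    rw [sum_sub_distrib] at h1
    simp only [hT]
    linarith
  have hTcongr : ∀ z w, b z = b w → T z = T w := by
    intro z w h
    simp only [hT, h]
  have hT0 : ∀ z, 0 ≤ T z := fun z => sum_nonneg fun w _ => hf0 w
  have heT : ∀ z, e z ≤ T z := by
    intro z
    rw [← hTe]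
    exact single_le_sum (fun w _ => he0 w) (by simp)
  have hfT : ∀ z, f z ≤ T z := by
    intro z
    exact single_le_sum (f := f) (fun w _ => hf0 w) (by simp)
  -- the plan
  set F : Z → Z → ℝ := fun z w => (if z = w then min (μ z) (ν z) else 0) +
    (if b w = b z then e z * f w / T z else 0) with hFdef
  have hF : ∀ z w, 0 ≤ F z w := by
    intro z w
    simp only [hFdef]
    refine add_nonneg ?_ ?_
    · split_ifs
      · exact le_min (hμ z) (hν z)
      · exact le_rfl
    · split_ifs
      · exact div_nonneg (mul_nonneg (he0 z) (hf0 w)) (hT0 z)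
      · exact le_rfl
  have hmin : ∀ z, min (μ z) (ν z) + e z = μ z := by
    intro z
    simp only [he]
    rcases le_total (μ z) (ν z) with h | h
    · rw [min_eq_left h, max_eq_right (by linarith)]; ring
    · rw [min_eq_right h, max_eq_left (by linarith)]; ring
  have hmin' : ∀ z, min (μ z) (ν z) + f z = ν z := by
    intro z
    have := hmin z
    have := hef z
    linarith
  refine Tr.of_plan F hF (fun z => ?_) (fun w => ?_) ?_
  · simp only [hFdef]
    rw [sum_add_distrib, sum_ite_eq, if_pos (mem_univ _)]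
    rw [← sum_filter, ← sum_div, ← mul_sum]
    change min (μ z) (ν z) + e z * T z / T z = μ z
    by_cases h : T z = 0
    · have h1 : e z = 0 := le_antisymm (by rw [← h]; exact heT z) (he0 z)
      rw [h1, zero_mul, zero_div, ← hmin z, h1]; simp
    · rw [mul_div_assoc, div_self h, mul_one]
      exact hmin z
  · simp only [hFdef]
    rw [sum_add_distrib, sum_ite_eq', if_pos (mem_univ _)]
    have h1 : ∑ z, (if b w = b z then e z * f w / T z else 0) =
        (∑ z ∈ univ.filter (fun z => b z = b w), e z) * f w / T w := by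
      rw [sum_mul, sum_div, sum_filter]
      refine sum_congr rfl fun z _ => ?_
      by_cases h : b z = b w
      · rw [if_pos h.symm, if_pos h, hTcongr z w h]
      · rw [if_neg (fun h' => h h'.symm), if_neg h]
    rw [h1, hTe w]
    by_cases h : T w = 0
    · have h1 : f w = 0 := le_antisymm (by rw [← h]; exact hfT w) (hf0 w)
      rw [h1, mul_zero, zero_div, ← hmin' w, h1]; simp
    · rw [mul_comm (T w), mul_div_assoc, div_self h, mul_one]
      exact hmin' w
  · have h1 : ∑ z, ∑ w, F z w * d z w ≤ ∑ z, δ * e z := by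
      refine sum_le_sum fun z _ => ?_
      have h2 : ∑ w, F z w * d z w ≤ ∑ w, (if b w = b z then e z * f w / T z * δ else 0) := by
        refine sum_le_sum fun w _ => ?_
        simp only [hFdef]
        rw [add_mul]
        have h3 : (if z = w then min (μ z) (ν z) else 0) * d z w = 0 := by
          split_ifs with h
          · rw [← h, hd0, mul_zero]
          · rw [zero_mul]
        rw [h3, zero_add]
        split_ifs with h
        · exact mul_le_mul_of_nonneg_left (hδ z w h.symm)
            (div_nonneg (mul_nonneg (he0 z) (hf0 w)) (hT0 z))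
        · rw [zero_mul]
      refine h2.trans ?_
      rw [← sum_filter, ← sum_mul, ← sum_div, ← mul_sum]
      change e z * T z / T z * δ ≤ δ * e z
      by_cases h : T z = 0
      · rw [h, div_zero, zero_mul]
        exact mul_nonneg hδ0 (he0 z)
      · rw [mul_div_assoc, div_self h, mul_one, mul_comm]
    refine h1.trans ?_
    rw [← mul_sum]
    refine mul_le_mul_of_nonneg_left (sum_le_sum fun z _ => ?_) hδ0
    exact max_le (le_abs_self _) (abs_nonneg _)

/-- A fractional transport of the counting measure of `pos` to a measure which is `1` on `B`,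
`θ ∈ [0,1]` on `L` and `0` elsewhere gives an injection with the same cost bound which maps onto
a set between `B` and `B ∪ L`. -/
theorem exists_matching {P : Type*} [Fintype P] [DecidableEq P] {d : Z → Z → ℝ}
    (hd : ∀ z w, 0 ≤ d z w) (pos : P → Z) (B L : Finset Z) (hBL : Disjoint B L) {θ c : ℝ}
    (hθ1 : θ ≤ 1) (hc : 0 ≤ c)
    (h : Tr d (fun z => ((univ.filter (fun p => pos p = z)).card : ℝ))
      (fun z => if z ∈ B then 1 else if z ∈ L then θ else 0) c) :
    ∃ φ : P → Z, Function.Injective φ ∧ (∀ p, φ p ∈ B ∨ φ p ∈ L) ∧ (∀ z ∈ B, ∃ p, φ p = z) ∧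
      ∑ p, d (pos p) (φ p) ≤ c := by
  classical
  obtain ⟨K, k1, k2, k3, k4⟩ := h
  have hsum : ∀ g : Z → ℝ, ∑ z, ((univ.filter (fun p => pos p = z)).card : ℝ) * g z
      = ∑ p, g (pos p) := by
    intro g
    have : ∀ z, ((univ.filter (fun p => pos p = z)).card : ℝ) * g z =
        ∑ p, if pos p = z then g z else 0 := by
      intro z
      rw [← sum_filter, sum_const, nsmul_eq_mul]
    simp_rw [this]
    rw [sum_comm]
    refine sum_congr rfl fun p _ => ?_
    simp
  have k3' : ∀ w, ∑ p, K (pos p) w = if w ∈ B then 1 else if w ∈ L then θ else 0 := by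
    intro w
    have h1 := k3 w
    have h2 := hsum (fun z => K z w)
    simp only at h1 h2
    rw [← h1, h2]
  have k4' : ∑ p, ∑ w, K (pos p) w * d (pos p) w ≤ c := by
    refine le_trans (le_of_eq ?_) k4
    rw [← hsum (fun z => ∑ w, K z w * d z w)]
    refine sum_congr rfl fun z _ => ?_
    rw [mul_sum]
    refine sum_congr rfl fun w _ => ?_
    ring
  have hout : ∀ p w, w ∉ B → w ∉ L → K (pos p) w = 0 := by
    intro p w h1 h2
    have h3 := k3' w
    rw [if_neg h1, if_neg h2] at h3
    exact (sum_eq_zero_iff_of_nonneg fun p _ => k1 _ _).1 h3 p (mem_univ _)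
  -- cardinalities
  have hcard : (Fintype.card P : ℝ) = B.card + θ * L.card := by
    have h1 : ∑ w, ∑ p, K (pos p) w = (Fintype.card P : ℝ) := by
      rw [sum_comm]; simp_rw [k2]; simp
    rw [← h1]
    simp_rw [k3']
    have h2 : ∀ w, (if w ∈ B then (1 : ℝ) else if w ∈ L then θ else 0) =
        (if w ∈ B then 1 else 0) + (if w ∈ L then θ else 0) := by
      intro w
      by_cases hB : w ∈ B
      · rw [if_pos hB, if_pos hB, if_neg (disjoint_left.1 hBL hB)]; ring
      · rw [if_neg hB, if_neg hB]; ring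
    simp_rw [h2]
    rw [sum_add_distrib]
    simp [mul_comm]
  have hθL : θ * L.card ≤ L.card := by
    have := mul_le_mul_of_nonneg_right hθ1 (Nat.cast_nonneg L.card : (0:ℝ) ≤ _)
    linarith
  have hcard2 : Fintype.card P ≤ B.card + L.card := by
    have : (Fintype.card P : ℝ) ≤ B.card + L.card := by rw [hcard]; linarith
    exact_mod_cast this
  obtain ⟨m, hm⟩ : ∃ m, Fintype.card P + m = B.card + L.card := ⟨_, Nat.add_sub_cancel' hcard2⟩
  have hm' : (m : ℝ) = (1 - θ) * L.card := by
    have : (Fintype.card P : ℝ) + m = B.card + L.card := by exact_mod_cast hm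
    rw [hcard] at this
    linarith
  let W := {w : Z // w ∈ B ∪ L}
  have hW : Fintype.card (P ⊕ Fin m) = Fintype.card W := by
    rw [Fintype.card_sum, Fintype.card_fin, Fintype.card_coe, card_union_of_disjoint hBL, hm]
  let e : (P ⊕ Fin m) ≃ W := Fintype.equivOfCardEq hW
  let a : (P ⊕ Fin m) → Z → ℝ := fun t w => match t with
    | Sum.inl p => K (pos p) w
    | Sum.inr _ => if w ∈ L then (1 - θ) / m else 0
  let A : Matrix (P ⊕ Fin m) (P ⊕ Fin m) ℝ := fun t t' => a t (e t').1
  have hsumW : ∀ g : Z → ℝ, ∑ t', g (e t').1 = ∑ w ∈ B, g w + ∑ w ∈ L, g w := by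
    intro g
    rw [Equiv.sum_comp e (fun w : W => g w.1), ← sum_union hBL]
    exact Finset.sum_coe_sort (B ∪ L) g
  have hA : A ∈ doublyStochastic ℝ (P ⊕ Fin m) := by
    rw [mem_doublyStochastic_iff_sum]
    refine ⟨?_, ?_, ?_⟩
    · intro t t'
      rcases t with p | j
      · exact k1 _ _
      · change (0 : ℝ) ≤ (if (e t').1 ∈ L then (1 - θ) / (m : ℝ) else 0)
        split_ifs
        · exact div_nonneg (by linarith) (Nat.cast_nonneg _)
        · exact le_rfl
    · intro t
      rcases t with p | j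
      · change ∑ t', K (pos p) (e t').1 = 1
        rw [hsumW (fun w => K (pos p) w), ← k2 (pos p), ← sum_union hBL]
        refine sum_subset (subset_univ _) fun w _ hw => ?_
        rw [mem_union, not_or] at hw
        exact hout p w hw.1 hw.2
      · change ∑ t', (fun w => if w ∈ L then (1 - θ) / (m : ℝ) else 0) (e t').1 = 1
        rw [hsumW (fun w => if w ∈ L then (1 - θ) / (m : ℝ) else 0)]
        have h1 : ∑ w ∈ B, (if w ∈ L then (1 - θ) / (m : ℝ) else 0) = 0 :=
          sum_eq_zero fun w hw => if_neg (disjoint_left.1 hBL hw)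
        have h2 : ∑ w ∈ L, (if w ∈ L then (1 - θ) / (m : ℝ) else 0) = L.card * ((1 - θ) / m) := by
          rw [← nsmul_eq_mul, ← sum_const]
          exact sum_congr rfl fun w hw => if_pos hw
        rw [h1, h2, zero_add]
        have hm0 : (m : ℝ) ≠ 0 := by
          have := j.2
          have : 0 < m := by omega
          exact_mod_cast this.ne'
        rw [← mul_div_assoc, mul_comm, ← hm', div_self hm0]
    · intro t'
      change ∑ t, a t (e t').1 = 1
      rw [Fintype.sum_sum_type]
      change ∑ p, K (pos p) (e t').1 + ∑ _j : Fin m, (if (e t').1 ∈ L then (1 - θ) / (m : ℝ) else 0) = 1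
      rw [k3']
      have hmem := (e t').2
      rw [mem_union] at hmem
      by_cases hB : (e t').1 ∈ B
      · rw [if_pos hB, if_neg (disjoint_left.1 hBL hB)]; simp
      · have hL := hmem.resolve_left hB
        rw [if_neg hB, if_pos hL, if_pos hL]
        rw [sum_const, card_univ, Fintype.card_fin, nsmul_eq_mul]
        by_cases hm0 : (m : ℝ) = 0
        · rw [hm0, zero_mul, add_zero]
          rw [hm0] at hm'
          have h1 : (L.card : ℝ) ≠ 0 := by
            have : 0 < L.card := card_pos.2 ⟨_, hL⟩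
            exact_mod_cast this.ne'
          have h2 : (1 - θ) * L.card = 0 := hm'.symm
          rcases mul_eq_zero.1 h2 with h3 | h3
          · linarith
          · exact absurd h3 h1
        · rw [← mul_div_assoc, mul_comm, mul_div_assoc, div_self hm0]; ring
  obtain ⟨w, w1, w2, w3⟩ := exists_eq_sum_perm_of_mem_doublyStochastic hA
  -- the cost
  let C : (P ⊕ Fin m) → (P ⊕ Fin m) → ℝ := fun t t' => match t with
    | Sum.inl p => d (pos p) (e t').1
    | Sum.inr _ => if (e t').1 ∈ B then c + 1 else 0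
  have hC0 : ∀ t t', 0 ≤ C t t' := by
    intro t t'
    rcases t with p | j
    · exact hd _ _
    · change (0 : ℝ) ≤ (if (e t').1 ∈ B then c + 1 else 0)
      split_ifs
      · linarith
      · exact le_rfl
  have hcost : ∑ t, ∑ t', A t t' * C t t' ≤ c := by
    rw [Fintype.sum_sum_type]
    have h1 : ∑ j : Fin m, ∑ t', A (Sum.inr j) t' * C (Sum.inr j) t' = 0 := by
      refine sum_eq_zero fun j _ => sum_eq_zero fun t' _ => ?_
      change (if (e t').1 ∈ L then (1 - θ) / (m : ℝ) else 0) * (if (e t').1 ∈ B then c + 1 else 0) = 0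
      by_cases hB : (e t').1 ∈ B
      · rw [if_neg (disjoint_left.1 hBL hB), zero_mul]
      · rw [if_neg hB, mul_zero]
    rw [h1, add_zero]
    refine le_trans (sum_le_sum fun p _ => ?_) k4'
    change ∑ t', (fun w => K (pos p) w * d (pos p) w) (e t').1 ≤ _
    rw [hsumW (fun w => K (pos p) w * d (pos p) w), ← sum_union hBL]
    exact sum_le_sum_of_subset_of_nonneg (subset_univ _)
      fun w _ _ => mul_nonneg (k1 _ _) (hd _ _)
  have hexp : ∑ t, ∑ t', A t t' * C t t' = ∑ σ, w σ * ∑ t, C t (σ t) := by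
    have h1 : ∀ t t', A t t' = ∑ σ, w σ * (if σ t = t' then 1 else 0) := by
      intro t t'
      rw [← w3, Matrix.sum_apply]
      refine sum_congr rfl fun σ _ => ?_
      rw [Matrix.smul_apply, smul_eq_mul, Equiv.Perm.permMatrix, PEquiv.toMatrix_apply]
      simp [Equiv.toPEquiv_apply, eq_comm]
    simp_rw [h1]
    simp_rw [sum_mul]
    have h2 : ∀ t, ∑ t', ∑ σ, w σ * (if σ t = t' then 1 else 0) * C t t' = ∑ σ, w σ * C t (σ t) := by
      intro t
      rw [sum_comm]
      refine sum_congr rfl fun σ _ => ?_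
      simp
    simp_rw [h2]
    rw [sum_comm]
    simp_rw [mul_sum]
  obtain ⟨σ, hσ⟩ : ∃ σ : Equiv.Perm (P ⊕ Fin m), ∑ t, C t (σ t) ≤ c := by
    by_contra hcon
    push Not at hcon
    rw [hexp] at hcost
    have h1 : c < ∑ σ, w σ * ∑ t, C t (σ t) := by
      obtain ⟨σ₀, hσ₀⟩ : ∃ σ, 0 < w σ := by
        by_contra hw
        push Not at hw
        have : ∑ σ, w σ ≤ 0 := sum_nonpos fun σ _ => hw σ
        linarith
      calc c = ∑ σ, w σ * c := by rw [← sum_mul, w2, one_mul]
        _ < _ := by
          apply sum_lt_sum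
          · intro σ _
            exact mul_le_mul_of_nonneg_left (hcon σ).le (w1 σ)
          · exact ⟨σ₀, mem_univ _, mul_lt_mul_of_pos_left (hcon σ₀) hσ₀⟩
    linarith
  have hdummy : ∀ j : Fin m, (e (σ (Sum.inr j))).1 ∉ B := by
    intro j hj
    have h1 : C (Sum.inr j) (σ (Sum.inr j)) ≤ ∑ t, C t (σ t) :=
      single_le_sum (f := fun t => C t (σ t)) (fun t _ => hC0 t (σ t)) (mem_univ (Sum.inr j))
    have h2 : C (Sum.inr j) (σ (Sum.inr j)) = c + 1 := if_pos hj
    linarith
  refine ⟨fun p => (e (σ (Sum.inl p))).1, ?_, ?_, ?_, ?_⟩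
  · intro p p' hpp
    have h1 : e (σ (Sum.inl p)) = e (σ (Sum.inl p')) := Subtype.ext hpp
    exact Sum.inl_injective (σ.injective (e.injective h1))
  · intro p
    have := (e (σ (Sum.inl p))).2
    rwa [mem_union] at this
  · intro z hz
    obtain ⟨t, ht⟩ : ∃ t, e (σ t) = ⟨z, mem_union_left _ hz⟩ :=
      ⟨σ.symm (e.symm ⟨z, mem_union_left _ hz⟩), by simp⟩
    rcases t with p | j
    · exact ⟨p, by simp only; rw [ht]⟩
    · exact absurd (by rw [ht]; exact hz) (hdummy j)
  · refine le_trans ?_ hσ
    rw [Fintype.sum_sum_type]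
    have h1 : 0 ≤ ∑ j : Fin m, C (Sum.inr j) (σ (Sum.inr j)) := sum_nonneg fun j _ => hC0 (Sum.inr j) (σ (Sum.inr j))
    have h2 : ∑ p, d (pos p) (e (σ (Sum.inl p))).1 = ∑ p, C (Sum.inl p) (σ (Sum.inl p)) := rfl
    linarith

end Pool.Agent.W167.Stretch
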