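import Pool.Agent.W167.Stretch.Concrete
import Pool.Agent.W167.Stretch.Kernel

/-!
Moving the excess mass of a ball to the next level.
-/

set_option autoImplicit false

namespace Pool.Agent.W167.Stretch

open Finset

theorem card_sup {ι : Type*} [Fintype ι] [DecidableEq ι] (S : Finset ι) (r : ℕ) (h : S.card ≤ r) :
    (univ.filter (fun W : Finset ι => S ⊆ W ∧ W.card = r)).card =
      (Fintype.card ι - S.card).choose (r - S.card) := by
  have h1 : (Fintype.card ι - S.card).choose (r - S.card) = (powersetCard (r - S.card) Sᶜ).card := by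
    rw [card_powersetCard, card_compl]
  rw [h1]
  symm
  refine Finset.card_bij (fun T _ => S ∪ T) ?_ ?_ ?_
  · intro T hT
    rw [mem_powersetCard] at hT
    simp only [mem_filter, mem_univ, true_and]
    refine ⟨subset_union_left, ?_⟩
    rw [card_union_of_disjoint, hT.2]
    · omega
    · rw [disjoint_left]
      intro a ha ha'
      exact (mem_compl.1 (hT.1 ha')) ha
  · intro T hT T' hT' he
    rw [mem_powersetCard] at hT hT'
    ext a
    by_cases ha : a ∈ S
    · constructor
      · intro h'; exact absurd ha (mem_compl.1 (hT.1 h'))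
      · intro h'; exact absurd ha (mem_compl.1 (hT'.1 h'))
    · have h2 : a ∈ S ∪ T ↔ a ∈ S ∪ T' := by
        rw [he]
      rw [mem_union, mem_union] at h2
      tauto
  · intro W hW
    simp only [mem_filter, mem_univ, true_and] at hW
    refine ⟨W \ S, ?_, ?_⟩
    · rw [mem_powersetCard]
      refine ⟨fun a ha => ?_, ?_⟩
      · rw [mem_sdiff] at ha; exact mem_compl.2 ha.2
      · rw [card_sdiff_of_subset hW.1, hW.2]
    · exact union_sdiff_of_subset hW.1

variable {N L : ℕ}

theorem sub_iff (z w : ZZ N L) : sZ N L z ⊆ sZ N L w ↔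
    (∀ i, z.1 i = true → w.1 i = true) ∧ (∀ i, z.2 i = true → w.2 i = true) := by
  constructor
  · intro h
    exact ⟨fun i hi => (mem_sZ_inl w i).1 (h ((mem_sZ_inl z i).2 hi)),
      fun i hi => (mem_sZ_inr w i).1 (h ((mem_sZ_inr z i).2 hi))⟩
  · rintro ⟨h1, h2⟩ t ht
    rcases t with i | i
    · exact (mem_sZ_inl w i).2 (h1 i ((mem_sZ_inl z i).1 ht))
    · exact (mem_sZ_inr w i).2 (h2 i ((mem_sZ_inr z i).1 ht))

theorem dist_of_le {n : ℕ} {x y : Fin n → Bool} (h : ∀ i, x i = true → y i = true) :
    (hammingDist x y : ℤ) = wz y - wz x := by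
  rw [wz, wz, ← sum_sub_distrib, hammingDist, Finset.card_filter]
  push_cast
  refine sum_congr rfl fun i _ => ?_
  have := h i
  cases hx : x i <;> cases hy : y i <;> simp_all

theorem dZ_of_sub {z w : ZZ N L} (h : sZ N L z ⊆ sZ N L w) : dZ z w = (lev w : ℝ) - lev z := by
  rw [sub_iff] at h
  have h1 := dist_of_le h.1
  have h2 := dist_of_le h.2
  unfold dZ lev
  have h1' : (hammingDist z.1 w.1 : ℝ) = (wz w.1 : ℝ) - wz z.1 := by
    have : ((hammingDist z.1 w.1 : ℤ) : ℝ) = ((wz w.1 - wz z.1 : ℤ) : ℝ) := by rw [h1]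
    push_cast at this
    exact this
  have h2' : (hammingDist z.2 w.2 : ℝ) = (wz w.2 : ℝ) - wz z.2 := by
    have : ((hammingDist z.2 w.2 : ℤ) : ℝ) = ((wz w.2 - wz z.2 : ℤ) : ℝ) := by rw [h2]
    push_cast at this
    exact this
  rw [h1', h2']
  push_cast
  ring

/-- the next level -/
def Lev (N L k : ℕ) : Finset (ZZ N L) := univ.filter (fun z => lev z = ((k + 1 : ℕ) : ℤ))

theorem mem_Lev {k : ℕ} {z : ZZ N L} : z ∈ Lev N L k ↔ lev z = ((k + 1 : ℕ) : ℤ) := by
  unfold Lev; simp

theorem disj_Ball_Lev (N L k : ℕ) : Disjoint (Ball N L k) (Lev N L k) := by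
  rw [disjoint_left]
  intro z h1 h2
  rw [mem_Ball] at h1
  rw [mem_Lev] at h2
  push_cast at h2
  omega

theorem card_Lev (N L k : ℕ) : (Lev N L k).card = (N + L).choose (k + 1) := card_lev N L (k + 1)

/-- the number of points of the next level above a point -/
theorem card_above {k : ℕ} {z : ZZ N L} (hz : z ∈ Ball N L k) :
    ((Lev N L k).filter (fun w => sZ N L z ⊆ sZ N L w)).card =
      (N + L - (sZ N L z).card).choose (k + 1 - (sZ N L z).card) := by
  rw [mem_Ball, lev_eq] at hz
  have h1 := card_sup (sZ N L z) (k + 1) (by omega)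
  rw [Fintype.card_sum, Fintype.card_fin, Fintype.card_fin] at h1
  rw [← h1]
  refine Finset.card_bij (fun w _ => sZ N L w) ?_ ?_ ?_
  · intro w hw
    rw [mem_filter, mem_Lev, lev_eq] at hw
    simp only [mem_filter, mem_univ, true_and]
    exact ⟨hw.2, by exact_mod_cast hw.1⟩
  · intro w _ w' _ h
    exact (sZ N L).injective h
  · intro W hW
    simp only [mem_filter, mem_univ, true_and] at hW
    refine ⟨(sZ N L).symm W, ?_, by simp⟩
    rw [mem_filter, mem_Lev, lev_eq, Equiv.apply_symm_apply]
    exact ⟨by exact_mod_cast hW.2, hW.1⟩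

/-- sums over the points below -/
theorem sum_below {k : ℕ} {w : ZZ N L} (hw : w ∈ Lev N L k) (g : ℕ → ℝ) :
    ∑ z ∈ (Ball N L k).filter (fun z => sZ N L z ⊆ sZ N L w), g (sZ N L z).card =
      ∑ j ∈ range (k + 1), ((k + 1).choose j : ℝ) * g j := by
  rw [mem_Lev, lev_eq] at hw
  have hw' : (sZ N L w).card = k + 1 := by exact_mod_cast hw
  have h1 : ∑ z ∈ (Ball N L k).filter (fun z => sZ N L z ⊆ sZ N L w), g (sZ N L z).card =
      ∑ j ∈ range (k + 1), ∑ z ∈ ((Ball N L k).filter (fun z => sZ N L z ⊆ sZ N L w)).filter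
        (fun z => (sZ N L z).card = j), g (sZ N L z).card := by
    rw [sum_fiberwise_of_maps_to]
    intro z hz
    rw [mem_filter, mem_Ball, lev_eq] at hz
    rw [mem_range]
    have := hz.1
    omega
  rw [h1]
  refine sum_congr rfl fun j hj => ?_
  rw [mem_range] at hj
  have h2 : ∀ z ∈ ((Ball N L k).filter (fun z => sZ N L z ⊆ sZ N L w)).filter
        (fun z => (sZ N L z).card = j), g (sZ N L z).card = g j := by
    intro z hz
    rw [mem_filter] at hz
    rw [hz.2]
  rw [sum_congr rfl h2, sum_const, nsmul_eq_mul]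
  congr 2
  have h3 : (k + 1).choose j = (powersetCard j (sZ N L w)).card := by
    rw [card_powersetCard, hw']
  rw [h3]
  refine Finset.card_bij (fun z _ => sZ N L z) ?_ ?_ ?_
  · intro z hz
    rw [mem_filter, mem_filter] at hz
    rw [mem_powersetCard]
    exact ⟨hz.1.2, hz.2⟩
  · intro z _ z' _ h
    exact (sZ N L).injective h
  · intro S hS
    rw [mem_powersetCard] at hS
    refine ⟨(sZ N L).symm S, ?_, by simp⟩
    rw [mem_filter, mem_filter, mem_Ball, lev_eq, Equiv.apply_symm_apply]
    exact ⟨⟨by omega, hS.1⟩, hS.2⟩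

/-- transport of the excess -/
theorem Tr_excess {k : ℕ} (hk : k + 1 ≤ N + L) {m : ℝ} (hm : 1 ≤ m) :
    ∃ θ : ℝ, θ * (Lev N L k).card = (m - 1) * (Ball N L k).card ∧
      Tr (dZ (N := N) (L := L)) (fun z => if z ∈ Ball N L k then m else 0)
        (fun z => if z ∈ Ball N L k then 1 else if z ∈ Lev N L k then θ else 0)
        ((m - 1) * ∑ z ∈ Ball N L k, ((k : ℝ) + 1 - lev z)) := by
  classical
  set cc : ℕ → ℝ := fun j => (m - 1) / ((N + L - j).choose (k + 1 - j) : ℝ) with hcc
  have hcc0 : ∀ j, 0 ≤ cc j := fun j => div_nonneg (by linarith) (Nat.cast_nonneg _)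
  set θ : ℝ := ∑ j ∈ range (k + 1), ((k + 1).choose j : ℝ) * cc j with hθ
  set F : ZZ N L → ZZ N L → ℝ := fun z w => if z ∈ Ball N L k then
    ((if z = w then 1 else 0) + (if w ∈ Lev N L k ∧ sZ N L z ⊆ sZ N L w then cc (sZ N L z).card else 0))
    else 0 with hF
  have hF0 : ∀ z w, 0 ≤ F z w := by
    intro z w
    simp only [hF]
    split_ifs <;> positivity
  have habove : ∀ z ∈ Ball N L k, ∑ w, (if w ∈ Lev N L k ∧ sZ N L z ⊆ sZ N L w then
      cc (sZ N L z).card else 0) = m - 1 := by
    intro z hz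
    rw [← sum_filter, sum_const, nsmul_eq_mul]
    have h1 : (univ.filter (fun w => w ∈ Lev N L k ∧ sZ N L z ⊆ sZ N L w)) =
        (Lev N L k).filter (fun w => sZ N L z ⊆ sZ N L w) := by
      ext w; simp
    rw [h1, card_above hz]
    simp only [hcc]
    rw [mem_Ball, lev_eq] at hz
    have h2 : 0 < (N + L - (sZ N L z).card).choose (k + 1 - (sZ N L z).card) :=
      Nat.choose_pos (by omega)
    have h3 : (0 : ℝ) < ((N + L - (sZ N L z).card).choose (k + 1 - (sZ N L z).card) : ℝ) := by
      exact_mod_cast h2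
    field_simp
  have hrow : ∀ z, ∑ w, F z w = if z ∈ Ball N L k then m else 0 := by
    intro z
    simp only [hF]
    by_cases hz : z ∈ Ball N L k
    · simp only [if_pos hz]
      rw [sum_add_distrib, habove z hz]
      simp
    · simp [if_neg hz]
  have hcol : ∀ w, ∑ z, F z w = if w ∈ Ball N L k then 1 else if w ∈ Lev N L k then θ else 0 := by
    intro w
    have h1 : ∑ z, F z w = (if w ∈ Ball N L k then 1 else 0) + (if w ∈ Lev N L k then θ else 0) := by
      simp only [hF]
      rw [← sum_filter, sum_add_distrib]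
      congr 1
      · rw [sum_ite_eq']
        simp
      · have h2 : (univ.filter (fun z => z ∈ Ball N L k)) = Ball N L k := by ext; simp
        rw [h2]
        by_cases hw : w ∈ Lev N L k
        · simp only [hw, true_and, if_true]
          rw [← sum_filter, sum_below hw cc]
        · simp [hw]
    rw [h1]
    by_cases hB : w ∈ Ball N L k
    · have h2 : w ∉ Lev N L k := disjoint_left.1 (disj_Ball_Lev N L k) hB
      simp [hB, h2]
    · simp [hB]
  refine ⟨θ, ?_, Tr.of_plan F hF0 hrow hcol (le_of_eq ?_)⟩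
  · have h1 : ∑ z, ∑ w, F z w = ∑ w, ∑ z, F z w := sum_comm
    simp_rw [hrow, hcol] at h1
    have h2 : ∀ w : ZZ N L, (if w ∈ Ball N L k then (1 : ℝ) else if w ∈ Lev N L k then θ else 0) =
        (if w ∈ Ball N L k then 1 else 0) + (if w ∈ Lev N L k then θ else 0) := by
      intro w
      by_cases hB : w ∈ Ball N L k
      · have h2 : w ∉ Lev N L k := disjoint_left.1 (disj_Ball_Lev N L k) hB
        simp [hB, h2]
      · simp [hB]
    simp_rw [h2] at h1
    rw [sum_add_distrib] at h1
    simp only [sum_ite_mem, univ_inter, sum_const, nsmul_eq_mul] at h1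
    linarith
  · have h1 : ∀ z, ∑ w, F z w * dZ z w = if z ∈ Ball N L k then (m - 1) * ((k : ℝ) + 1 - lev z) else 0 := by
      intro z
      by_cases hz : z ∈ Ball N L k
      · rw [if_pos hz, ← habove z hz, sum_mul]
        refine sum_congr rfl fun w _ => ?_
        simp only [hF, if_pos hz]
        rw [add_mul]
        have h2 : (if z = w then (1 : ℝ) else 0) * dZ z w = 0 := by
          split_ifs with h
          · rw [← h, dZ_self, mul_zero]
          · rw [zero_mul]
        rw [h2, zero_add]
        by_cases hw : w ∈ Lev N L k ∧ sZ N L z ⊆ sZ N L w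
        · rw [if_pos hw, dZ_of_sub hw.2]
          have h3 := mem_Lev.1 hw.1
          rw [h3]
          push_cast
          ring
        · rw [if_neg hw, zero_mul, zero_mul]
      · rw [if_neg hz]
        apply sum_eq_zero
        intro w _
        simp only [hF, if_neg hz, zero_mul]
    simp_rw [h1]
    rw [← sum_filter, mul_sum]
    refine sum_congr ?_ fun _ _ => rfl
    ext; simp

end Pool.Agent.W167.Stretch
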