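import Mathlib

/-!
Record flips on the cube: for `J, x : Fin N → Bool` the map `ff J` is a bijection of the cube,
`ff J x` has the same weight as `x xor J`, its distance to `x` is the difference of the weights,
and `ff J` is `3`-Lipschitz.
-/

set_option autoImplicit false

namespace Pool.Agent.W167.Stretch

variable {N : ℕ}

/-- the step at time `i` -/
def st (J x : Fin N → Bool) (i : ℕ) : ℤ :=
  if h : i < N then (if J ⟨i, h⟩ then (if x ⟨i, h⟩ then 1 else -1) else 0) else 0

/-- the height at time `k` -/
def ht (J x : Fin N → Bool) : ℕ → ℤ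
  | 0 => 0
  | k + 1 => ht J x k + st J x k

/-- the running maximum -/
def mx (J x : Fin N → Bool) : ℕ → ℤ
  | 0 => 0
  | k + 1 => max (mx J x k) (ht J x (k + 1))

def uu (J x : Fin N → Bool) (k : ℕ) : ℤ := mx J x k - mx J x N + ht J x N

def dd (J x : Fin N → Bool) (k : ℕ) : ℤ := max (uu J x k) 0

/-- flip of the records -/
def gg (J x : Fin N → Bool) : Fin N → Bool :=
  fun i => if dd J x (i + 1) = dd J x i then x i else !(x i)

theorem st_le (J x : Fin N → Bool) (i : ℕ) : st J x i ≤ 1 := by
  unfold st; split_ifs <;> norm_num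

theorem ht_succ (J x : Fin N → Bool) (k : ℕ) : ht J x (k + 1) = ht J x k + st J x k := rfl

theorem mx_succ (J x : Fin N → Bool) (k : ℕ) :
    mx J x (k + 1) = max (mx J x k) (ht J x (k + 1)) := rfl

theorem ht_le_mx (J x : Fin N → Bool) (k : ℕ) : ht J x k ≤ mx J x k := by
  cases k with
  | zero => exact le_rfl
  | succ k => exact le_max_right _ _

theorem mx_le_succ (J x : Fin N → Bool) (k : ℕ) : mx J x k ≤ mx J x (k + 1) := le_max_left _ _

theorem mx_succ_le (J x : Fin N → Bool) (k : ℕ) : mx J x (k + 1) ≤ mx J x k + 1 := by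
  rw [mx_succ, ht_succ]
  have h1 := st_le J x k
  have h2 := ht_le_mx J x k
  exact max_le (by linarith) (by linarith)

theorem mx_mono (J x : Fin N → Bool) : Monotone (mx J x) := monotone_nat_of_le_succ (mx_le_succ J x)

theorem dd_nonneg (J x : Fin N → Bool) (k : ℕ) : 0 ≤ dd J x k := le_max_right _ _

theorem uu_le_dd (J x : Fin N → Bool) (k : ℕ) : uu J x k ≤ dd J x k := le_max_left _ _

theorem uu_le_succ (J x : Fin N → Bool) (k : ℕ) : uu J x k ≤ uu J x (k + 1) := by
  unfold uu; have := mx_le_succ J x k; linarith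

theorem uu_succ_le (J x : Fin N → Bool) (k : ℕ) : uu J x (k + 1) ≤ uu J x k + 1 := by
  unfold uu; have := mx_succ_le J x k; linarith

theorem dd_le_succ (J x : Fin N → Bool) (k : ℕ) : dd J x k ≤ dd J x (k + 1) :=
  max_le_max (uu_le_succ J x k) le_rfl

theorem dd_succ_le (J x : Fin N → Bool) (k : ℕ) : dd J x (k + 1) ≤ dd J x k + 1 := by
  have h1 := uu_succ_le J x k
  have h2 := uu_le_dd J x k
  have h3 := dd_nonneg J x k
  exact max_le (by linarith) (by linarith)

theorem dd_mono (J x : Fin N → Bool) : Monotone (dd J x) := monotone_nat_of_le_succ (dd_le_succ J x)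

theorem dd_succ_eq (J x : Fin N → Bool) (k : ℕ) :
    dd J x (k + 1) = dd J x k ∨ dd J x (k + 1) = dd J x k + 1 := by
  have h1 := dd_le_succ J x k
  have h2 := dd_succ_le J x k
  omega

theorem dd_zero (J x : Fin N → Bool) : dd J x 0 = 0 := by
  unfold dd uu
  have h1 := ht_le_mx J x N
  have h2 : mx J x 0 = 0 := rfl
  rw [h2]
  apply max_eq_right
  linarith

theorem dd_last (J x : Fin N → Bool) : dd J x N = max (ht J x N) 0 := by
  unfold dd uu; congr 1; ring

/-- what happens at a flip -/
theorem flip_info {J x : Fin N → Bool} {k : ℕ} (h : dd J x (k + 1) ≠ dd J x k) :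
    dd J x (k + 1) = dd J x k + 1 ∧ uu J x k = dd J x k ∧ ht J x k = mx J x k ∧ st J x k = 1 := by
  have h1 : dd J x (k + 1) = dd J x k + 1 := (dd_succ_eq J x k).resolve_left h
  have h2 := dd_nonneg J x k
  have h3 : uu J x (k + 1) = dd J x (k + 1) := by
    have : dd J x (k + 1) = max (uu J x (k + 1)) 0 := rfl
    rcases le_total (uu J x (k + 1)) 0 with h4 | h4
    · rw [max_eq_right h4] at this; omega
    · rw [max_eq_left h4] at this; exact this.symm
  have h4 := uu_succ_le J x k
  have h5 := uu_le_dd J x k
  have h6 : uu J x k = dd J x k := by omega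
  have h7 : mx J x (k + 1) = mx J x k + 1 := by
    have e1 : uu J x (k + 1) = mx J x (k + 1) - mx J x N + ht J x N := rfl
    have e2 : uu J x k = mx J x k - mx J x N + ht J x N := rfl
    omega
  have h8 : ht J x (k + 1) = mx J x k + 1 := by
    rw [mx_succ] at h7
    rcases le_total (ht J x (k + 1)) (mx J x k) with h | h
    · rw [max_eq_left h] at h7; omega
    · rw [max_eq_right h] at h7; exact h7
  have h9 := ht_le_mx J x k
  have h10 := st_le J x k
  rw [ht_succ] at h8
  exact ⟨h1, h6, by omega, by omega⟩

theorem st_of_lt (J x : Fin N → Bool) (i : Fin N) :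
    st J x i = (if J i then (if x i then 1 else -1) else 0) := by
  unfold st; simp

theorem st_gg (J x : Fin N → Bool) (i : Fin N) :
    st J (gg J x) i = st J x i - 2 * (dd J x (i + 1) - dd J x i) := by
  by_cases h : dd J x (i + 1) = dd J x i
  · rw [st_of_lt, st_of_lt]
    have : gg J x i = x i := by unfold gg; rw [if_pos h]
    rw [this, h]; ring
  · obtain ⟨h1, -, -, h4⟩ := flip_info h
    have : gg J x i = !(x i) := by unfold gg; rw [if_neg h]
    rw [st_of_lt] at h4 ⊢
    rw [st_of_lt, this, h1]
    cases hJ : J i <;> cases hx : x i <;> simp_all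

theorem ht_gg (J x : Fin N → Bool) (k : ℕ) (hk : k ≤ N) :
    ht J (gg J x) k = ht J x k - 2 * dd J x k := by
  induction k with
  | zero => rw [dd_zero]; rfl
  | succ k ih =>
    rw [ht_succ, ht_succ, ih (by omega)]
    have := st_gg J x ⟨k, by omega⟩
    simp only at this
    rw [this]; ring

/-- weight of a point of the cube, as an integer -/
def wz (x : Fin N → Bool) : ℤ := ∑ i, (if x i then 1 else 0)

/-- pointwise exclusive or -/
def xr (x J : Fin N → Bool) : Fin N → Bool := fun i => Bool.xor (x i) (J i)

theorem sum_st (J x : Fin N → Bool) : ht J x N = ∑ i : Fin N, st J x i := by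
  have : ∀ k, ht J x k = ∑ i ∈ Finset.range k, st J x i := by
    intro k
    induction k with
    | zero => simp [ht]
    | succ k ih => rw [ht_succ, ih, Finset.sum_range_succ]
  rw [this, Finset.sum_range]

theorem wz_xr (J x : Fin N → Bool) : wz (xr x J) = wz x - ht J x N := by
  rw [sum_st, wz, wz, ← Finset.sum_sub_distrib]
  apply Finset.sum_congr rfl
  intro i _
  rw [st_of_lt]
  unfold xr
  cases J i <;> cases x i <;> simp

theorem wz_gg (J x : Fin N → Bool) : wz (gg J x) = wz x - dd J x N := by
  have h1 : dd J x N = ∑ i : Fin N, (dd J x (i + 1) - dd J x i) := by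
    rw [Finset.sum_fin_eq_sum_range]
    have h2 : ∑ i ∈ Finset.range N, (dd J x (i + 1) - dd J x i) = dd J x N - dd J x 0 :=
      Finset.sum_range_sub _ _
    rw [dd_zero] at h2
    rw [sub_zero] at h2
    rw [← h2]
    apply Finset.sum_congr rfl
    intro i hi
    rw [Finset.mem_range] at hi
    rw [dif_pos hi]
  rw [h1, wz, wz, ← Finset.sum_sub_distrib]
  apply Finset.sum_congr rfl
  intro i _
  by_cases h : dd J x (i + 1) = dd J x i
  · have : gg J x i = x i := by unfold gg; rw [if_pos h]
    rw [this, h]; ring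
  · obtain ⟨h1, -, -, h4⟩ := flip_info h
    have : gg J x i = !(x i) := by unfold gg; rw [if_neg h]
    rw [st_of_lt] at h4
    rw [this, h1]
    cases hJ : J i <;> cases hx : x i <;> simp_all

theorem dist_gg (J x : Fin N → Bool) : (hammingDist x (gg J x) : ℤ) = dd J x N := by
  have h1 : dd J x N = ∑ i : Fin N, (dd J x (i + 1) - dd J x i) := by
    rw [Finset.sum_fin_eq_sum_range]
    have h2 : ∑ i ∈ Finset.range N, (dd J x (i + 1) - dd J x i) = dd J x N - dd J x 0 :=
      Finset.sum_range_sub _ _
    rw [dd_zero] at h2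
    rw [sub_zero] at h2
    rw [← h2]
    apply Finset.sum_congr rfl
    intro i hi
    rw [Finset.mem_range] at hi
    rw [dif_pos hi]
  rw [h1, hammingDist, Finset.card_filter]
  push_cast
  apply Finset.sum_congr rfl
  intro i _
  by_cases h : dd J x (i + 1) = dd J x i
  · have : gg J x i = x i := by unfold gg; rw [if_pos h]
    rw [this, h]; simp
  · obtain ⟨h1, -, -, h4⟩ := flip_info h
    have : gg J x i = !(x i) := by unfold gg; rw [if_neg h]
    rw [this, h1]
    cases x i <;> simp

/-! ### injectivity -/

theorem ht_gg_le {J x : Fin N → Bool} (k : ℕ) (hk : k ≤ N) :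
    ht J (gg J x) k ≤ mx J x N - ht J x N - dd J x k := by
  rw [ht_gg J x k hk]
  have h1 := ht_le_mx J x k
  have h2 := uu_le_dd J x k
  have h3 : uu J x k = mx J x k - mx J x N + ht J x N := rfl
  omega

theorem ht_gg_flip {J x : Fin N → Bool} {k : ℕ} (hk : k < N) (h : dd J x (k + 1) ≠ dd J x k) :
    ht J (gg J x) k = mx J x N - ht J x N - dd J x k := by
  rw [ht_gg J x k hk.le]
  obtain ⟨-, h2, h3, -⟩ := flip_info h
  have h4 : uu J x k = mx J x k - mx J x N + ht J x N := rfl
  omega

theorem exists_first {J x : Fin N → Bool} (h : 0 < ht J x N) :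
    ∃ k, k < N ∧ ht J (gg J x) k = mx J x N - ht J x N := by
  by_contra hcon
  push Not at hcon
  have : ∀ k, k ≤ N → dd J x k = 0 := by
    intro k
    induction k with
    | zero => intro _; exact dd_zero J x
    | succ k ih =>
      intro hk
      have h1 := ih (by omega)
      by_contra h2
      have h3 : dd J x (k + 1) ≠ dd J x k := by rw [h1]; exact h2
      have h4 := ht_gg_flip (by omega) h3
      apply hcon k (by omega)
      rw [h4, h1]; ring
  have h5 := this N le_rfl
  rw [dd_last] at h5
  have := le_max_left (ht J x N) 0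
  omega

theorem gg_inj_pos {J x y : Fin N → Bool} (h : gg J x = gg J y) (hx : 0 < ht J x N)
    (hy : 0 < ht J y N) : x = y := by
  have e1 := ht_gg J x N le_rfl
  have e2 := ht_gg J y N le_rfl
  rw [dd_last, max_eq_left hx.le] at e1
  rw [dd_last, max_eq_left hy.le] at e2
  rw [h] at e1
  have hs : ht J x N = ht J y N := by omega
  have hb : mx J x N = mx J y N := by
    obtain ⟨k, hk, hk2⟩ := exists_first hx
    obtain ⟨l, hl, hl2⟩ := exists_first hy
    have a1 := ht_gg_le (J := J) (x := y) k hk.le
    have a2 := ht_gg_le (J := J) (x := x) l hl.le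
    have a3 := dd_nonneg J y k
    have a4 := dd_nonneg J x l
    rw [h] at hk2 a2
    omega
  have key : ∀ m, m ≤ N → dd J x (N - m) = dd J y (N - m) := by
    intro m
    induction m with
    | zero =>
      intro _
      rw [Nat.sub_zero, dd_last, dd_last, hs]
    | succ m ih =>
      intro hm
      have h1 := ih (by omega)
      obtain ⟨k, hk⟩ : ∃ k, N - (m + 1) = k := ⟨_, rfl⟩
      have hk2 : N - m = k + 1 := by omega
      have hk3 : k < N := by omega
      rw [hk]
      rw [hk2] at h1
      by_contra hne
      rcases dd_succ_eq J x k with hx1 | hx1 <;> rcases dd_succ_eq J y k with hy1 | hy1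
      · omega
      · have a1 := ht_gg_flip (J := J) (x := y) hk3 (by omega)
        have a2 := ht_gg_le (J := J) (x := x) k hk3.le
        rw [h] at a2
        omega
      · have a1 := ht_gg_flip (J := J) (x := x) hk3 (by omega)
        have a2 := ht_gg_le (J := J) (x := y) k hk3.le
        rw [h] at a1
        omega
      · omega
  have key2 : ∀ k, k ≤ N → dd J x k = dd J y k := by
    intro k hk
    have := key (N - k) (by omega)
    rwa [Nat.sub_sub_self hk] at this
  funext i
  have h1 := congrFun h i
  unfold gg at h1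
  rw [key2 (i + 1) (by omega), key2 i (by omega)] at h1
  split_ifs at h1 with h2
  · exact h1
  · revert h1
    cases x i <;> cases y i <;> simp

/-- pointwise complement -/
def cc (x : Fin N → Bool) : Fin N → Bool := fun i => !(x i)

theorem cc_cc (x : Fin N → Bool) : cc (cc x) = x := by
  funext i; simp [cc]

theorem ht_cc (J x : Fin N → Bool) (k : ℕ) : ht J (cc x) k = - ht J x k := by
  induction k with
  | zero => simp [ht]
  | succ k ih =>
    rw [ht_succ, ht_succ, ih]
    have : st J (cc x) k = - st J x k := by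
      unfold st cc
      split_ifs <;> simp_all
    rw [this]; ring

theorem gg_of_nonpos {J x : Fin N → Bool} (h : ht J x N ≤ 0) : gg J x = x := by
  have h1 : ∀ k, k ≤ N → dd J x k = 0 := by
    intro k hk
    have h2 := dd_mono J x hk
    rw [dd_last, max_eq_right h] at h2
    exact le_antisymm h2 (dd_nonneg J x k)
  funext i
  unfold gg
  rw [if_pos (by rw [h1 _ (by omega), h1 _ (by omega)])]

/-- the bijection of the cube -/
def ff (J x : Fin N → Bool) : Fin N → Bool :=
  if 0 ≤ ht J x N then gg J x else cc (gg J (cc x))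

theorem ht_ff (J x : Fin N → Bool) : ht J (ff J x) N = - ht J x N := by
  unfold ff
  split_ifs with h
  · rw [ht_gg J x N le_rfl, dd_last, max_eq_left h]; ring
  · rw [ht_cc, ht_gg J _ N le_rfl, dd_last, ht_cc, max_eq_left (by omega)]; ring

theorem ff_inj (J : Fin N → Bool) : Function.Injective (ff J) := by
  intro x y h
  have hs : ht J x N = ht J y N := by
    have h1 := ht_ff J x
    have h2 := ht_ff J y
    rw [h] at h1
    omega
  rcases lt_trichotomy (ht J x N) 0 with h0 | h0 | h0
  · unfold ff at h
    rw [if_neg (by omega), if_neg (by omega)] at h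
    have h1 : gg J (cc x) = gg J (cc y) := by
      rw [← cc_cc (gg J (cc x)), h, cc_cc]
    have h2 := gg_inj_pos h1 (by rw [ht_cc]; omega) (by rw [ht_cc]; omega)
    rw [← cc_cc x, h2, cc_cc]
  · unfold ff at h
    rw [if_pos (by omega), if_pos (by omega), gg_of_nonpos (by omega), gg_of_nonpos (by omega)] at h
    exact h
  · unfold ff at h
    rw [if_pos (by omega), if_pos (by omega)] at h
    exact gg_inj_pos h h0 (by omega)

theorem ff_bij (J : Fin N → Bool) : Function.Bijective (ff J) :=
  Finite.injective_iff_bijective.1 (ff_inj J)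

theorem wz_cc (x : Fin N → Bool) : wz (cc x) = N - wz x := by
  have : (N : ℤ) = ∑ _i : Fin N, (1 : ℤ) := by simp
  rw [this, wz, wz, ← Finset.sum_sub_distrib]
  apply Finset.sum_congr rfl
  intro i _
  unfold cc
  cases x i <;> simp

theorem wz_ff (J x : Fin N → Bool) : wz (ff J x) = wz (xr x J) := by
  rw [wz_xr]
  unfold ff
  split_ifs with h
  · rw [wz_gg, dd_last, max_eq_left h]
  · rw [wz_cc, wz_gg, wz_cc, dd_last, ht_cc, max_eq_left (by omega)]; ring

theorem dist_cc (x y : Fin N → Bool) : hammingDist (cc x) (cc y) = hammingDist x y := by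
  unfold hammingDist cc
  congr 1
  ext i
  simp

theorem dist_ff (J x : Fin N → Bool) : (hammingDist x (ff J x) : ℤ) = |wz (xr x J) - wz x| := by
  rw [wz_xr]
  unfold ff
  split_ifs with h
  · rw [dist_gg, dd_last, max_eq_left h]
    rw [show wz x - ht J x N - wz x = - ht J x N by ring, abs_neg, abs_of_nonneg h]
  · have : hammingDist x (cc (gg J (cc x))) = hammingDist (cc x) (gg J (cc x)) := by
      rw [← dist_cc x, cc_cc]
    rw [this, dist_gg, dd_last, ht_cc, max_eq_left (by omega)]
    rw [show wz x - ht J x N - wz x = - ht J x N by ring, abs_of_nonneg (by omega)]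

end Pool.Agent.W167.Stretch
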