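import Pool.Agent.W167.Stretch.Concrete
import Pool.Agent.W167.Stretch.Blocks

/-!
Fluctuations of the number of particles in a block.
-/

set_option autoImplicit false

namespace Pool.Agent.W167.Stretch

open Finset

variable {N L : ℕ}

/-- number of first coordinates moved onto `y` -/
theorem sum_ind (V : ZZ N L → Prop) [DecidablePred V] (y : Fin N → Bool) (hy : ∀ z, V z → z.1 = y)
    (a : ZZ N L) : ∑ x : Fin N → Bool, (if V (Phi x a) then (1 : ℝ) else 0) =
      if V (y, a.2) then 1 else 0 := by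
  obtain ⟨x₀, hx₀⟩ := (ff_bij a.1).2 y
  rw [sum_eq_single x₀]
  · have : Phi x₀ a = (y, a.2) := by unfold Phi; rw [hx₀]
    rw [this]
  · intro x _ hx
    rw [if_neg]
    intro h
    have h1 := hy _ h
    have h2 : ff a.1 x = y := h1
    exact hx (ff_inj a.1 (h2.trans hx₀.symm))
  · intro h; exact absurd (mem_univ _) h

theorem sum_ind_le (V : ZZ N L → Prop) [DecidablePred V] (y : Fin N → Bool)
    (hy : ∀ z, V z → z.1 = y) (D : Finset (Fin N → Bool)) (a : ZZ N L) :
    ∑ x ∈ D, (if V (Phi x a) then (1 : ℝ) else 0) ≤ 1 := by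
  calc ∑ x ∈ D, (if V (Phi x a) then (1 : ℝ) else 0)
      ≤ ∑ x : Fin N → Bool, (if V (Phi x a) then (1 : ℝ) else 0) :=
        sum_le_sum_of_subset_of_nonneg (subset_univ _) fun x _ _ => by split_ifs <;> norm_num
    _ = _ := sum_ind V y hy a
    _ ≤ 1 := by split_ifs <;> norm_num

theorem E_ind (V : ZZ N L → Prop) [DecidablePred V] (y : Fin N → Bool) (hy : ∀ z, V z → z.1 = y) :
    ∑ x : Fin N → Bool, E (fun a : ZZ N L => if V (Phi x a) then (1 : ℝ) else 0) =
      (univ.filter V).card / 2 ^ L := by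
  rw [← E_sum]
  simp_rw [sum_ind V y hy]
  rw [E_prod]
  have h0 : E (fun _x : Fin N → Bool => E (fun c : Fin L → Bool => if V (y, c) then (1 : ℝ) else 0)) =
      E (fun c : Fin L → Bool => if V (y, c) then (1 : ℝ) else 0) := E_const _
  refine h0.trans ?_
  unfold E
  rw [Fintype.card_fun, Fintype.card_bool, Fintype.card_fin]
  push_cast
  congr 1
  rw [← sum_filter, sum_const, nsmul_eq_mul, mul_one]
  congr 1
  refine Finset.card_bij (fun c _ => (y, c)) ?_ ?_ ?_
  · intro c hc
    simp only [mem_filter, mem_univ, true_and] at hc ⊢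
    exact hc
  · intro c _ c' _ h
    exact (Prod.mk.inj h).2
  · intro z hz
    simp only [mem_filter, mem_univ, true_and] at hz
    have h1 := hy z hz
    refine ⟨z.2, ?_, ?_⟩
    · simp only [mem_filter, mem_univ, true_and]
      rw [← h1]; exact hz
    · rw [← h1]

theorem E_ind_le (V : ZZ N L → Prop) [DecidablePred V] (y : Fin N → Bool)
    (hy : ∀ z, V z → z.1 = y) (D : Finset (Fin N → Bool)) :
    ∑ x ∈ D, E (fun a : ZZ N L => if V (Phi x a) then (1 : ℝ) else 0) ≤
      (univ.filter V).card / 2 ^ L := by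
  rw [← E_ind V y hy]
  exact sum_le_sum_of_subset_of_nonneg (subset_univ _) fun x _ _ =>
    E_nonneg fun a => by split_ifs <;> norm_num

/-- fluctuation of the number of accepted particles in `V` -/
theorem fluct {U : Type*} [Fintype U] [DecidableEq U] {k : ℕ} (hq0 : 0 < qq N L k)
    (V : ZZ N L → Prop) [DecidablePred V] (y : Fin N → Bool) (hy : ∀ z, V z → z.1 = y)
    (hV : ∀ z, V z → acc k z) (I : ℕ) :
    E (fun s : U → Fin I → ZZ N L =>
      |∑ u, ∑ x, hit Phi (acc k) V I (s u) x -
        (Fintype.card U * 2 ^ N / (Ball N L k).card) * (univ.filter V).card|) ≤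
      Real.sqrt (Fintype.card U * ((1 + 2 / qq N L k) / qq N L k * ((univ.filter V).card / 2 ^ L))) +
        (Fintype.card U * 2 ^ N / (Ball N L k).card) * (univ.filter V).card * (1 - qq N L k) ^ I := by
  set q := qq N L k with hq
  have hq1 : q ≤ 1 := qq_le_one N L k
  set n : ℝ := ((univ.filter V).card : ℝ) with hn
  have hn0 : 0 ≤ n := Nat.cast_nonneg _
  set ρ : ℝ := n / 2 ^ L with hρ
  have hρ0 : 0 ≤ ρ := by positivity
  have hρ1 : ρ ≤ 1 := by
    have h1 := E_ind V y hy
    rw [← E_sum] at h1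
    rw [hρ, hn, ← h1]
    calc E (fun a : ZZ N L => ∑ x : Fin N → Bool, if V (Phi x a) then (1 : ℝ) else 0)
        ≤ E (fun _ : ZZ N L => (1 : ℝ)) := E_mono fun a => sum_ind_le V y hy univ a
      _ = 1 := E_const 1
  set m : ℝ := ρ * (1 - (1 - q) ^ I) / q with hm
  have hmean : ∀ u : U, E (fun s : Fin I → ZZ N L => ∑ x, hit Phi (acc k) V I s x) = m := by
    intro _
    rw [E_sum, hm, eq_div_iff hq0.ne', mul_comm, mul_sum]
    have h1 : ∀ x ∈ (univ : Finset (Fin N → Bool)),
        q * E (fun s : Fin I → ZZ N L => hit Phi (acc k) V I s x) =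
        E (fun a : ZZ N L => if V (Phi x a) then (1 : ℝ) else 0) * (1 - (1 - q) ^ I) :=
      fun x _ => E_hit (E_acc k) hV I x
    rw [sum_congr rfl h1, ← sum_mul, E_ind V y hy]
  have hvar : ∀ u : U, E (fun s : Fin I → ZZ N L => (∑ x, hit Phi (acc k) V I s x) ^ 2) ≤
      (1 + 2 / q) / q * ρ := by
    intro _
    have h1 := E_hit_sq (Φ := Phi) (acc := acc k) (V := V) hq0 hq1 (E_acc k) hV hρ0
      (fun D a => sum_ind_le V y hy D a) (fun D => E_ind_le V y hy D) I univ
    refine h1.trans ?_
    rw [E_ind V y hy]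
    refine mul_le_mul_of_nonneg_right ?_ hρ0
    refine div_le_div_of_nonneg_right ?_ hq0.le
    have : 2 * ρ / q ≤ 2 / q := div_le_div_of_nonneg_right (by linarith) hq0.le
    linarith
  have h1 := E_abs_sum_le (U := U) (fun _ s => ∑ x, hit Phi (acc k) V I s x) hmean hvar
  have hB : 0 < ((Ball N L k).card : ℝ) := by
    have h2 : 0 < q * 2 ^ (N + L) := by positivity
    have h3 : q * 2 ^ (N + L) = (Ball N L k).card := by
      rw [hq, qq, div_mul_cancel₀]; positivity
    rwa [h3] at h2
  have hmm : Fintype.card U * m = (Fintype.card U * 2 ^ N / (Ball N L k).card) * n *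
      (1 - (1 - q) ^ I) := by
    rw [hm, hρ]
    have h3 : q = (Ball N L k).card / 2 ^ (N + L) := rfl
    rw [h3, pow_add]
    field_simp
  have h2 : ∀ s : U → Fin I → ZZ N L,
      |∑ u, ∑ x, hit Phi (acc k) V I (s u) x - (Fintype.card U * 2 ^ N / (Ball N L k).card) * n| ≤
      |∑ u, ∑ x, hit Phi (acc k) V I (s u) x - Fintype.card U * m| +
        (Fintype.card U * 2 ^ N / (Ball N L k).card) * n * (1 - q) ^ I := by
    intro s
    have e : ∑ u, ∑ x, hit Phi (acc k) V I (s u) x - (Fintype.card U * 2 ^ N / (Ball N L k).card) * n =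
        (∑ u, ∑ x, hit Phi (acc k) V I (s u) x - Fintype.card U * m) +
          (-((Fintype.card U * 2 ^ N / (Ball N L k).card) * n * (1 - q) ^ I)) := by
      rw [hmm]; ring
    rw [e]
    refine (abs_add_le _ _).trans ?_
    rw [abs_neg, abs_of_nonneg (a := (Fintype.card U * 2 ^ N / (Ball N L k).card) * n * (1 - q) ^ I)]
    have : (0 : ℝ) ≤ (1 - q) ^ I := pow_nonneg (by linarith) _
    positivity
  refine (E_mono h2).trans ?_
  rw [E_add, E_const]
  linarith

/-- additivity of hits -/
theorem hit_sum {X Q Z : Type*} [DecidableEq Z] (Φ : X → Q → Z) (acc : Z → Prop) [DecidablePred acc]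
    (W : Finset Z) : ∀ (I : ℕ) (s : Fin I → Q) (x : X),
      ∑ w ∈ W, hit Φ acc (fun z => z = w) I s x = hit Φ acc (fun z => z ∈ W) I s x := by
  intro I
  induction I with
  | zero => intro s x; simp [hit]
  | succ I ih =>
    intro s x
    simp only [hit]
    by_cases h : acc (Φ x (s 0))
    · simp only [if_pos h]
      rw [sum_ite_eq]
    · simp only [if_neg h]
      exact ih _ _

end Pool.Agent.W167.Stretch
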