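import Pool.Agent.W167.Stretch.Flip

set_option autoImplicit false

namespace Pool.Agent.W167.Stretch

variable {N : ℕ}

theorem ht_up {J x y : Fin N → Bool} {i : Fin N} (hJ : J i = true) (hx : x i = false)
    (hy : y i = true) (hxy : ∀ j, j ≠ i → x j = y j) (k : ℕ) :
    ht J y k = ht J x k + (if k ≤ i.1 then 0 else 2) := by
  have hst : ∀ k, st J y k = st J x k + (if k = i.1 then 2 else 0) := by
    intro k
    unfold st
    by_cases hk : k < N
    · rw [dif_pos hk, dif_pos hk]
      by_cases hki : k = i.1
      · have : (⟨k, hk⟩ : Fin N) = i := Fin.ext hki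
        rw [this, hJ, hx, hy, if_pos hki]; norm_num
      · have h2 : (⟨k, hk⟩ : Fin N) ≠ i := fun h => hki (congrArg Fin.val h)
        rw [hxy _ h2, if_neg hki, add_zero]
    · rw [dif_neg hk, dif_neg hk, if_neg (by have := i.2; omega)]; norm_num
  induction k with
  | zero => simp [ht]
  | succ k ih =>
    rw [ht_succ, ht_succ, ih, hst]
    by_cases h1 : k ≤ i.1
    · rw [if_pos h1]
      by_cases h2 : k = i.1
      · rw [if_pos h2, if_neg (by omega)]; ring
      · rw [if_neg h2, if_pos (by omega)]; ring
    · rw [if_neg h1, if_neg (by omega), if_neg (by omega)]; ring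

theorem mx_up {J x y : Fin N → Bool} {i : Fin N} (h : ∀ k, ht J y k = ht J x k +
    (if k ≤ i.1 then 0 else 2)) (k : ℕ) :
    (0 ≤ mx J y k - mx J x k ∧ mx J y k - mx J x k ≤ 2) ∧
      (k ≤ i.1 → mx J y k = mx J x k) := by
  induction k with
  | zero => exact ⟨⟨by simp [mx], by simp [mx]⟩, fun _ => rfl⟩
  | succ k ih =>
    obtain ⟨⟨h1, h2⟩, h3⟩ := ih
    have h4 := h (k + 1)
    rw [mx_succ, mx_succ]
    refine ⟨?_, ?_⟩
    · split_ifs at h4 <;> constructor <;> rw [h4] <;> omega
    · intro hk
      rw [if_pos hk] at h4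
      rw [h4, h3 (by omega)]; simp

theorem mx_up_mono {J x y : Fin N → Bool} {i : Fin N} (h : ∀ k, ht J y k = ht J x k +
    (if k ≤ i.1 then 0 else 2)) (k : ℕ) :
    mx J y k - mx J x k ≤ mx J y (k + 1) - mx J x (k + 1) := by
  obtain ⟨⟨h1, h2⟩, h3⟩ := mx_up h k
  obtain ⟨⟨h1', h2'⟩, h3'⟩ := mx_up h (k + 1)
  by_cases hk : k + 1 ≤ i.1
  · rw [h3 (by omega), h3' hk]; simp
  · have h4 := h (k + 1)
    rw [if_neg hk] at h4
    have e1 := mx_succ J x k
    have e2 := mx_succ J y k
    omega

theorem dd_up {J x y : Fin N → Bool} {i : Fin N} (h : ∀ k, ht J y k = ht J x k +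
    (if k ≤ i.1 then 0 else 2)) (k : ℕ) (hk : k < N) :
    dd J x (k + 1) - dd J x k ≤ dd J y (k + 1) - dd J y k := by
  have hN := h N
  rw [if_neg (by have := i.2; omega)] at hN
  have hE : ∀ k, uu J y k - uu J x k = (mx J y k - mx J x k) - (mx J y N - mx J x N) + 2 := by
    intro k
    unfold uu
    omega
  have h1 := hE k
  have h2 := hE (k + 1)
  have h3 := mx_up_mono h k
  have h4 := (mx_up h k).1
  have h5 := (mx_up h N).1
  have h6 := uu_le_succ J x k
  have h7 := uu_succ_le J x k
  have h8 := uu_le_succ J y k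
  unfold dd
  omega

theorem sum_dd (J x : Fin N → Bool) :
    ∑ i : Fin N, (dd J x (i + 1) - dd J x i) = dd J x N := by
  rw [Finset.sum_fin_eq_sum_range]
  have h2 : ∑ i ∈ Finset.range N, (dd J x (i + 1) - dd J x i) = dd J x N - dd J x 0 :=
    Finset.sum_range_sub _ _
  rw [dd_zero, sub_zero] at h2
  rw [← h2]
  apply Finset.sum_congr rfl
  intro i hi
  rw [Finset.mem_range] at hi
  rw [dif_pos hi]

theorem lip_gg {J x y : Fin N → Bool} {i : Fin N} (hJ : J i = true) (hx : x i = false)
    (hy : y i = true) (hxy : ∀ j, j ≠ i → x j = y j) :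
    hammingDist (gg J x) (gg J y) ≤ 3 := by
  have h := ht_up hJ hx hy hxy
  have h1 : (hammingDist (gg J x) (gg J y) : ℤ) ≤
      ∑ j : Fin N, ((if j = i then 1 else 0) +
        ((dd J y (j + 1) - dd J y j) - (dd J x (j + 1) - dd J x j))) := by
    rw [hammingDist, Finset.card_filter]
    push_cast
    apply Finset.sum_le_sum
    intro j _
    have h2 := dd_up h j j.2
    have h3 := dd_succ_eq J x j
    have h4 := dd_succ_eq J y j
    by_cases hj : j = i
    · rw [if_pos hj]
      split_ifs <;> omega
    · rw [if_neg hj]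
      by_cases h5 : gg J x j = gg J y j
      · rw [if_neg (by simpa using h5)]; omega
      · rw [if_pos h5]
        have h6 : ¬ (dd J y (j + 1) - dd J y j = dd J x (j + 1) - dd J x j) := by
          intro h7
          apply h5
          unfold gg
          by_cases h8 : dd J x (j + 1) = dd J x j
          · rw [if_pos h8, if_pos (by omega), hxy j hj]
          · rw [if_neg h8, if_neg (by omega), hxy j hj]
        omega
  rw [Finset.sum_add_distrib, Finset.sum_sub_distrib, sum_dd, sum_dd] at h1
  simp only [Finset.sum_ite_eq', Finset.mem_univ, if_true] at h1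
  rw [dd_last, dd_last] at h1
  have hN := h N
  rw [if_neg (by have := i.2; omega)] at hN
  omega

theorem lip_ff_aux {J x y : Fin N → Bool} {i : Fin N} (hJ : J i = true) (hx : x i = false)
    (hy : y i = true) (hxy : ∀ j, j ≠ i → x j = y j) :
    hammingDist (ff J x) (ff J y) ≤ 3 := by
  have hN := ht_up hJ hx hy hxy N
  rw [if_neg (by have := i.2; omega)] at hN
  by_cases h1 : 0 ≤ ht J x N
  · unfold ff
    rw [if_pos h1, if_pos (by omega)]
    exact lip_gg hJ hx hy hxy
  · by_cases h2 : 0 ≤ ht J y N
    · have h3 : hammingDist x y ≤ 1 := by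
        rw [hammingDist, Finset.card_le_one]
        intro a ha b hb
        simp only [Finset.mem_filter, Finset.mem_univ, true_and] at ha hb
        have ha' : a = i := by by_contra h; exact ha (hxy a h)
        have hb' : b = i := by by_contra h; exact hb (hxy b h)
        rw [ha', hb']
      have h4 := dist_ff J x
      have h5 := dist_ff J y
      rw [wz_xr] at h4 h5
      rw [show wz x - ht J x N - wz x = - ht J x N by ring, abs_of_nonneg (by omega)] at h4
      rw [show wz y - ht J y N - wz y = - ht J y N by ring, abs_neg, abs_of_nonneg h2] at h5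
      have h6 := hammingDist_triangle (ff J x) x (ff J y)
      have h7 := hammingDist_triangle x y (ff J y)
      rw [hammingDist_comm (ff J x) x] at h6
      by_cases h8 : ht J y N = 0
      · -- then `ht J x N = -2`
        unfold ff
        rw [if_neg h1, if_pos h2, gg_of_nonpos h8.le]
        have h9 : y = cc (gg J (cc y)) := by
          rw [gg_of_nonpos (by rw [ht_cc]; omega), cc_cc]
        have h10 : hammingDist (cc (gg J (cc x))) y = hammingDist (gg J (cc x)) (gg J (cc y)) := by
          conv_lhs => rw [h9]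
          exact dist_cc _ _
        rw [h10, hammingDist_comm]
        exact lip_gg (i := i) hJ (by simp [cc, hy]) (by simp [cc, hx])
          (fun j hj => by simp [cc, hxy j hj])
      · omega
    · unfold ff
      rw [if_neg h1, if_neg h2, dist_cc, hammingDist_comm]
      exact lip_gg (i := i) hJ (by simp [cc, hy]) (by simp [cc, hx])
        (fun j hj => by simp [cc, hxy j hj])

theorem ht_eq_of_not {J x y : Fin N → Bool} {i : Fin N} (hJ : J i = false)
    (hxy : ∀ j, j ≠ i → x j = y j) (k : ℕ) : ht J x k = ht J y k := by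
  have hst : ∀ k, st J x k = st J y k := by
    intro k
    unfold st
    by_cases hk : k < N
    · rw [dif_pos hk, dif_pos hk]
      by_cases hki : (⟨k, hk⟩ : Fin N) = i
      · rw [hki, hJ]; simp
      · rw [hxy _ hki]
    · rw [dif_neg hk, dif_neg hk]
  induction k with
  | zero => rfl
  | succ k ih => rw [ht_succ, ht_succ, ih, hst]

theorem mx_congr {J x y : Fin N → Bool} (h : ∀ k, ht J x k = ht J y k) (k : ℕ) :
    mx J x k = mx J y k := by
  induction k with
  | zero => rfl
  | succ k ih => rw [mx_succ, mx_succ, ih, h]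

theorem lip_gg_not {J x y : Fin N → Bool} {i : Fin N} (hJ : J i = false)
    (hxy : ∀ j, j ≠ i → x j = y j) : hammingDist (gg J x) (gg J y) ≤ 1 := by
  have h1 := ht_eq_of_not hJ hxy
  have h2 := mx_congr h1
  have h3 : ∀ k, dd J x k = dd J y k := by
    intro k
    unfold dd uu
    rw [h2, h2 N, h1]
  rw [hammingDist, Finset.card_le_one]
  have key : ∀ a, gg J x a ≠ gg J y a → a = i := by
    intro a ha
    by_contra h
    apply ha
    unfold gg
    rw [h3, h3, hxy a h]
  intro a ha b hb
  simp only [Finset.mem_filter, Finset.mem_univ, true_and] at ha hb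
  rw [key a ha, key b hb]

theorem lip_ff {J x y : Fin N → Bool} {i : Fin N} (hxy : ∀ j, j ≠ i → x j = y j) :
    hammingDist (ff J x) (ff J y) ≤ 3 := by
  by_cases hi : x i = y i
  · have : x = y := by
      funext j
      by_cases hj : j = i
      · rw [hj, hi]
      · exact hxy j hj
    rw [this, hammingDist_self]; norm_num
  · cases hJ : J i
    · have h1 := ht_eq_of_not hJ hxy
      unfold ff
      rw [h1 N]
      split_ifs
      · exact (lip_gg_not hJ hxy).trans (by norm_num)
      · rw [dist_cc]
        exact (lip_gg_not (x := cc x) (y := cc y) hJ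
          (fun j hj => by simp [cc, hxy j hj])).trans (by norm_num)
    · cases hx : x i
      · cases hy : y i
        · rw [hx, hy] at hi; exact absurd rfl hi
        · exact lip_ff_aux hJ hx hy hxy
      · cases hy : y i
        · rw [hammingDist_comm]
          exact lip_ff_aux hJ hy hx (fun j hj => (hxy j hj).symm)
        · rw [hx, hy] at hi; exact absurd rfl hi

end Pool.Agent.W167.Stretch
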