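import Pool.Agent.W167.Stretch.Sizes
import Pool.Agent.W167.Stretch.Excess

/-!
The matching of particles with places, for fixed seeds; and mean costs.
-/

set_option autoImplicit false
set_option linter.unusedSectionVars false

namespace Pool.Agent.W167.Stretch

open Finset

variable {N L : ℕ} {U : Type*} [Fintype U] [DecidableEq U] {I k : ℕ}

/-- cost of the levelling -/
noncomputable def CC (U : Type*) [Fintype U] [DecidableEq U] (I k : ℕ)
    (s : U → Fin I → ZZ N L) : ℝ :=
  ∑ t ∈ range L, ((t : ℝ) + 1) * (TT U I k t s + TT U I k (t + 1) s) + ((N : ℝ) + L) * TT U I k L s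

/-- cost of the excess -/
noncomputable def c3 (U : Type*) [Fintype U] (N L k : ℕ) : ℝ :=
  (mb U N L k - 1) * ∑ z ∈ Ball N L k, ((k : ℝ) + 1 - lev z)

theorem TT_nonneg (t : ℕ) (s : U → Fin I → ZZ N L) : 0 ≤ TT U I k t s :=
  sum_nonneg fun _ _ => abs_nonneg _

theorem CC_nonneg (s : U → Fin I → ZZ N L) : 0 ≤ CC U I k s := by
  unfold CC
  have h := fun t => TT_nonneg (k := k) t s
  refine add_nonneg (sum_nonneg fun t _ => ?_) (mul_nonneg (by positivity) (h L))
  have := h t
  have := h (t + 1)
  positivity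

theorem c3_nonneg (hm : 1 ≤ mb U N L k) : 0 ≤ c3 U N L k := by
  unfold c3
  refine mul_nonneg (by linarith) (sum_nonneg fun z hz => ?_)
  rw [mem_Ball] at hz
  have : (lev z : ℝ) ≤ k := by exact_mod_cast hz
  linarith

theorem matching_of_seeds (hk : k + 1 ≤ N + L) (hB : 0 < (Ball N L k).card)
    (h1 : ((Ball N L k).card : ℝ) ≤ Fintype.card U * 2 ^ N)
    (h2 : (Fintype.card U * 2 ^ N : ℝ) ≤ (Ball N L k).card + (Lev N L k).card)
    (s : U → Fin I → ZZ N L) :
    ∃ φ : (Fin N → Bool) × U → ZZ N L, Function.Injective φ ∧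
      (∀ p, φ p ∈ Ball N L k ∨ φ p ∈ Lev N L k) ∧ (∀ z ∈ Ball N L k, ∃ p, φ p = z) ∧
      ∑ p : (Fin N → Bool) × U, dZ (pos Phi (acc k) bas I (s p.2) p.1) (φ p) ≤
        CC U I k s + c3 U N L k := by
  have hBr : (0 : ℝ) < (Ball N L k).card := by exact_mod_cast hB
  have hm : 1 ≤ mb U N L k := by
    unfold mb
    rwa [one_le_div hBr]
  have hnu := nu_nonneg (N := N) (L := L) (U := U) (I := I) (k := k) s
  -- levelling
  have e0 : avgB (bt k 0) (nu U I k s) = nu U I k s := by
    funext z
    exact avgB_of_inj (fun _ _ h => bt_zero h) _ _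
  have t1 := Tr_chain (d := dZ (N := N) (L := L)) dZ_self dZ_triangle (fun t => bt k t)
    (fun t z w h => bt_succ h) (fun t z w h => bt_dist h) hnu L
  simp only [e0] at t1
  have t1' : Tr (dZ (N := N) (L := L)) (nu U I k s) (avgB (bt k L) (nu U I k s))
      (∑ t ∈ range L, ((t : ℝ) + 1) * (TT U I k t s + TT U I k (t + 1) s)) := by
    refine t1.mono (sum_le_sum fun t _ => mul_le_mul_of_nonneg_left ?_ (by positivity))
    unfold TT
    rw [← sum_add_distrib]
    refine sum_le_sum fun z _ => ?_
    have := abs_sub_le (avgB (bt k t) (nu U I k s) z) (if z ∈ Ball N L k then mb U N L k else 0)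
      (avgB (bt k (t + 1)) (nu U I k s) z)
    rw [abs_sub_comm (if z ∈ Ball N L k then mb U N L k else 0)] at this
    exact this
  -- global correction
  have hmb0 : 0 ≤ mb U N L k := by linarith
  have t2 : Tr (dZ (N := N) (L := L)) (avgB (bt k L) (nu U I k s))
      (fun z => if z ∈ Ball N L k then mb U N L k else 0) (((N : ℝ) + L) * TT U I k L s) := by
    unfold TT
    refine Tr.block (fun _ => ()) (avgB_nonneg hnu) (fun z => by split_ifs <;> linarith)
      (by positivity) (fun z => ?_) (fun z w _ => dZ_le z w) dZ_self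
    have hu : (univ.filter (fun _w : ZZ N L => () = ())) = univ := by ext; simp
    rw [hu, sum_univ_avgB, sum_nu]
    rw [← sum_filter, sum_const, nsmul_eq_mul]
    have : (univ.filter (fun z => z ∈ Ball N L k)) = Ball N L k := by ext; simp
    rw [this]
    unfold mb
    field_simp
  -- excess
  obtain ⟨θ, hθ, t3⟩ := Tr_excess (N := N) (L := L) hk hm
  have t := (t1'.trans dZ_triangle hnu t2).trans dZ_triangle hnu t3
  have hLev : 0 < (Lev N L k).card := by
    rw [card_Lev]; exact Nat.choose_pos hk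
  have hLr : (0 : ℝ) < (Lev N L k).card := by exact_mod_cast hLev
  have hθ1 : θ ≤ 1 := by
    have h3 : (mb U N L k - 1) * (Ball N L k).card = Fintype.card U * 2 ^ N - (Ball N L k).card := by
      unfold mb
      field_simp
    rw [h3] at hθ
    have h4 : θ * (Lev N L k).card ≤ 1 * (Lev N L k).card := by rw [hθ]; linarith
    exact le_of_mul_le_mul_right h4 hLr
  have hc : 0 ≤ CC U I k s + c3 U N L k := add_nonneg (CC_nonneg s) (c3_nonneg hm)
  exact exists_matching dZ_nonneg (fun p : (Fin N → Bool) × U => pos Phi (acc k) bas I (s p.2) p.1)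
    (Ball N L k) (Lev N L k) (disj_Ball_Lev N L k) hθ1 hc t

end Pool.Agent.W167.Stretch
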