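import Pool.Agent.W167.Stretch.Match

/-!
Mean costs.
-/

set_option autoImplicit false
set_option linter.unusedSectionVars false

namespace Pool.Agent.W167.Stretch

open Finset

variable {N L : ℕ}

theorem E_levdev (N L : ℕ) :
    E (fun z : ZZ N L => |(lev z : ℝ) - ((N + L : ℕ) : ℝ) / 2|) ≤ 2 * Real.sqrt (N + L : ℕ) := by
  have h1 : ∀ z : ZZ N L, |(lev z : ℝ) - ((N + L : ℕ) : ℝ) / 2| ≤
      |(wz z.1 : ℝ) - N / 2| + |(wz z.2 : ℝ) - L / 2| := by
    intro z
    have e : (lev z : ℝ) - ((N + L : ℕ) : ℝ) / 2 = ((wz z.1 : ℝ) - N / 2) + ((wz z.2 : ℝ) - L / 2) := by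
      unfold lev; push_cast; ring
    rw [e]; exact abs_add_le _ _
  refine (E_mono h1).trans ?_
  rw [E_add, E_prod, E_prod]
  have h2 : E (fun y : Fin N → Bool => E (fun _c : Fin L → Bool => |(wz y : ℝ) - N / 2|)) ≤
      Real.sqrt N := by
    simp_rw [E_const]
    exact E_wz N
  have h3 : E (fun _y : Fin N → Bool => E (fun c : Fin L → Bool => |(wz c : ℝ) - L / 2|)) ≤
      Real.sqrt L := by
    have : E (fun _y : Fin N → Bool => E (fun c : Fin L → Bool => |(wz c : ℝ) - L / 2|)) =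
        E (fun c : Fin L → Bool => |(wz c : ℝ) - L / 2|) := E_const _
    rw [this]
    exact E_wz L
  have h4 : Real.sqrt N ≤ Real.sqrt (N + L : ℕ) := Real.sqrt_le_sqrt (by push_cast; linarith [(Nat.cast_nonneg L : (0:ℝ) ≤ L)])
  have h5 : Real.sqrt L ≤ Real.sqrt (N + L : ℕ) := Real.sqrt_le_sqrt (by push_cast; linarith [(Nat.cast_nonneg N : (0:ℝ) ≤ N)])
  simp only at h2 h3 ⊢
  linarith

theorem sum_levdev (N L : ℕ) :
    ∑ z : ZZ N L, |(lev z : ℝ) - ((N + L : ℕ) : ℝ) / 2| ≤ 2 ^ (N + L) * (2 * Real.sqrt (N + L : ℕ)) := by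
  have h := E_levdev N L
  unfold E at h
  rw [card_ZZ, div_le_iff₀ (by positivity)] at h
  linarith

theorem sum_dev (N : ℕ) : ∑ x : Fin N → Bool, dev x ≤ 2 ^ N * Real.sqrt N := by
  have h := E_wz N
  unfold E at h
  rw [div_le_iff₀ (by exact_mod_cast Fintype.card_pos)] at h
  rw [Fintype.card_fun, Fintype.card_bool, Fintype.card_fin] at h
  push_cast at h
  unfold dev
  linarith

/-- the radius is near the middle -/
theorem radius_lower {k : ℕ} (hq : 1 / 8 ≤ qq N L k) :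
    ((N + L : ℕ) : ℝ) / 2 - k ≤ 16 * Real.sqrt (N + L : ℕ) := by
  set a : ℝ := ((N + L : ℕ) : ℝ) / 2 - k with ha
  by_cases h0 : a ≤ 0
  · exact h0.trans (by positivity)
  · push Not at h0
    have h1 : ∑ z ∈ Ball N L k, a ≤ ∑ z : ZZ N L, |(lev z : ℝ) - ((N + L : ℕ) : ℝ) / 2| := by
      calc ∑ z ∈ Ball N L k, a ≤ ∑ z ∈ Ball N L k, |(lev z : ℝ) - ((N + L : ℕ) : ℝ) / 2| := by
            refine sum_le_sum fun z hz => ?_
            rw [mem_Ball] at hz
            have h2 : (lev z : ℝ) ≤ k := by exact_mod_cast hz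
            rw [abs_sub_comm]
            refine le_trans ?_ (le_abs_self _)
            linarith
        _ ≤ _ := sum_le_sum_of_subset_of_nonneg (subset_univ _) fun _ _ _ => abs_nonneg _
    rw [sum_const, nsmul_eq_mul] at h1
    have h2 := h1.trans (sum_levdev N L)
    have h3 : ((Ball N L k).card : ℝ) = qq N L k * 2 ^ (N + L) := by
      rw [qq, div_mul_cancel₀]; positivity
    rw [h3] at h2
    have h4 : (0 : ℝ) < 2 ^ (N + L) := by positivity
    have h5 : qq N L k * a ≤ 2 * Real.sqrt (N + L : ℕ) := by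
      have : 2 ^ (N + L) * (qq N L k * a) ≤ 2 ^ (N + L) * (2 * Real.sqrt (N + L : ℕ)) := by linarith
      exact le_of_mul_le_mul_left this h4
    have h6 : 1 / 8 * a ≤ qq N L k * a := mul_le_mul_of_nonneg_right hq h0.le
    linarith

/-- cost of the excess -/
theorem c3_le {U : Type*} [Fintype U] {k : ℕ} (hU : (4 : ℝ) * Fintype.card U = 2 ^ L)
    (hq : 1 / 8 ≤ qq N L k) (hM : 0 < N + L)
    (h1 : ((Ball N L k).card : ℝ) ≤ Fintype.card U * 2 ^ N)
    (h2 : (Fintype.card U * 2 ^ N : ℝ) ≤ (Ball N L k).card + (Lev N L k).card)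
    (hk : 2 * (k + 1) ≤ N + L) : c3 U N L k ≤ 64 * (Fintype.card U * 2 ^ N) := by
  set P : ℝ := Fintype.card U * 2 ^ N with hP
  have hP4 : 4 * P = 2 ^ (N + L) := by rw [hP, pow_add, ← hU]; ring
  have hs : 0 < Real.sqrt (N + L : ℕ) := Real.sqrt_pos.2 (by exact_mod_cast hM)
  have hBe : ((Ball N L k).card : ℝ) = qq N L k * 2 ^ (N + L) := by
    rw [qq, div_mul_cancel₀]; positivity
  have hP0 : 0 < P := by
    have : (0 : ℝ) < 2 ^ (N + L) := by positivity
    linarith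
  have hB : P / 2 ≤ (Ball N L k).card := by
    rw [hBe, ← hP4]
    have := mul_le_mul_of_nonneg_right hq hP0.le
    linarith
  have hB0 : (0 : ℝ) < (Ball N L k).card := by linarith
  have hLev : ((Lev N L k).card : ℝ) * Real.sqrt (N + L : ℕ) ≤ 4 * P := by
    rw [card_Lev, hP4]; exact choose_le _ _
  have hmb : mb U N L k - 1 ≤ 8 / Real.sqrt (N + L : ℕ) := by
    have e1 : mb U N L k - 1 = (P - (Ball N L k).card) / (Ball N L k).card := by
      unfold mb; rw [sub_div, div_self hB0.ne']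
    rw [e1, div_le_div_iff₀ hB0 hs]
    have : (P - (Ball N L k).card) * Real.sqrt (N + L : ℕ) ≤
        (Lev N L k).card * Real.sqrt (N + L : ℕ) :=
      mul_le_mul_of_nonneg_right (by linarith) hs.le
    linarith
  have hmb0 : 0 ≤ mb U N L k - 1 := by
    have : 1 ≤ mb U N L k := by
      unfold mb
      rwa [one_le_div hB0]
    linarith
  have hsum : ∑ z ∈ Ball N L k, ((k : ℝ) + 1 - lev z) ≤ 4 * P * (2 * Real.sqrt (N + L : ℕ)) := by
    rw [hP4]
    refine le_trans ?_ (sum_levdev N L)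
    calc ∑ z ∈ Ball N L k, ((k : ℝ) + 1 - lev z)
        ≤ ∑ z ∈ Ball N L k, |(lev z : ℝ) - ((N + L : ℕ) : ℝ) / 2| := by
          refine sum_le_sum fun z _ => ?_
          rw [abs_sub_comm]
          refine le_trans ?_ (le_abs_self _)
          have : (2 * (k + 1) : ℝ) ≤ ((N + L : ℕ) : ℝ) := by exact_mod_cast hk
          linarith
      _ ≤ _ := sum_le_sum_of_subset_of_nonneg (subset_univ _) fun _ _ _ => abs_nonneg _
  have hsum0 : 0 ≤ ∑ z ∈ Ball N L k, ((k : ℝ) + 1 - lev z) := by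
    refine sum_nonneg fun z hz => ?_
    rw [mem_Ball] at hz
    have : (lev z : ℝ) ≤ k := by exact_mod_cast hz
    linarith
  unfold c3
  calc (mb U N L k - 1) * ∑ z ∈ Ball N L k, ((k : ℝ) + 1 - lev z)
      ≤ 8 / Real.sqrt (N + L : ℕ) * (4 * P * (2 * Real.sqrt (N + L : ℕ))) :=
        mul_le_mul hmb hsum hsum0 (by positivity)
    _ = 64 * P := by field_simp; ring

theorem geom_bound (T : ℕ) : ∑ t ∈ range T, ((t : ℝ) + 1) * (3 / 4) ^ t =
    16 - (3 / 4) ^ T * (4 * T + 16) := by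
  induction T with
  | zero => simp
  | succ T ih =>
    rw [sum_range_succ, ih, pow_succ]; push_cast; ring

theorem sqrt_pow_le (t : ℕ) : 1 / Real.sqrt (2 ^ t) ≤ (3 / 4 : ℝ) ^ t := by
  have h1 : (4 / 3 : ℝ) ^ t ≤ Real.sqrt (2 ^ t) := by
    apply Real.le_sqrt_of_sq_le
    rw [← pow_mul, mul_comm t 2, pow_mul]
    exact pow_le_pow_left₀ (by norm_num) (by norm_num) t
  have h2 : (3 / 4 : ℝ) ^ t = 1 / (4 / 3) ^ t := by
    rw [← one_div_pow]; norm_num
  rw [h2]
  exact one_div_le_one_div_of_le (by positivity) h1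

theorem sum_t (L : ℕ) : ∑ t ∈ range L, ((t : ℝ) + 1) ≤ (L : ℝ) ^ 2 := by
  induction L with
  | zero => simp
  | succ L ih =>
    rw [sum_range_succ]
    push_cast
    nlinarith [(Nat.cast_nonneg L : (0 : ℝ) ≤ L)]

/-- mean cost of the levelling -/
theorem E_CC {U : Type*} [Fintype U] [DecidableEq U] {I k : ℕ}
    (hU : (4 : ℝ) * Fintype.card U = 2 ^ L) (hN : 0 < N)
    (hq : 1 / 8 ≤ qq N L k) (h1 : ((Ball N L k).card : ℝ) ≤ Fintype.card U * 2 ^ N)
    (hL3 : (L : ℝ) ^ 3 ≤ Real.sqrt N) (hL2 : ((N : ℝ) + L) ≤ Real.sqrt (2 ^ L))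
    (hr : (1 - qq N L k) ^ I * ((N : ℝ) + L + L ^ 2) ≤ 1) :
    E (fun s : U → Fin I → ZZ N L => CC U I k s) ≤ 300 * (Fintype.card U * 2 ^ N) := by
  set q := qq N L k with hqdef
  set P : ℝ := Fintype.card U * 2 ^ N with hP
  set r : ℝ := (1 - q) ^ I with hrdef
  have hq1 : q ≤ 1 := qq_le_one N L k
  have hq0 : 0 < q := by linarith
  have hr0 : 0 ≤ r := pow_nonneg (by linarith) _
  have hP4 : 4 * P = 2 ^ (N + L) := by rw [hP, pow_add, ← hU]; ring
  have hP0 : 0 < P := by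
    have : (0 : ℝ) < 2 ^ (N + L) := by positivity
    linarith
  have hs : 0 < Real.sqrt N := Real.sqrt_pos.2 (by exact_mod_cast hN)
  have hL0 : (0 : ℝ) ≤ L := Nat.cast_nonneg _
  have hN0 : (0 : ℝ) ≤ N := Nat.cast_nonneg _
  set p : ℝ := ((part N L k).card : ℝ) with hp
  have hp0 : 0 ≤ p := Nat.cast_nonneg _
  have hc : Real.sqrt (Fintype.card U * ((1 + 2 / q) / q) / 2 ^ L) ≤ 6 := by
    rw [Real.sqrt_le_left (by norm_num)]
    have e1 : (Fintype.card U : ℝ) * ((1 + 2 / q) / q) / 2 ^ L = (1 + 2 / q) / q / 4 := by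
      have h2 : (0 : ℝ) < 2 ^ L := by positivity
      have h3 : (Fintype.card U : ℝ) = 2 ^ L / 4 := by linarith
      rw [h3]; field_simp
    rw [e1]
    have h2 : 2 / q ≤ 16 := by rw [div_le_iff₀ hq0]; linarith
    have h3 : (1 + 2 / q) / q ≤ 17 * 8 := by
      rw [div_le_iff₀ hq0]; nlinarith
    linarith
  have hSS0 : ∀ t, 0 ≤ SS N L k t := fun t => sum_nonneg fun _ _ => by positivity
  have hT : ∀ t, E (fun s : U → Fin I → ZZ N L => TT U I k t s) ≤ 6 * SS N L k t + 2 * (P * r) := by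
    intro t
    refine (E_TT hq0 t).trans ?_
    have := mul_le_mul_of_nonneg_right hc (hSS0 t)
    linarith
  have hSS : ∀ t, t ≤ L → SS N L k t ≤ P * (3 / 4) ^ t + p := by
    intro t ht
    refine (SS_le ht).trans (add_le_add ?_ le_rfl)
    exact mul_le_mul h1 (sqrt_pow_le t) (by positivity) hP0.le
  have e1 : ∀ s : U → Fin I → ZZ N L, CC U I k s =
      ∑ t ∈ range L, ((t : ℝ) + 1) * (TT U I k t s + TT U I k (t + 1) s) +
        ((N : ℝ) + L) * TT U I k L s := fun s => rfl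
  rw [E_congr e1, E_add, E_sum, E_mul_left]
  have h2 : ∀ t ∈ range L, E (fun s : U → Fin I → ZZ N L =>
      ((t : ℝ) + 1) * (TT U I k t s + TT U I k (t + 1) s)) ≤
      12 * P * (((t : ℝ) + 1) * (3 / 4) ^ t) + (12 * p + 4 * (P * r)) * ((t : ℝ) + 1) := by
    intro t ht
    rw [mem_range] at ht
    rw [E_mul_left, E_add]
    have a1 := hT t
    have a2 := hT (t + 1)
    have a3 := hSS t ht.le
    have a4 := hSS (t + 1) ht
    have a5 : (3 / 4 : ℝ) ^ (t + 1) ≤ (3 / 4) ^ t := by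
      rw [pow_succ]
      have : (0 : ℝ) < (3 / 4) ^ t := by positivity
      linarith
    have a6 : P * (3 / 4 : ℝ) ^ (t + 1) ≤ P * (3 / 4) ^ t := mul_le_mul_of_nonneg_left a5 hP0.le
    have a7 : E (fun s : U → Fin I → ZZ N L => TT U I k t s) +
        E (fun s : U → Fin I → ZZ N L => TT U I k (t + 1) s) ≤
        12 * P * (3 / 4) ^ t + (12 * p + 4 * (P * r)) := by linarith
    have a8 := mul_le_mul_of_nonneg_left a7 (by positivity : (0 : ℝ) ≤ (t : ℝ) + 1)
    linarith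
  have h3 : ∑ t ∈ range L, E (fun s : U → Fin I → ZZ N L =>
      ((t : ℝ) + 1) * (TT U I k t s + TT U I k (t + 1) s)) ≤
      12 * P * 16 + (12 * p + 4 * (P * r)) * (L : ℝ) ^ 2 := by
    refine (sum_le_sum h2).trans ?_
    rw [sum_add_distrib, ← mul_sum, ← mul_sum, geom_bound]
    refine add_le_add (mul_le_mul_of_nonneg_left ?_ (by positivity))
      (mul_le_mul_of_nonneg_left (sum_t L) (by positivity))
    have : (0 : ℝ) ≤ (3 / 4) ^ L * (4 * L + 16) := by positivity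
    linarith
  have h4 : p * (L : ℝ) ^ 2 ≤ 4 * P := by
    have h5 := part_le (N := N) (L := L) k hN
    rw [← hP4] at h5
    have h6 : p * (L : ℝ) ^ 2 ≤ (L * (4 * P) / Real.sqrt N) * (L : ℝ) ^ 2 :=
      mul_le_mul_of_nonneg_right h5 (by positivity)
    have h7 : (L * (4 * P) / Real.sqrt N) * (L : ℝ) ^ 2 = 4 * P * ((L : ℝ) ^ 3 / Real.sqrt N) := by
      field_simp
    have h8 : (L : ℝ) ^ 3 / Real.sqrt N ≤ 1 := by rwa [div_le_one hs]
    have h9 := mul_le_mul_of_nonneg_left h8 (by positivity : 0 ≤ 4 * P)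
    linarith
  have h5 : ((N : ℝ) + L) * E (fun s : U → Fin I → ZZ N L => TT U I k L s) ≤
      24 * P + 2 * P * (r * ((N : ℝ) + L)) := by
    have a1 := hT L
    have a2 := SS_top (N := N) (L := L) k
    have hs2 : 0 < Real.sqrt (2 ^ L) := by positivity
    have a3 : (2 : ℝ) ^ N * Real.sqrt (2 ^ L) * Real.sqrt (2 ^ L) = 4 * P := by
      rw [mul_assoc, Real.mul_self_sqrt (by positivity), ← pow_add, hP4]
    have a4 : ((N : ℝ) + L) * ((2 : ℝ) ^ N * Real.sqrt (2 ^ L)) ≤ 4 * P := by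
      rw [← a3, mul_comm]
      exact mul_le_mul_of_nonneg_left hL2 (by positivity)
    have a5 := mul_le_mul_of_nonneg_left a1 (by positivity : (0 : ℝ) ≤ (N : ℝ) + L)
    have a6 := mul_le_mul_of_nonneg_left a2 (by positivity : (0 : ℝ) ≤ (N : ℝ) + L)
    linarith
  have h6 : P * r * (L : ℝ) ^ 2 + P * (r * ((N : ℝ) + L)) ≤ P := by
    have h7 := mul_le_mul_of_nonneg_left hr hP0.le
    have h8 : P * (r * ((N : ℝ) + L + L ^ 2)) = P * r * (L : ℝ) ^ 2 + P * (r * ((N : ℝ) + L)) := by ring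
    linarith
  have h7 : 0 ≤ P * (r * ((N : ℝ) + L)) := by positivity
  have h8 : 0 ≤ P * r * (L : ℝ) ^ 2 := by positivity
  have h9 : (12 * p + 4 * (P * r)) * (L : ℝ) ^ 2 = 12 * (p * (L : ℝ) ^ 2) + 4 * (P * r * (L : ℝ) ^ 2) := by
    ring
  rw [h9] at h3
  linarith

end Pool.Agent.W167.Stretch
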