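import Pool.Agent.W167.Stretch.Means

/-!
The embedding of the product of cubes with bounded average stretch.
-/

set_option autoImplicit false
set_option linter.unusedSectionVars false

namespace Pool.Agent.W167.Stretch

open Finset

variable {N L' : ℕ}

/-- flip one coordinate -/
def fl {n : ℕ} (x : Fin n → Bool) (i : Fin n) : Fin n → Bool := Function.update x i (!x i)

theorem fl_adj {n : ℕ} (x : Fin n → Bool) (i : Fin n) : ∀ j, j ≠ i → x j = fl x i j := by
  intro j hj
  unfold fl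
  rw [Function.update_of_ne hj]

/-- total stretch in the first directions -/
noncomputable def AA (I k : ℕ) (s : (Fin L' → Bool) → Fin I → ZZ N (L' + 2)) : ℝ :=
  ∑ u, ∑ x, ∑ i : Fin N, dZ (pos Phi (acc k) bas I (s u) x) (pos Phi (acc k) bas I (s u) (fl x i))

/-- total stretch in the label directions -/
noncomputable def BB (I k : ℕ) (s : (Fin L' → Bool) → Fin I → ZZ N (L' + 2)) : ℝ :=
  ∑ u, ∑ x, ∑ j : Fin L', dZ (pos Phi (acc k) bas I (s u) x) (pos Phi (acc k) bas I (s (fl u j)) x)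

theorem card_U (L' : ℕ) : (Fintype.card (Fin L' → Bool) : ℝ) = 2 ^ L' := by
  rw [Fintype.card_fun, Fintype.card_bool, Fintype.card_fin]; push_cast; rfl

theorem E_AA {I k : ℕ} (hN : 0 < N) (hq : 1 / 8 ≤ qq N (L' + 2) k)
    (hk : |(k : ℝ) - N / 2| ≤ 17 * Real.sqrt (N + (L' + 2) : ℕ))
    (hL : 4 * ((L' : ℝ) + 2) + 3 ≤ 7 * Real.sqrt (N + (L' + 2) : ℕ)) :
    E (fun s : (Fin L' → Bool) → Fin I → ZZ N (L' + 2) => AA I k s) ≤
      4000 * (2 ^ L' * 2 ^ N) * N := by
  set q := qq N (L' + 2) k with hqdef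
  have hq0 : 0 < q := by linarith
  set R := Real.sqrt (N + (L' + 2) : ℕ) with hR
  have hR0 : 0 < R := Real.sqrt_pos.2 (by exact_mod_cast (by omega : 0 < N + (L' + 2)))
  have hNR : Real.sqrt N ≤ R := Real.sqrt_le_sqrt (by push_cast; linarith [(Nat.cast_nonneg L' : (0:ℝ) ≤ L')])
  unfold AA
  rw [E_sum]
  have h1 : ∀ u ∈ (univ : Finset (Fin L' → Bool)),
      E (fun s : (Fin L' → Bool) → Fin I → ZZ N (L' + 2) =>
        ∑ x, ∑ i : Fin N, dZ (pos Phi (acc k) bas I (s u) x) (pos Phi (acc k) bas I (s u) (fl x i))) ≤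
      4000 * 2 ^ N * N := by
    intro u _
    rw [E_eval u (fun a : Fin I → ZZ N (L' + 2) =>
        ∑ x, ∑ i : Fin N, dZ (pos Phi (acc k) bas I a x) (pos Phi (acc k) bas I a (fl x i))), E_sum]
    have h2 : ∀ x ∈ (univ : Finset (Fin N → Bool)), E (fun a : Fin I → ZZ N (L' + 2) =>
        ∑ i : Fin N, dZ (pos Phi (acc k) bas I a x) (pos Phi (acc k) bas I a (fl x i))) ≤
        N * (3 + 128 / R * (26 * R + 3 * dev x)) := by
      intro x _
      rw [E_sum]
      have h3 : ∀ i ∈ (univ : Finset (Fin N)), E (fun a : Fin I → ZZ N (L' + 2) =>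
          dZ (pos Phi (acc k) bas I a x) (pos Phi (acc k) bas I a (fl x i))) ≤
          3 + 128 / R * (26 * R + 3 * dev x) := by
        intro i _
        refine (stretch_adj hq0 (fl_adj x i) I).trans ?_
        have hd : 0 ≤ dev x := abs_nonneg _
        have hq2 : 1 / 64 ≤ q ^ 2 := by nlinarith
        have hq20 : 0 < q ^ 2 := by positivity
        have h4 : |(k : ℝ) - N / 2| + 3 * dev x + 2 * Real.sqrt N + 4 * ((L' + 2 : ℕ) : ℝ) + 3 ≤
            26 * R + 3 * dev x := by push_cast; linarith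
        have h5 : 2 / R * (|(k : ℝ) - N / 2| + 3 * dev x + 2 * Real.sqrt N + 4 * ((L' + 2 : ℕ) : ℝ) + 3) ≤
            2 / R * (26 * R + 3 * dev x) := mul_le_mul_of_nonneg_left h4 (by positivity)
        have h6 : 0 ≤ 2 / R * (26 * R + 3 * dev x) := by positivity
        have h7 : 2 / R * (|(k : ℝ) - N / 2| + 3 * dev x + 2 * Real.sqrt N + 4 * ((L' + 2 : ℕ) : ℝ) + 3) / q ^ 2 ≤
            64 * (2 / R * (26 * R + 3 * dev x)) := by
          rw [div_le_iff₀ hq20]
          have := mul_le_mul_of_nonneg_left hq2 h6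
          linarith
        have h8 : 64 * (2 / R * (26 * R + 3 * dev x)) = 128 / R * (26 * R + 3 * dev x) := by ring
        linarith
      refine (sum_le_sum h3).trans (le_of_eq ?_)
      rw [sum_const, card_univ, Fintype.card_fin, nsmul_eq_mul]
    refine (sum_le_sum h2).trans ?_
    have h3 : ∀ x : Fin N → Bool, (N : ℝ) * (3 + 128 / R * (26 * R + 3 * dev x)) =
        N * 3331 + N * (384 / R) * dev x := by
      intro x; field_simp; ring
    simp_rw [h3]
    have hms : ∑ x : Fin N → Bool, (N : ℝ) * (384 / R) * dev x =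
        (N : ℝ) * (384 / R) * ∑ x : Fin N → Bool, dev x := (mul_sum _ _ _).symm
    rw [sum_add_distrib, hms, sum_const, card_univ, nsmul_eq_mul, Fintype.card_fun,
      Fintype.card_bool, Fintype.card_fin]
    push_cast
    have h4 : (N : ℝ) * (384 / R) * ∑ x : Fin N → Bool, dev x ≤ N * 384 * 2 ^ N := by
      have h5 : (N : ℝ) * (384 / R) * ∑ x : Fin N → Bool, dev x ≤ N * (384 / R) * (2 ^ N * R) := by
        refine mul_le_mul_of_nonneg_left ((sum_dev N).trans ?_) (by positivity)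
        exact mul_le_mul_of_nonneg_left hNR (by positivity)
      have h6 : (N : ℝ) * (384 / R) * (2 ^ N * R) = N * 384 * 2 ^ N := by field_simp
      linarith
    have h7 : (0 : ℝ) ≤ 2 ^ N * N := by positivity
    nlinarith
  refine (sum_le_sum h1).trans (le_of_eq ?_)
  rw [sum_const, card_univ, nsmul_eq_mul, card_U]
  ring

theorem E_BB {I k : ℕ} (hq : 1 / 8 ≤ qq N (L' + 2) k)
    (hL : ((L' : ℝ) + 2) ≤ Real.sqrt (N + (L' + 2) : ℕ)) :
    E (fun s : (Fin L' → Bool) → Fin I → ZZ N (L' + 2) => BB I k s) ≤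
      48 * (2 ^ L' * 2 ^ N) * (N + (L' + 2) : ℕ) := by
  set q := qq N (L' + 2) k with hqdef
  have hq0 : 0 < q := by linarith
  set R := Real.sqrt (N + (L' + 2) : ℕ) with hR
  have hR0 : 0 ≤ R := Real.sqrt_nonneg _
  have hRR : R * R = (N + (L' + 2) : ℕ) := Real.mul_self_sqrt (Nat.cast_nonneg _)
  have hNR : Real.sqrt N ≤ R := Real.sqrt_le_sqrt (by push_cast; linarith [(Nat.cast_nonneg L' : (0:ℝ) ≤ L')])
  unfold BB
  rw [E_sum]
  have h1 : ∀ u ∈ (univ : Finset (Fin L' → Bool)),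
      E (fun s : (Fin L' → Bool) → Fin I → ZZ N (L' + 2) =>
        ∑ x, ∑ j : Fin L', dZ (pos Phi (acc k) bas I (s u) x) (pos Phi (acc k) bas I (s (fl u j)) x)) ≤
      48 * 2 ^ N * (N + (L' + 2) : ℕ) := by
    intro u _
    rw [E_sum]
    have h2 : ∀ x ∈ (univ : Finset (Fin N → Bool)),
        E (fun s : (Fin L' → Bool) → Fin I → ZZ N (L' + 2) =>
        ∑ j : Fin L', dZ (pos Phi (acc k) bas I (s u) x) (pos Phi (acc k) bas I (s (fl u j)) x)) ≤
        L' * (16 * (2 * R + dev x)) := by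
      intro x _
      rw [E_sum]
      have h3 : ∀ j ∈ (univ : Finset (Fin L')),
          E (fun s : (Fin L' → Bool) → Fin I → ZZ N (L' + 2) =>
          dZ (pos Phi (acc k) bas I (s u) x) (pos Phi (acc k) bas I (s (fl u j)) x)) ≤
          16 * (2 * R + dev x) := by
        intro j _
        have h4 : ∀ s : (Fin L' → Bool) → Fin I → ZZ N (L' + 2),
            dZ (pos Phi (acc k) bas I (s u) x) (pos Phi (acc k) bas I (s (fl u j)) x) ≤
            dZ (bas x) (pos Phi (acc k) bas I (s u) x) +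
              dZ (bas x) (pos Phi (acc k) bas I (s (fl u j)) x) := by
          intro s
          have := dZ_triangle (pos Phi (acc k) bas I (s u) x) (bas x)
            (pos Phi (acc k) bas I (s (fl u j)) x)
          rw [dZ_comm (pos Phi (acc k) bas I (s u) x) (bas x)] at this
          exact this
        refine (E_mono h4).trans ?_
        rw [E_add]
        have h5 := fun v : Fin L' → Bool =>
          E_eval v (fun a : Fin I → ZZ N (L' + 2) => dZ (bas x) (pos Phi (acc k) bas I a x))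
        rw [h5 u, h5 (fl u j)]
        have h6 := disp_bound hq0 x I
        have hd : 0 ≤ dev x := abs_nonneg _
        have h7 : (Real.sqrt N + dev x + ((L' + 2 : ℕ) : ℝ)) / q ≤ 8 * (2 * R + dev x) := by
          rw [div_le_iff₀ hq0]
          have h8 : Real.sqrt N + dev x + ((L' + 2 : ℕ) : ℝ) ≤ 2 * R + dev x := by
            push_cast; linarith
          have h9 : 0 ≤ 2 * R + dev x := by positivity
          nlinarith
        linarith
      refine (sum_le_sum h3).trans (le_of_eq ?_)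
      rw [sum_const, card_univ, Fintype.card_fin, nsmul_eq_mul]
    refine (sum_le_sum h2).trans ?_
    have h3 : ∀ x : Fin N → Bool, (L' : ℝ) * (16 * (2 * R + dev x)) =
        L' * 32 * R + L' * 16 * dev x := by
      intro x; ring
    simp_rw [h3]
    have hms : ∑ x : Fin N → Bool, (L' : ℝ) * 16 * dev x =
        (L' : ℝ) * 16 * ∑ x : Fin N → Bool, dev x := (mul_sum _ _ _).symm
    rw [sum_add_distrib, hms, sum_const, card_univ, nsmul_eq_mul, Fintype.card_fun,
      Fintype.card_bool, Fintype.card_fin]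
    push_cast
    have h4 : (L' : ℝ) * 16 * ∑ x : Fin N → Bool, dev x ≤ L' * 16 * (2 ^ N * R) :=
      mul_le_mul_of_nonneg_left ((sum_dev N).trans (mul_le_mul_of_nonneg_left hNR (by positivity)))
        (by positivity)
    have h5 : (L' : ℝ) * R ≤ R * R := mul_le_mul_of_nonneg_right (by linarith) hR0
    rw [hRR] at h5
    push_cast at h5
    have h6 : (0 : ℝ) ≤ 2 ^ N := by positivity
    nlinarith
  refine (sum_le_sum h1).trans (le_of_eq ?_)
  rw [sum_const, card_univ, nsmul_eq_mul, card_U]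
  ring

/-- The embedding with bounded average stretch. -/
theorem exists_embedding {k : ℕ} (hN : 0 < N) (hq : 1 / 8 ≤ qq N (L' + 2) k)
    (hk : |(k : ℝ) - N / 2| ≤ 17 * Real.sqrt (N + (L' + 2) : ℕ))
    (hL : 4 * ((L' : ℝ) + 2) + 3 ≤ 7 * Real.sqrt (N + (L' + 2) : ℕ))
    (hL1 : ((L' : ℝ) + 2) ≤ Real.sqrt (N + (L' + 2) : ℕ))
    (h1 : ((Ball N (L' + 2) k).card : ℝ) ≤ 2 ^ L' * 2 ^ N)
    (h2 : (2 ^ L' * 2 ^ N : ℝ) ≤ (Ball N (L' + 2) k).card + (Lev N (L' + 2) k).card)
    (hk2 : 2 * (k + 1) ≤ N + (L' + 2))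
    (hL3 : ((L' + 2 : ℕ) : ℝ) ^ 3 ≤ Real.sqrt N)
    (hL2 : ((N : ℝ) + ((L' + 2 : ℕ) : ℝ)) ≤ Real.sqrt (2 ^ (L' + 2))) :
    ∃ φ : (Fin N → Bool) × (Fin L' → Bool) → ZZ N (L' + 2), Function.Injective φ ∧
      (∀ p, φ p ∈ Ball N (L' + 2) k ∨ φ p ∈ Lev N (L' + 2) k) ∧
      (∀ z ∈ Ball N (L' + 2) k, ∃ p, φ p = z) ∧
      ∑ p : (Fin N → Bool) × (Fin L' → Bool),
        (∑ i : Fin N, dZ (φ p) (φ (fl p.1 i, p.2)) + ∑ j : Fin L', dZ (φ p) (φ (p.1, fl p.2 j))) ≤
        5000 * (2 ^ L' * 2 ^ N) * (N + (L' + 2) : ℕ) := by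
  classical
  set L := L' + 2 with hLdef
  set q := qq N L k with hqdef
  have hq0 : 0 < q := by linarith
  have hq1 : q ≤ 1 := qq_le_one N L k
  set P : ℝ := 2 ^ L' * 2 ^ N with hP
  have hP0 : 0 < P := by positivity
  have hcU : (Fintype.card (Fin L' → Bool) : ℝ) = 2 ^ L' := card_U L'
  have hU : (4 : ℝ) * Fintype.card (Fin L' → Bool) = 2 ^ L := by
    rw [hcU, hLdef, pow_add]; ring
  have hB : 0 < (Ball N L k).card := by
    have h3 : ((Ball N L k).card : ℝ) = q * 2 ^ (N + L) := by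
      rw [hqdef, qq, div_mul_cancel₀]; positivity
    have : (0 : ℝ) < (Ball N L k).card := by rw [h3]; positivity
    exact_mod_cast this
  -- choose the number of rounds
  obtain ⟨I, hI⟩ : ∃ I : ℕ, (1 - q) ^ I * ((N : ℝ) + L + (L : ℝ) ^ 2) ≤ 1 := by
    have h3 : (0 : ℝ) < 1 / ((N : ℝ) + L + (L : ℝ) ^ 2) := by
      have : (0 : ℝ) < N := by exact_mod_cast hN
      positivity
    obtain ⟨I, hI⟩ := exists_pow_lt_of_lt_one h3 (by linarith : 1 - q < 1)
    refine ⟨I, ?_⟩
    have : (0 : ℝ) < (N : ℝ) + L + (L : ℝ) ^ 2 := by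
      have : (0 : ℝ) < N := by exact_mod_cast hN
      positivity
    rw [lt_div_iff₀ this] at hI
    exact hI.le
  have h1' : ((Ball N L k).card : ℝ) ≤ Fintype.card (Fin L' → Bool) * 2 ^ N := by rw [hcU]; exact h1
  have h2' : (Fintype.card (Fin L' → Bool) * 2 ^ N : ℝ) ≤ (Ball N L k).card + (Lev N L k).card := by
    rw [hcU]; exact h2
  -- the seeds
  set M : ℝ := ((N + L : ℕ) : ℝ) with hM
  have hM0 : 0 < M := by rw [hM]; exact_mod_cast (by omega : 0 < N + L)
  have hNM : (N : ℝ) ≤ M := by rw [hM]; push_cast; linarith [(Nat.cast_nonneg L : (0:ℝ) ≤ L)]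
  obtain ⟨s, hs⟩ := exists_le_E (fun s : (Fin L' → Bool) → Fin I → ZZ N L =>
    (AA I k s + BB I k s) + (2 * M) * CC (Fin L' → Bool) I k s)
  rw [E_add, E_add, E_mul_left] at hs
  have a1 := E_AA (I := I) hN hq hk hL
  have a2 := E_BB (I := I) hq hL1
  have a3 := E_CC (U := Fin L' → Bool) (I := I) hU hN hq h1' hL3 hL2 hI
  rw [hcU] at a3
  have a4 : AA I k s + BB I k s + (2 * M) * CC (Fin L' → Bool) I k s ≤ 4648 * P * M := by
    have b1 := mul_le_mul_of_nonneg_left a3 (by positivity : 0 ≤ 2 * M)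
    have b2 : 4000 * P * N ≤ 4000 * P * M := mul_le_mul_of_nonneg_left hNM (by positivity)
    have b3 : 48 * (2 ^ L' * 2 ^ N) * ((N + (L' + 2) : ℕ) : ℝ) = 48 * P * M := rfl
    rw [b3] at a2
    linarith
  obtain ⟨φ, f1, f2, f3, f4⟩ := matching_of_seeds (by omega) hB h1' h2' s
  have a5 := c3_le (U := Fin L' → Bool) hU hq (by omega) h1' h2' hk2
  rw [hcU] at a5
  refine ⟨φ, f1, f2, f3, ?_⟩
  -- triangle inequality
  set ps : (Fin N → Bool) × (Fin L' → Bool) → ZZ N L :=
    fun p => pos Phi (acc k) bas I (s p.2) p.1 with hps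
  have tri : ∀ p p' : (Fin N → Bool) × (Fin L' → Bool), dZ (φ p) (φ p') ≤
      dZ (ps p) (ps p') + (dZ (ps p) (φ p) + dZ (ps p') (φ p')) := by
    intro p p'
    have t1 := dZ_triangle (φ p) (ps p) (φ p')
    have t2 := dZ_triangle (ps p) (ps p') (φ p')
    rw [dZ_comm (φ p) (ps p)] at t1
    linarith
  set D : ℝ := ∑ p, dZ (ps p) (φ p) with hD
  have hx : ∀ i : Fin N, ∑ p : (Fin N → Bool) × (Fin L' → Bool), dZ (ps (fl p.1 i, p.2)) (φ (fl p.1 i, p.2)) = D := by
    intro i
    have hinv : Function.Involutive (fun p : (Fin N → Bool) × (Fin L' → Bool) => (fl p.1 i, p.2)) := by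
      intro p
      simp [fl]
    exact Equiv.sum_comp (Function.Involutive.toPerm _ hinv) (fun p => dZ (ps p) (φ p))
  have hy : ∀ j : Fin L', ∑ p : (Fin N → Bool) × (Fin L' → Bool), dZ (ps (p.1, fl p.2 j)) (φ (p.1, fl p.2 j)) = D := by
    intro j
    have hinv : Function.Involutive (fun p : (Fin N → Bool) × (Fin L' → Bool) => (p.1, fl p.2 j)) := by
      intro p
      simp [fl]
    exact Equiv.sum_comp (Function.Involutive.toPerm _ hinv) (fun p => dZ (ps p) (φ p))
  have hA : ∑ p : (Fin N → Bool) × (Fin L' → Bool), ∑ i : Fin N, dZ (φ p) (φ (fl p.1 i, p.2)) ≤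
      AA I k s + N * (2 * D) := by
    calc ∑ p : (Fin N → Bool) × (Fin L' → Bool), ∑ i : Fin N, dZ (φ p) (φ (fl p.1 i, p.2))
        ≤ ∑ p : (Fin N → Bool) × (Fin L' → Bool), ∑ i : Fin N, (dZ (ps p) (ps (fl p.1 i, p.2)) +
            (dZ (ps p) (φ p) + dZ (ps (fl p.1 i, p.2)) (φ (fl p.1 i, p.2)))) :=
          sum_le_sum fun p _ => sum_le_sum fun i _ => tri _ _
      _ = AA I k s + N * (2 * D) := by
          simp_rw [sum_add_distrib]
          congr 1
          · rw [Fintype.sum_prod_type, sum_comm]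
            rfl
          · rw [sum_comm (f := fun (p : (Fin N → Bool) × (Fin L' → Bool)) (i : Fin N) =>
              dZ (ps (fl p.1 i, p.2)) (φ (fl p.1 i, p.2)))]
            simp_rw [hx]
            simp only [sum_const, card_univ, Fintype.card_fin, nsmul_eq_mul]
            rw [← mul_sum]
            ring
  have hB' : ∑ p : (Fin N → Bool) × (Fin L' → Bool), ∑ j : Fin L', dZ (φ p) (φ (p.1, fl p.2 j)) ≤
      BB I k s + L' * (2 * D) := by
    calc ∑ p : (Fin N → Bool) × (Fin L' → Bool), ∑ j : Fin L', dZ (φ p) (φ (p.1, fl p.2 j))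
        ≤ ∑ p : (Fin N → Bool) × (Fin L' → Bool), ∑ j : Fin L', (dZ (ps p) (ps (p.1, fl p.2 j)) +
            (dZ (ps p) (φ p) + dZ (ps (p.1, fl p.2 j)) (φ (p.1, fl p.2 j)))) :=
          sum_le_sum fun p _ => sum_le_sum fun i _ => tri _ _
      _ = BB I k s + L' * (2 * D) := by
          simp_rw [sum_add_distrib]
          congr 1
          · rw [Fintype.sum_prod_type, sum_comm]
            rfl
          · rw [sum_comm (f := fun (p : (Fin N → Bool) × (Fin L' → Bool)) (j : Fin L') =>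
              dZ (ps (p.1, fl p.2 j)) (φ (p.1, fl p.2 j)))]
            simp_rw [hy]
            simp only [sum_const, card_univ, Fintype.card_fin, nsmul_eq_mul]
            rw [← mul_sum]
            ring
  rw [sum_add_distrib]
  have hD1 : D ≤ CC (Fin L' → Bool) I k s + 64 * P := f4.trans (by linarith)
  have hD0 : 0 ≤ D := sum_nonneg fun _ _ => dZ_nonneg _ _
  have hNL : (N : ℝ) + L' ≤ M := by rw [hM, hLdef]; push_cast; linarith
  have h5 : ((N : ℝ) + L') * (2 * D) ≤ (2 * M) * (CC (Fin L' → Bool) I k s + 64 * P) := by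
    have b1 : ((N : ℝ) + L') * (2 * D) ≤ M * (2 * D) := mul_le_mul_of_nonneg_right hNL (by positivity)
    have b2 : M * (2 * D) = (2 * M) * D := by ring
    have b3 := mul_le_mul_of_nonneg_left hD1 (by positivity : 0 ≤ 2 * M)
    linarith
  have h6 : (2 * M) * (CC (Fin L' → Bool) I k s + 64 * P) =
      (2 * M) * CC (Fin L' → Bool) I k s + 128 * P * M := by ring
  have h7 : 5000 * P * ((N + (L' + 2) : ℕ) : ℝ) = 5000 * P * M := rfl
  rw [h7]
  have h8 : 0 ≤ P * M := by positivity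
  have h9 : (N : ℝ) * (2 * D) + L' * (2 * D) = ((N : ℝ) + L') * (2 * D) := by ring
  have h10 : 5000 * P * M = 5000 * (P * M) := by ring
  have h11 : 128 * P * M = 128 * (P * M) := by ring
  have h12 : 4648 * P * M = 4648 * (P * M) := by ring
  rw [h10]
  rw [h11] at h6
  rw [h12] at a4
  linarith

end Pool.Agent.W167.Stretch
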