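import Pool.Agent.W167.Stretch.Prod

/-!
The radius of the balls and the numerical hypotheses.
-/

set_option autoImplicit false

namespace Pool.Agent.W167.Stretch

open Finset

variable {N L : ℕ}

/-- complement in the product -/
def compZ (z : ZZ N L) : ZZ N L := (cc z.1, cc z.2)

theorem compZ_compZ (z : ZZ N L) : compZ (compZ z) = z := by
  unfold compZ; simp only [cc_cc]

theorem compZ_inj : Function.Injective (compZ : ZZ N L → ZZ N L) :=
  Function.LeftInverse.injective compZ_compZ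

theorem lev_compZ (z : ZZ N L) : lev (compZ z) = (N : ℤ) + L - lev z := by
  unfold lev compZ
  simp only
  rw [wz_cc, wz_cc]; ring

theorem dZ_compZ (z w : ZZ N L) : dZ (compZ z) (compZ w) = dZ z w := by
  unfold dZ compZ
  simp only
  rw [dist_cc, dist_cc]

/-- if the radius is large then two balls nearly cover everything -/
theorem cover {k : ℕ} (h : N + L ≤ 2 * (k + 1)) :
    2 ^ (N + L) ≤ 2 * (Ball N L k).card + (Lev N L k).card := by
  classical
  have h1 : (univ : Finset (ZZ N L)) ⊆ (Ball N L k ∪ Lev N L k) ∪ (Ball N L k).image compZ := by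
    intro z _
    rw [mem_union, mem_union, mem_Ball, mem_Lev, mem_image]
    by_cases h2 : lev z ≤ (k : ℤ)
    · exact Or.inl (Or.inl h2)
    · by_cases h3 : lev z = ((k + 1 : ℕ) : ℤ)
      · exact Or.inl (Or.inr h3)
      · right
        refine ⟨compZ z, ?_, compZ_compZ z⟩
        rw [mem_Ball, lev_compZ]
        push_cast at h3
        omega
  have h2 := (card_le_card h1).trans (card_union_le _ _)
  have h3 := card_union_le (Ball N L k) (Lev N L k)
  have h4 : ((Ball N L k).image compZ).card = (Ball N L k).card :=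
    card_image_of_injective _ compZ_inj
  have h5 : (univ : Finset (ZZ N L)).card = 2 ^ (N + L) := by
    rw [card_univ, Fintype.card_prod, Fintype.card_fun, Fintype.card_fun, Fintype.card_bool,
      Fintype.card_fin, Fintype.card_fin, pow_add]
  rw [h5] at h2
  omega

/-- numerical facts -/
theorem pow_bound (m : ℕ) (hm : 64 ≤ m) : (2 * m) ^ 6 + 2 * m ≤ 2 ^ (m - 1) := by
  induction m, hm using Nat.le_induction with
  | base => norm_num
  | succ m hm ih =>
    have h1 : (64 * (m + 1)) ^ 6 ≤ (65 * m) ^ 6 := Nat.pow_le_pow_left (by omega) 6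
    rw [mul_pow, mul_pow] at h1
    have h2 : (2 * (m + 1)) ^ 6 ≤ 2 * (2 * m) ^ 6 := by
      rw [mul_pow, mul_pow]
      have h3 : 65 ^ 6 * m ^ 6 ≤ 64 ^ 6 * (2 * m ^ 6) := by
        have : (65 : ℕ) ^ 6 ≤ 64 ^ 6 * 2 := by norm_num
        calc 65 ^ 6 * m ^ 6 ≤ (64 ^ 6 * 2) * m ^ 6 := Nat.mul_le_mul_right _ this
          _ = 64 ^ 6 * (2 * m ^ 6) := by ring
      have h4 : (m + 1) ^ 6 ≤ 2 * m ^ 6 := Nat.le_of_mul_le_mul_left (h1.trans h3) (by positivity)
      calc 2 ^ 6 * (m + 1) ^ 6 ≤ 2 ^ 6 * (2 * m ^ 6) := Nat.mul_le_mul_left _ h4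
        _ = 2 * (2 ^ 6 * m ^ 6) := by ring
    have h5 : 2 ^ (m + 1 - 1) = 2 * 2 ^ (m - 1) := by
      rw [← pow_succ']; congr 1; omega
    rw [h5]
    omega

/-- choice of the parameters -/
theorem params (M : ℕ) (hM : 2 ^ 64 < M) : ∃ L' N : ℕ, M = N + (L' + 2) ∧ 0 < N ∧
    (((L' + 2 : ℕ) : ℝ) ^ 3 ≤ Real.sqrt N) ∧
    ((N : ℝ) + ((L' + 2 : ℕ) : ℝ)) ≤ Real.sqrt (2 ^ (L' + 2)) ∧
    ((L' : ℝ) + 2) ≤ Real.sqrt (N + (L' + 2) : ℕ) := by
  set m := Nat.clog 2 M with hm
  have h1 : M ≤ 2 ^ m := Nat.le_pow_clog (by norm_num) M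
  have h2 : 64 ≤ m := by
    by_contra hcon
    push Not at hcon
    have : 2 ^ m ≤ 2 ^ 64 := Nat.pow_le_pow_right (by norm_num) (by omega)
    omega
  have h3 : 2 ^ (m - 1) < M := Nat.pow_pred_clog_lt_self (by norm_num) (by omega)
  have h4 := pow_bound m h2
  have h5 : (2 * m) ^ 6 + 2 * m < M := lt_of_le_of_lt h4 h3
  have h6 : 0 < (2 * m) ^ 6 := by positivity
  refine ⟨2 * m - 2, M - 2 * m, by omega, by omega, ?_, ?_, ?_⟩
  · have e : 2 * m - 2 + 2 = 2 * m := by omega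
    rw [e]
    apply Real.le_sqrt_of_sq_le
    rw [← pow_mul]
    have : (2 * m) ^ 6 ≤ M - 2 * m := by omega
    exact_mod_cast this
  · have e : 2 * m - 2 + 2 = 2 * m := by omega
    rw [e]
    have e2 : ((M - 2 * m : ℕ) : ℝ) + ((2 * m : ℕ) : ℝ) = M := by
      rw [← Nat.cast_add]; congr 1; omega
    rw [e2]
    have e3 : Real.sqrt (2 ^ (2 * m)) = 2 ^ m := by
      rw [mul_comm, pow_mul, Real.sqrt_sq (by positivity)]
    rw [e3]
    exact_mod_cast h1
  · have e2 : M - 2 * m + (2 * m - 2 + 2) = M := by omega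
    rw [e2]
    apply Real.le_sqrt_of_sq_le
    have e3 : (((2 * m - 2 : ℕ) : ℝ) + 2) = ((2 * m : ℕ) : ℝ) := by
      have : ((2 * m - 2 + 2 : ℕ) : ℝ) = ((2 * m : ℕ) : ℝ) := by congr 1; omega
      rw [← this]; push_cast; ring
    rw [e3]
    have e4 : (2 * m) ^ 2 ≤ (2 * m) ^ 6 := Nat.pow_le_pow_right (by omega) (by norm_num)
    have e5 : (2 * m) ^ 2 ≤ M := by omega
    exact_mod_cast e5

/-- all the hypotheses on the radius -/
theorem radius {L' : ℕ} {k : ℕ} (hM : 2 ^ 64 < N + (L' + 2))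
    (h1 : (Ball N (L' + 2) k).card ≤ 2 ^ L' * 2 ^ N)
    (h2 : 2 ^ L' * 2 ^ N < (Ball N (L' + 2) k).card + (Lev N (L' + 2) k).card) :
    2 * (k + 1) < N + (L' + 2) ∧ 1 / 8 ≤ qq N (L' + 2) k := by
  set M := N + (L' + 2) with hMd
  have h4 : 4 * (2 ^ L' * 2 ^ N) = 2 ^ M := by
    rw [hMd, pow_add, pow_add]; ring
  have h5 : (Lev N (L' + 2) k).card * 8 ≤ 2 ^ M := by
    have h6 := choose_le M (k + 1)
    have h7 : (8 : ℝ) ≤ Real.sqrt M := by
      apply Real.le_sqrt_of_sq_le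
      have : 64 ≤ M := by omega
      have : (64 : ℝ) ≤ M := by exact_mod_cast this
      linarith
    have h8 : ((M.choose (k + 1) : ℕ) : ℝ) * 8 ≤ 2 ^ M :=
      (mul_le_mul_of_nonneg_left h7 (Nat.cast_nonneg _)).trans h6
    rw [card_Lev]
    exact_mod_cast h8
  constructor
  · by_contra hcon
    push Not at hcon
    have h6 := cover (N := N) (L := L' + 2) (k := k) hcon
    rw [← hMd] at h6
    have : 0 < 2 ^ M := by positivity
    omega
  · unfold qq
    rw [le_div_iff₀ (by positivity)]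
    have h6 : 2 ^ M ≤ 8 * (Ball N (L' + 2) k).card := by omega
    have h7 : ((2 : ℝ) ^ M) ≤ 8 * (Ball N (L' + 2) k).card := by exact_mod_cast h6
    linarith

end Pool.Agent.W167.Stretch
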