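import Pool.Agent.W167.Stretch.Dev

/-!
Bounds for the sum of the inverse square roots of the block sizes.
-/

set_option autoImplicit false

namespace Pool.Agent.W167.Stretch

open Finset

variable {N L : ℕ}

theorem blk_large {k t : ℕ} (ht : t ≤ L) {z : ZZ N L} (hz : wz z.1 + L ≤ k) :
    2 ^ t ≤ (blk (bt k t) z).card := by
  have hacc : ∀ c : Fin L → Bool, acc k ((z.1, c) : ZZ N L) := by
    intro c
    have := wz_le c
    unfold acc lev
    simp only
    omega
  have hz' : acc k z := hacc z.2
  have h1 : Fintype.card (Fin t → Bool) = 2 ^ t := by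
    rw [Fintype.card_fun, Fintype.card_bool, Fintype.card_fin]
  rw [← h1, ← card_univ]
  apply card_le_card_of_injOn
    (fun c : Fin t → Bool => ((z.1, fun j : Fin L => if h : j.1 < t then c ⟨j.1, h⟩ else z.2 j) : ZZ N L))
  · intro c _
    rw [mem_coe, mem_blk_bt hz']
    refine ⟨hacc _, rfl, ?_⟩
    funext j
    unfold mask
    by_cases h : j.1 < t
    · simp [h]
    · simp [h]
  · intro c _ c' _ h
    funext i
    have h2 := congrFun (Prod.mk.inj h).2 ⟨i.1, lt_of_lt_of_le i.2 ht⟩
    simpa using h2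

/-- the points of the ball whose fibre is not full -/
def part (N L k : ℕ) : Finset (ZZ N L) := (Ball N L k).filter (fun z => (k : ℤ) < wz z.1 + L)

theorem SS_le {k t : ℕ} (ht : t ≤ L) :
    SS N L k t ≤ (Ball N L k).card * (1 / Real.sqrt (2 ^ t)) + (part N L k).card := by
  have h1 : ∀ z ∈ Ball N L k, 1 / Real.sqrt ((blk (bt k t) z).card : ℝ) ≤
      1 / Real.sqrt (2 ^ t) + (if (k : ℤ) < wz z.1 + L then 1 else 0) := by
    intro z _
    have hn : (0 : ℝ) < (blk (bt k t) z).card := by exact_mod_cast blk_card_pos _ z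
    have h2 : (0 : ℝ) < 1 / Real.sqrt (2 ^ t) := by positivity
    by_cases h : (k : ℤ) < wz z.1 + L
    · rw [if_pos h]
      have h3 : (1 : ℝ) ≤ (blk (bt k t) z).card := by exact_mod_cast blk_card_pos (bt k t) z
      have h4 : 1 / Real.sqrt ((blk (bt k t) z).card : ℝ) ≤ 1 := by
        rw [div_le_one (Real.sqrt_pos.2 hn)]
        exact Real.one_le_sqrt.2 h3
      linarith
    · rw [if_neg h, add_zero]
      have h3 : (2 ^ t : ℝ) ≤ (blk (bt k t) z).card := by
        exact_mod_cast blk_large ht (by omega)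
      exact one_div_le_one_div_of_le (by positivity) (Real.sqrt_le_sqrt h3)
  unfold SS
  refine (sum_le_sum h1).trans (le_of_eq ?_)
  rw [sum_add_distrib, sum_const, nsmul_eq_mul, ← sum_filter, sum_const, nsmul_eq_mul, mul_one]
  rfl

theorem part_le (k : ℕ) (hN : 0 < N) :
    ((part N L k).card : ℝ) ≤ L * 2 ^ (N + L) / Real.sqrt N := by
  have hs : 0 < Real.sqrt N := Real.sqrt_pos.2 (by exact_mod_cast hN)
  have h1 : part N L k ⊆ (range L).biUnion (fun i =>
      (univ.filter (fun y : Fin N → Bool => wz y = (k : ℤ) - i)) ×ˢ (univ : Finset (Fin L → Bool))) := by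
    intro z hz
    unfold part at hz
    rw [mem_filter, mem_Ball] at hz
    have h2 := wz_nonneg z.2
    unfold lev at hz
    rw [mem_biUnion]
    refine ⟨((k : ℤ) - wz z.1).toNat, ?_, ?_⟩
    · rw [mem_range]; omega
    · rw [mem_product, mem_filter]
      refine ⟨⟨mem_univ _, by omega⟩, mem_univ _⟩
  have h2 : ∀ i ∈ range L, (((univ.filter (fun y : Fin N → Bool => wz y = (k : ℤ) - i)) ×ˢ
      (univ : Finset (Fin L → Bool))).card : ℝ) ≤ 2 ^ (N + L) / Real.sqrt N := by
    intro i _
    rw [card_product, card_univ, Fintype.card_fun, Fintype.card_bool, Fintype.card_fin]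
    push_cast
    rw [le_div_iff₀ hs, pow_add]
    by_cases hk : i ≤ k
    · have h3 : (univ.filter (fun y : Fin N → Bool => wz y = (k : ℤ) - i)).card = N.choose (k - i) := by
        rw [← card_wz N (k - i)]
        congr 1
        ext y
        simp only [mem_filter, mem_univ, true_and]
        omega
      rw [h3]
      have h4 := choose_le N (k - i)
      have h5 : (N.choose (k - i) : ℝ) * 2 ^ L * Real.sqrt N =
          (N.choose (k - i) : ℝ) * Real.sqrt N * 2 ^ L := by ring
      rw [h5]
      exact mul_le_mul_of_nonneg_right h4 (by positivity)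
    · have h3 : (univ.filter (fun y : Fin N → Bool => wz y = (k : ℤ) - i)) = ∅ := by
        apply filter_eq_empty_iff.2
        intro y _ hy
        have := wz_nonneg y
        omega
      rw [h3]
      simp
  have h3 : ((part N L k).card : ℝ) ≤ ∑ i ∈ range L, (((univ.filter (fun y : Fin N → Bool =>
      wz y = (k : ℤ) - i)) ×ˢ (univ : Finset (Fin L → Bool))).card : ℝ) := by
    exact_mod_cast (card_le_card h1).trans card_biUnion_le
  refine h3.trans ((sum_le_sum h2).trans (le_of_eq ?_))
  rw [sum_const, card_range, nsmul_eq_mul]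
  ring

theorem mask_top (v w : Fin L → Bool) : mask L v = mask L w := by
  funext j
  unfold mask
  rw [if_pos j.2, if_pos j.2]

theorem SS_top (k : ℕ) : SS N L k L ≤ 2 ^ N * Real.sqrt (2 ^ L) := by
  unfold SS
  rw [← sum_fiberwise (Ball N L k) (fun z => z.1)]
  have h1 : ∀ y ∈ (univ : Finset (Fin N → Bool)),
      ∑ z ∈ (Ball N L k).filter (fun z => z.1 = y), 1 / Real.sqrt ((blk (bt k L) z).card : ℝ) ≤
        Real.sqrt (2 ^ L) := by
    intro y _
    set F := (Ball N L k).filter (fun z => z.1 = y) with hF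
    have h2 : ∀ z ∈ F, 1 / Real.sqrt ((blk (bt k L) z).card : ℝ) = 1 / Real.sqrt (F.card : ℝ) := by
      intro z hz
      have hz' := hz
      rw [hF, mem_filter, mem_Ball] at hz'
      congr 4
      ext w
      rw [mem_blk_bt hz'.1, hF, mem_filter, mem_Ball, hz'.2]
      constructor
      · rintro ⟨h3, h4, -⟩; exact ⟨h3, h4⟩
      · rintro ⟨h3, h4⟩; exact ⟨h3, h4, mask_top _ _⟩
    rw [sum_congr rfl h2, sum_const, nsmul_eq_mul]
    have h3 : (F.card : ℝ) * (1 / Real.sqrt (F.card : ℝ)) = Real.sqrt (F.card : ℝ) := by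
      rw [mul_one_div, Real.div_sqrt]
    rw [h3]
    apply Real.sqrt_le_sqrt
    have h4 : F.card ≤ (univ : Finset (Fin L → Bool)).card := by
      apply card_le_card_of_injOn (fun z => z.2) (fun _ _ => mem_coe.2 (mem_univ _))
      intro z hz w hw h
      rw [hF, mem_coe, mem_filter] at hz hw
      exact Prod.ext (hz.2.trans hw.2.symm) h
    rw [card_univ, Fintype.card_fun, Fintype.card_bool, Fintype.card_fin] at h4
    exact_mod_cast h4
  refine (sum_le_sum h1).trans (le_of_eq ?_)
  rw [sum_const, card_univ, nsmul_eq_mul, Fintype.card_fun, Fintype.card_bool, Fintype.card_fin]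
  push_cast
  rfl

end Pool.Agent.W167.Stretch
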